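import Pool.Agent.Helper51.LCY.P2

/-!
Step 1 of MP_f7e214_ag, part 4: plane and ruled structures, choice by minimality.
-/

open Polynomial

namespace LCY

noncomputable section

variable {L : Type} [Field L] [Algebra ℂ L] {N : ℕ}

/-- The polynomials `F i` represent the multiples `q * x i` in the coordinates `P`. -/
def Pol (x : Fin (N + 1) → L) (P : Coord L) (q : L) (F : Fin (N + 1) → ℂ[X][X]) : Prop :=
  q ≠ 0 ∧ ∀ i, ev P.x P.y (F i) = q * x i

/-- All total degrees are at most `a`. -/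
def SuppT (F : Fin (N + 1) → ℂ[X][X]) (a : ℕ) : Prop :=
  ∀ i e, cf (F i) e ≠ 0 → e.1 + e.2 ≤ a

/-- Degree at most `d` in the second variable, weighted degree (weights `1`, `n`) at most `b`. -/
def SuppR (F : Fin (N + 1) → ℂ[X][X]) (d b n : ℕ) : Prop :=
  ∀ i e, cf (F i) e ≠ 0 → e.2 ≤ d ∧ e.1 + n * e.2 ≤ b

/-- Plane structure of degree `a` (curves of `P^2`, `q` times the system has degree `≤ a`). -/
def P2S (x : Fin (N + 1) → L) (P : Coord L) (q : L) (a : ℕ) : Prop :=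
  ∃ F, Pol x P q F ∧ SuppT F a

/-- Ruled structure on the Hirzebruch surface `F_n` with base coordinate `P.x` and fibre
coordinate `P.y`: the system is contained in `d σ + b f`, `σ` the curve `P.y = ∞`. -/
def RS (x : Fin (N + 1) → L) (P : Coord L) (q : L) (d b n : ℕ) : Prop :=
  ∃ F, Pol x P q F ∧ SuppR F d b n

/-- The system `x` is not composed with a curve. -/
def Big (ω : Bracket L) (x : Fin (N + 1) → L) : Prop :=
  ∃ i j k, x k ≠ 0 ∧ ω.br (x i / x k) (x j / x k) ≠ 0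

/-- Lower bound for `6 μ` over all structures. -/
def LB (x : Fin (N + 1) → L) (M : ℕ) : Prop :=
  (∀ P q a, P2S x P q a → M ≤ 2 * a) ∧ (∀ P q d b n, RS x P q d b n → M ≤ 3 * d)

/-- Minimal plane structure. -/
def MinP2 (x : Fin (N + 1) → L) (P : Coord L) (q : L) (a : ℕ) : Prop :=
  P2S x P q a ∧ LB x (2 * a)

/-- Minimal ruled structure; moreover no plane structure attains the minimum. -/
def MinR (x : Fin (N + 1) → L) (P : Coord L) (q : L) (d b n : ℕ) : Prop :=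
  RS x P q d b n ∧ LB x (3 * d) ∧ (∀ P' q' a', P2S x P' q' a' → 3 * d < 2 * a') ∧
    ∀ P' q' b' n', RS x P' q' d b' n' → (2 * b - n * d : ℤ) ≤ 2 * b' - n' * d

/-- The polynomials of a structure are unique. -/
theorem Pol.unique {x : Fin (N + 1) → L} {P : Coord L} {q : L} {F G : Fin (N + 1) → ℂ[X][X]}
    (hF : Pol x P q F) (hG : Pol x P q G) : F = G := by
  funext i
  have h : ev P.x P.y (F i - G i) = 0 := by
    rw [map_sub, hF.2 i, hG.2 i, sub_self]
  exact sub_eq_zero.1 (P.inj _ h)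

/-! ### Existence -/

theorem exists_pol (x : Fin (N + 1) → L) (P : Coord L) : ∃ q F, Pol x P q F := by
  choose f g hg hx using fun i => P.surj (x i)
  refine ⟨∏ i, ev P.x P.y (g i), fun i => f i * ∏ j ∈ Finset.univ.erase i, g j, ?_, ?_⟩
  · exact Finset.prod_ne_zero_iff.2 fun i _ => P.ne (hg i)
  · intro i
    rw [map_mul, map_prod, hx i, ← Finset.mul_prod_erase Finset.univ (fun j => ev P.x P.y (g j))
      (Finset.mem_univ i)]
    have := P.ne (hg i)
    field_simp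

theorem exists_P2S (x : Fin (N + 1) → L) (P : Coord L) : ∃ q a, P2S x P q a := by
  obtain ⟨q, F, hF⟩ := exists_pol x P
  refine ⟨q, ∑ i, ∑ e ∈ bs (F i), (e.1 + e.2), F, hF, ?_⟩
  intro i e he
  have h1 : e.1 + e.2 ≤ ∑ e ∈ bs (F i), (e.1 + e.2) :=
    Finset.single_le_sum (f := fun e : ℕ × ℕ => e.1 + e.2) (fun _ _ => Nat.zero_le _)
      (mem_bs.2 he)
  have h2 : ∑ e ∈ bs (F i), (e.1 + e.2) ≤ ∑ i, ∑ e ∈ bs (F i), (e.1 + e.2) :=
    Finset.single_le_sum (f := fun i => ∑ e ∈ bs (F i), (e.1 + e.2)) (fun _ _ => Nat.zero_le _)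
      (Finset.mem_univ i)
  exact le_trans h1 h2

theorem ex_ne {ω : Bracket L} {x : Fin (N + 1) → L} (hx : Big ω x) : ∃ i, x i ≠ 0 := by
  obtain ⟨i, j, k, hk, -⟩ := hx
  exact ⟨k, hk⟩

/-- Existence of an exponent. -/
theorem Pol.ex_exp {x : Fin (N + 1) → L} {P : Coord L} {q : L} {F : Fin (N + 1) → ℂ[X][X]}
    (hF : Pol x P q F) {i : Fin (N + 1)} (hi : x i ≠ 0) : ∃ e, cf (F i) e ≠ 0 := by
  refine exists_cf_ne ?_
  intro h
  have := hF.2 i
  rw [h, map_zero] at this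
  exact mul_ne_zero hF.1 hi this.symm

/-! ### Existence of minimal structures -/

theorem ruled_nonneg {x : Fin (N + 1) → L} {P : Coord L} {q : L} {d b n : ℕ}
    (hx : ∃ i, x i ≠ 0) (h : RS x P q d b n) (hLB : LB x (3 * d)) :
    ∃ F, Pol x P q F ∧ SuppR F d b n ∧ (∃ i e, cf (F i) e ≠ 0 ∧ e.2 = d) ∧ n * d ≤ b := by
  obtain ⟨F, hF, hS⟩ := h
  have key : ∃ i e, cf (F i) e ≠ 0 ∧ e.2 = d := by
    by_contra hcon
    push Not at hcon
    by_cases hd : d = 0
    · obtain ⟨i, hi⟩ := hx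
      obtain ⟨e, he⟩ := hF.ex_exp hi
      have h1 := (hS i e he).1
      exact hcon i e he (by omega)
    · have h1 : RS x P q (d - 1) b n := by
        refine ⟨F, hF, fun i e he => ?_⟩
        have h2 := hS i e he
        have h3 := hcon i e he
        exact ⟨by omega, h2.2⟩
      have := hLB.2 _ _ _ _ _ h1
      omega
  refine ⟨F, hF, hS, key, ?_⟩
  obtain ⟨i, e, he, hed⟩ := key
  have := (hS i e he).2
  rw [hed] at this
  omega

theorem exists_min {ω : Bracket L} (x : Fin (N + 1) → L) (hx : Big ω x) (P0 : Coord L) :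
    (∃ P q a, MinP2 x P q a) ∨ ∃ P q d b n, MinR x P q d b n := by
  classical
  set S : ℕ → Prop := fun M => (∃ P q a, P2S x P q a ∧ M = 2 * a) ∨
    ∃ P q d b n, RS x P q d b n ∧ M = 3 * d with hS
  have hex : ∃ M, S M := by
    obtain ⟨q, a, h⟩ := exists_P2S x P0
    exact ⟨2 * a, Or.inl ⟨P0, q, a, h, rfl⟩⟩
  have hmin : ∀ M, S M → Nat.find hex ≤ M := fun M hM => Nat.find_min' hex hM
  have hLB : LB x (Nat.find hex) :=
    ⟨fun P q a h => hmin _ (Or.inl ⟨P, q, a, h, rfl⟩),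
      fun P q d b n h => hmin _ (Or.inr ⟨P, q, d, b, n, h, rfl⟩)⟩
  by_cases hp : ∃ P q a, P2S x P q a ∧ Nat.find hex = 2 * a
  · left
    obtain ⟨P, q, a, h, hM⟩ := hp
    exact ⟨P, q, a, h, hM ▸ hLB⟩
  · right
    rcases Nat.find_spec hex with h | h
    · exact absurd h hp
    obtain ⟨P1, q1, d, b1, n1, h1, hM⟩ := h
    rw [hM] at hLB hp
    set T : ℕ → Prop := fun m => ∃ P q b n, RS x P q d b n ∧ (m : ℤ) = 2 * b - n * d with hT
    have hnn : ∀ P q b n, RS x P q d b n → (0 : ℤ) ≤ 2 * b - n * d := by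
      intro P q b n h
      obtain ⟨F, -, -, -, h2⟩ := ruled_nonneg (ex_ne hx) h hLB
      have : ((n * d : ℕ) : ℤ) ≤ b := by exact_mod_cast h2
      push_cast at this
      omega
    have hexT : ∃ m, T m := by
      refine ⟨(2 * (b1 : ℤ) - n1 * d).toNat, P1, q1, b1, n1, h1, ?_⟩
      rw [Int.toNat_of_nonneg (hnn _ _ _ _ h1)]
    obtain ⟨P, q, b, n, h2, h3⟩ := Nat.find_spec hexT
    refine ⟨P, q, d, b, n, h2, hLB, ?_, ?_⟩
    · intro P' q' a' h'
      have h4 := hLB.1 _ _ _ h'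
      rcases Nat.lt_or_ge (3 * d) (2 * a') with h5 | h5
      · exact h5
      · exact absurd ⟨P', q', a', h', by omega⟩ hp
    · intro P' q' b' n' h'
      rw [← h3]
      have h5 := hnn _ _ _ _ h'
      have h4 : Nat.find hexT ≤ (2 * (b' : ℤ) - n' * d).toNat :=
        Nat.find_min' hexT ⟨P', q', b', n', h', by rw [Int.toNat_of_nonneg h5]⟩
      have h6 : ((Nat.find hexT : ℕ) : ℤ) ≤ ((2 * (b' : ℤ) - n' * d).toNat : ℤ) := by
        exact_mod_cast h4
      rwa [Int.toNat_of_nonneg h5] at h6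

/-! ### Monomial changes of structures -/

/-- General monomial change: `P.x = Q.x ^ a * Q.y ^ b`, `P.y = Q.x ^ c * Q.y ^ d`, new multiplier
`q * Q.x ^ s * Q.y ^ t`; the new exponents are `(a i + c j + s, b i + d j + t)`. -/
theorem Pol.tor {x : Fin (N + 1) → L} {P : Coord L} {q : L} {F : Fin (N + 1) → ℂ[X][X]}
    (hF : Pol x P q F) (a b c d s t : ℤ) (hdet : a * d - b * c = 1 ∨ a * d - b * c = -1)
    (hpos : ∀ i e, cf (F i) e ≠ 0 → 0 ≤ a * e.1 + c * e.2 + s ∧ 0 ≤ b * e.1 + d * e.2 + t)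
    (Q : Coord L) (hx : P.x = Q.x ^ a * Q.y ^ b) (hy : P.y = Q.x ^ c * Q.y ^ d) :
    ∃ G, Pol x Q (q * (Q.x ^ s * Q.y ^ t)) G ∧
      (∀ i e, cf (F i) e ≠ 0 → ∃ e' : ℕ × ℕ, (e'.1 : ℤ) = a * e.1 + c * e.2 + s ∧
        (e'.2 : ℤ) = b * e.1 + d * e.2 + t ∧ cf (G i) e' = cf (F i) e) ∧
      (∀ i e', cf (G i) e' ≠ 0 → ∃ e, cf (F i) e ≠ 0 ∧ (e'.1 : ℤ) = a * e.1 + c * e.2 + s ∧
        (e'.2 : ℤ) = b * e.1 + d * e.2 + t) := by
  choose G h1 h2 h3 using fun i => toricZ (F i) a b c d s t hdet (hpos i)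
  refine ⟨G, ⟨?_, ?_⟩, h1, h2⟩
  · exact mul_ne_zero hF.1 (mul_ne_zero (zpow_ne_zero _ Q.x_ne) (zpow_ne_zero _ Q.y_ne))
  · intro i
    rw [h3 i L Q.x Q.y Q.x_ne Q.y_ne, ← hx, ← hy, hF.2 i]
    ring

/-- Translation of a structure. -/
theorem Pol.trl {x : Fin (N + 1) → L} {P : Coord L} {q : L} {F : Fin (N + 1) → ℂ[X][X]}
    (hF : Pol x P q F) (a b : ℂ) (Q : Coord L) (hx : Q.x = P.x - algebraMap ℂ L a)
    (hy : Q.y = P.y - algebraMap ℂ L b) : Pol x Q q (fun i => LCY.trl a b (F i)) := by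
  refine ⟨hF.1, fun i => ?_⟩
  rw [hx, hy, ev_trl, hF.2 i]

theorem SuppT.trl {F : Fin (N + 1) → ℂ[X][X]} {a : ℕ} (h : SuppT F a) (s t : ℂ) :
    SuppT (fun i => LCY.trl s t (F i)) a := by
  intro i e he
  obtain ⟨e', h1, h2, h3⟩ := cf_trl he
  have := h i e' h3
  omega

theorem SuppR.trl {F : Fin (N + 1) → ℂ[X][X]} {d b n : ℕ} (h : SuppR F d b n) (s t : ℂ) :
    SuppR (fun i => LCY.trl s t (F i)) d b n := by
  intro i e he
  obtain ⟨e', h1, h2, h3⟩ := cf_trl he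
  have h4 := h i e' h3
  have h5 : n * e.2 ≤ n * e'.2 := Nat.mul_le_mul_left n h2
  exact ⟨by omega, by omega⟩

/-! ### Multiplicities of a minimal plane structure -/

/-- In a minimal plane structure of degree `a` the multiplicity at the origin is at most
`a / 3`. -/
theorem MinP2.mult {x : Fin (N + 1) → L} {P : Coord L} {q : L} {a : ℕ} (ha : 0 < a)
    (h : MinP2 x P q a) {F : Fin (N + 1) → ℂ[X][X]} (hF : Pol x P q F) :
    ∃ i e, cf (F i) e ≠ 0 ∧ 3 * (e.1 + e.2) ≤ a := by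
  by_contra hcon
  push Not at hcon
  obtain ⟨⟨F', hF', hS⟩, hLB⟩ := h
  obtain rfl := hF.unique hF'
  -- m = floor (a / 3) + 1
  set m := a / 3 + 1 with hm
  have hm1 : ∀ i e, cf (F i) e ≠ 0 → m ≤ e.1 + e.2 := by
    intro i e he
    have := hcon i e he
    omega
  have hma : m ≤ a ∨ a < m := by omega
  -- new coordinates s = y / x, t = 1 / x
  obtain ⟨Q, hQx, hQy⟩ := P.tor (-1) 1 (-1) 0 (Or.inl (by norm_num))
  have hPx : P.x = Q.x ^ (0 : ℤ) * Q.y ^ (-1 : ℤ) := by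
    rw [hQx, hQy]; simp
  have hPy : P.y = Q.x ^ (1 : ℤ) * Q.y ^ (-1 : ℤ) := by
    have := P.x_ne
    rw [hQx, hQy]; simp
    field_simp
  obtain ⟨G, hG, -, h2⟩ := hF.tor 0 (-1) 1 (-1) 0 a (Or.inl (by norm_num)) (by
    intro i e he
    have := hS i e he
    constructor
    · omega
    · push_cast; omega) Q hPx hPy
  have hR : RS x Q (q * (Q.x ^ (0 : ℤ) * Q.y ^ (a : ℤ))) (a - m) a 1 := by
    refine ⟨G, hG, fun i e' he' => ?_⟩
    obtain ⟨e, he, h4, h5⟩ := h2 i e' he'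
    have h6 := hm1 i e he
    have h7 := hS i e he
    constructor
    · omega
    · omega
  have := hLB.2 _ _ _ _ _ hR
  omega

/-! ### Multiplicities of a minimal ruled structure -/

theorem MinR.mult {ω : Bracket L} {x : Fin (N + 1) → L} (hx : Big ω x) {P : Coord L} {q : L}
    {d b n : ℕ} (hd : 0 < d)
    (h : MinR x P q d b n) {F : Fin (N + 1) → ℂ[X][X]} (hF : Pol x P q F) :
    ∃ i e, cf (F i) e ≠ 0 ∧ 2 * (e.1 + e.2) ≤ d := by
  by_contra hcon
  push Not at hcon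
  obtain ⟨⟨F', hF', hS⟩, hLB, hP, hA⟩ := h
  obtain rfl := hF.unique hF'
  set m := d / 2 + 1 with hm
  have hm1 : ∀ i e, cf (F i) e ≠ 0 → m ≤ e.1 + e.2 := by
    intro i e he
    have := hcon i e he
    omega
  obtain ⟨i0, hi0⟩ := ex_ne hx
  obtain ⟨e0, he0⟩ := hF.ex_exp hi0
  have h01 := hm1 i0 e0 he0
  have h02 := hS i0 e0 he0
  rcases Nat.eq_zero_or_pos n with hn | hn
  · -- n = 0: new coordinates s, s / y
    subst hn
    obtain ⟨Q, hQx, hQy⟩ := P.tor 1 0 1 (-1) (Or.inr (by norm_num))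
    have hPx : P.x = Q.x ^ (1 : ℤ) * Q.y ^ (0 : ℤ) := by rw [hQx]; simp
    have hPy : P.y = Q.x ^ (1 : ℤ) * Q.y ^ (-1 : ℤ) := by
      have := P.x_ne
      have := P.y_ne
      rw [hQx, hQy]; simp
      field_simp
    obtain ⟨G, hG, -, h2⟩ := hF.tor 1 0 1 (-1) (-m) d (Or.inr (by norm_num)) (by
      intro i e he
      have := hS i e he
      have := hm1 i e he
      constructor
      · push_cast; omega
      · push_cast; omega) Q hPx hPy
    have hR : RS x Q (q * (Q.x ^ (-(m : ℤ)) * Q.y ^ (d : ℤ))) d (b + d - m) 1 := by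
      refine ⟨G, hG, fun i e' he' => ?_⟩
      obtain ⟨e, he, h4, h5⟩ := h2 i e' he'
      have h6 := hm1 i e he
      have h7 := hS i e he
      constructor
      · omega
      · omega
    have h8 := hA _ _ _ _ hR
    have h9 : ((b + d - m : ℕ) : ℤ) = b + d - m := by omega
    rw [h9] at h8
    push_cast at h8
    omega
  · -- n ≥ 1: new coordinates s, y / s
    obtain ⟨k, rfl⟩ : ∃ k, n = k + 1 := ⟨n - 1, by omega⟩
    obtain ⟨Q, hQx, hQy⟩ := P.tor 1 0 (-1) 1 (Or.inl (by norm_num))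
    have hPx : P.x = Q.x ^ (1 : ℤ) * Q.y ^ (0 : ℤ) := by rw [hQx]; simp
    have hPy : P.y = Q.x ^ (1 : ℤ) * Q.y ^ (1 : ℤ) := by
      have := P.x_ne
      have := P.y_ne
      rw [hQx, hQy]; simp
      field_simp
    obtain ⟨G, hG, -, h2⟩ := hF.tor 1 0 1 1 (-m) 0 (Or.inl (by norm_num)) (by
      intro i e he
      have := hm1 i e he
      constructor
      · push_cast; omega
      · omega) Q hPx hPy
    have hR : RS x Q (q * (Q.x ^ (-(m : ℤ)) * Q.y ^ (0 : ℤ))) d (b - m) k := by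
      refine ⟨G, hG, fun i e' he' => ?_⟩
      obtain ⟨e, he, h4, h5⟩ := h2 i e' he'
      have h6 := hm1 i e he
      have h7 := hS i e he
      have h8 : e'.2 = e.2 := by omega
      have h9 : (k + 1) * e.2 = k * e.2 + e.2 := by ring
      rw [h8]
      constructor
      · omega
      · omega
    have h8 := hA _ _ _ _ hR
    have hle : m ≤ b := by
      have h9 : (k + 1) * e0.2 = k * e0.2 + e0.2 := by ring
      have h10 : 0 ≤ k * e0.2 := Nat.zero_le _
      omega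
    have h9 : ((b - m : ℕ) : ℤ) = b - m := by omega
    have hm2 : (d : ℤ) < 2 * m := by omega
    rw [h9] at h8
    push_cast at h8
    have h10 : ((k : ℤ) + 1) * d = k * d + d := by ring
    rw [h10] at h8
    linarith

theorem MinR.mult_inf {ω : Bracket L} {x : Fin (N + 1) → L} (hx : Big ω x) {P : Coord L}
    {q : L} {d b n : ℕ} (hd : 0 < d)
    (h : MinR x P q d b n) {F : Fin (N + 1) → ℂ[X][X]} (hF : Pol x P q F) :
    ∃ i e, cf (F i) e ≠ 0 ∧ 2 * (e.1 + (d - e.2)) ≤ d := by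
  by_contra hcon
  push Not at hcon
  obtain ⟨⟨F', hF', hS⟩, hLB, hP, hA⟩ := h
  obtain rfl := hF.unique hF'
  set m := d / 2 + 1 with hm
  have hm1 : ∀ i e, cf (F i) e ≠ 0 → m ≤ e.1 + (d - e.2) := by
    intro i e he
    have := hcon i e he
    omega
  obtain ⟨i0, hi0⟩ := ex_ne hx
  obtain ⟨e0, he0⟩ := hF.ex_exp hi0
  have h01 := hm1 i0 e0 he0
  have h02 := hS i0 e0 he0
  obtain ⟨Q, hQx, hQy⟩ := P.tor 1 0 1 1 (Or.inl (by norm_num))
  have hPx : P.x = Q.x ^ (1 : ℤ) * Q.y ^ (0 : ℤ) := by rw [hQx]; simp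
  have hPy : P.y = Q.x ^ (-1 : ℤ) * Q.y ^ (1 : ℤ) := by
    have := P.x_ne
    have := P.y_ne
    rw [hQx, hQy]; simp
    field_simp
  obtain ⟨G, hG, -, h2⟩ := hF.tor 1 0 (-1) 1 (d - m) 0 (Or.inl (by norm_num)) (by
    intro i e he
    have := hm1 i e he
    have := hS i e he
    constructor
    · push_cast; omega
    · omega) Q hPx hPy
  have hR : RS x Q (q * (Q.x ^ ((d : ℤ) - m) * Q.y ^ (0 : ℤ))) d (b + d - m) (n + 1) := by
    refine ⟨G, hG, fun i e' he' => ?_⟩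
    obtain ⟨e, he, h4, h5⟩ := h2 i e' he'
    have h6 := hm1 i e he
    have h7 := hS i e he
    have h8 : e'.2 = e.2 := by omega
    have h9 : (n + 1) * e.2 = n * e.2 + e.2 := by ring
    rw [h8]
    constructor
    · omega
    · omega
  have h8 := hA _ _ _ _ hR
  have hle : m ≤ b + d := by omega
  have h9 : ((b + d - m : ℕ) : ℤ) = b + d - m := by omega
  have hm2 : (d : ℤ) < 2 * m := by omega
  rw [h9] at h8
  push_cast at h8
  have h10 : ((n : ℤ) + 1) * d = n * d + d := by ring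
  rw [h10] at h8
  linarith

/-- Nonnegativity of the coefficient `c` of `K_S + A_S / μ = c f`; it is positive for `n = 1`. -/
theorem MinR.c_nonneg {ω : Bracket L} {x : Fin (N + 1) → L} (hx : Big ω x) {P : Coord L}
    {q : L} {d b n : ℕ} (h : MinR x P q d b n) :
    (n + 2) * d ≤ 2 * b ∧ (n = 1 → 3 * d < 2 * b) := by
  obtain ⟨hR, hLB, hP, hA⟩ := h
  obtain ⟨F, hF, hS, hex, hnd⟩ := ruled_nonneg (ex_ne hx) hR hLB
  rcases Nat.lt_or_ge n 2 with hn | hn
  · rcases Nat.eq_zero_or_pos n with hn0 | hn0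
    · subst hn0
      refine ⟨?_, fun h => absurd h (by norm_num)⟩
      -- swap
      obtain ⟨Q, hQx, hQy⟩ := P.swap
      obtain ⟨G, hG, -, h2⟩ := hF.tor 0 1 1 0 0 0 (Or.inr (by norm_num)) (by
        intro i e he
        constructor <;> omega) Q (by rw [hQy]; simp) (by rw [hQx]; simp)
      have hR' : RS x Q (q * (Q.x ^ (0 : ℤ) * Q.y ^ (0 : ℤ))) b d 0 := by
        refine ⟨G, hG, fun i e' he' => ?_⟩
        obtain ⟨e, he, h4, h5⟩ := h2 i e' he'
        have h7 := hS i e he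
        constructor <;> omega
      have := hLB.2 _ _ _ _ _ hR'
      omega
    · obtain rfl : n = 1 := by omega
      -- contract σ: X = 1 / y, Y = s / y
      obtain ⟨Q, hQx, hQy⟩ := P.tor 0 (-1) 1 (-1) (Or.inl (by norm_num))
      have hPx : P.x = Q.x ^ (-1 : ℤ) * Q.y ^ (1 : ℤ) := by
        have := P.x_ne
        have := P.y_ne
        rw [hQx, hQy]; simp
        field_simp
      have hPy : P.y = Q.x ^ (-1 : ℤ) * Q.y ^ (0 : ℤ) := by
        rw [hQx]; simp
      obtain ⟨G, hG, -, h2⟩ := hF.tor (-1) 1 (-1) 0 b 0 (Or.inl (by norm_num)) (by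
        intro i e he
        have := hS i e he
        constructor <;> omega) Q hPx hPy
      have hR' : P2S x Q (q * (Q.x ^ (b : ℤ) * Q.y ^ (0 : ℤ))) b := by
        refine ⟨G, hG, fun i e' he' => ?_⟩
        obtain ⟨e, he, h4, h5⟩ := h2 i e' he'
        have h7 := hS i e he
        omega
      have := hP _ _ _ hR'
      exact ⟨by omega, fun _ => by omega⟩
  · refine ⟨?_, fun h => by omega⟩
    have h1 : (n + 2) * d ≤ (n + n) * d := Nat.mul_le_mul_right d (by omega)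
    have h2 : (n + n) * d = 2 * (n * d) := by ring
    omega

end

end LCY
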