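import Pool.Agent.Helper51.LCY.P1b

/-!
Step 1 of MP_f7e214_ag, part 2: valuations and the inequality of Skoda.
-/

open Polynomial

namespace LCY

noncomputable section

variable {L : Type} [Field L] [Algebra ℂ L]

namespace DVal

variable (v : DVal L)

theorem map_one : v.v 1 = 0 := by
  have h := v.map_const 1 one_ne_zero
  rwa [RingHom.map_one] at h

theorem map_neg_one : v.v (-1) = 0 := by
  have h := v.map_const (-1) (by norm_num)
  rwa [RingHom.map_neg, RingHom.map_one] at h

theorem map_neg {a : L} (ha : a ≠ 0) : v.v (-a) = v.v a := by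
  have h := v.map_mul (-1) a (by norm_num) ha
  rw [v.map_neg_one, zero_add, neg_one_mul] at h
  exact h

theorem map_inv {a : L} (ha : a ≠ 0) : v.v a⁻¹ = - v.v a := by
  have h := v.map_mul a a⁻¹ ha (inv_ne_zero ha)
  rw [mul_inv_cancel₀ ha, v.map_one] at h
  linarith

theorem map_div {a b : L} (ha : a ≠ 0) (hb : b ≠ 0) : v.v (a / b) = v.v a - v.v b := by
  rw [div_eq_mul_inv, v.map_mul a _ ha (inv_ne_zero hb), v.map_inv hb]; ring

theorem map_pow {a : L} (ha : a ≠ 0) (n : ℕ) : v.v (a ^ n) = n * v.v a := by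
  induction n with
  | zero => rw [pow_zero, v.map_one]; simp
  | succ n ih => rw [pow_succ, v.map_mul _ _ (pow_ne_zero _ ha) ha, ih]; push_cast; ring

theorem map_zpow {a : L} (ha : a ≠ 0) (n : ℤ) : v.v (a ^ n) = n * v.v a := by
  obtain ⟨m, rfl | rfl⟩ := Int.eq_nat_or_neg n
  · rw [zpow_natCast, v.map_pow ha]
  · rw [zpow_neg, zpow_natCast, v.map_inv (pow_ne_zero _ ha), v.map_pow ha]; ring

theorem map_const_mul {c : ℂ} (hc : c ≠ 0) {a : L} (ha : a ≠ 0) :
    v.v (algebraMap ℂ L c * a) = v.v a := by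
  rw [v.map_mul _ _ (by
    intro h
    exact hc (by rwa [map_eq_zero] at h)) ha, v.map_const c hc, zero_add]

theorem int_zero : v.Int 0 := Or.inl rfl

theorem int_one : v.Int 1 := Or.inr (by rw [v.map_one])

theorem int_const (c : ℂ) : v.Int (algebraMap ℂ L c) := by
  by_cases hc : c = 0
  · left; rw [hc, map_zero]
  · right; rw [v.map_const c hc]

theorem int_mul {a b : L} (ha : v.Int a) (hb : v.Int b) : v.Int (a * b) := by
  by_cases h1 : a = 0
  · left; rw [h1, zero_mul]
  by_cases h2 : b = 0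
  · left; rw [h2, mul_zero]
  right
  rw [v.map_mul a b h1 h2]
  have := ha.resolve_left h1
  have := hb.resolve_left h2
  omega

theorem int_add {a b : L} (ha : v.Int a) (hb : v.Int b) : v.Int (a + b) := by
  by_cases h1 : a = 0
  · rw [h1, zero_add]; exact hb
  by_cases h2 : b = 0
  · rw [h2, add_zero]; exact ha
  by_cases h3 : a + b = 0
  · exact Or.inl h3
  right
  have h4 := v.map_add a b h1 h2 h3
  have h5 := ha.resolve_left h1
  have h6 := hb.resolve_left h2
  exact le_trans (le_min h5 h6) h4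

theorem int_neg {a : L} (ha : v.Int a) : v.Int (-a) := by
  by_cases h1 : a = 0
  · left; rw [h1, neg_zero]
  · right; rw [v.map_neg h1]; exact ha.resolve_left h1

theorem int_sub {a b : L} (ha : v.Int a) (hb : v.Int b) : v.Int (a - b) := by
  rw [sub_eq_add_neg]; exact v.int_add ha (v.int_neg hb)

theorem int_pow {a : L} (ha : v.Int a) (n : ℕ) : v.Int (a ^ n) := by
  induction n with
  | zero => rw [pow_zero]; exact v.int_one
  | succ n ih => rw [pow_succ]; exact v.int_mul ih ha

theorem Pos.int {v : DVal L} {a : L} (h : v.Pos a) : v.Int a := by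
  rcases h with h | h
  · exact Or.inl h
  · exact Or.inr h.le

theorem pos_mul_int {a b : L} (ha : v.Pos a) (hb : v.Int b) : v.Pos (a * b) := by
  by_cases h1 : a = 0
  · left; rw [h1, zero_mul]
  by_cases h2 : b = 0
  · left; rw [h2, mul_zero]
  right
  rw [v.map_mul a b h1 h2]
  have := ha.resolve_left h1
  have := hb.resolve_left h2
  omega

theorem pos_add {a b : L} (ha : v.Pos a) (hb : v.Pos b) : v.Pos (a + b) := by
  by_cases h1 : a = 0
  · rw [h1, zero_add]; exact hb
  by_cases h2 : b = 0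
  · rw [h2, add_zero]; exact ha
  by_cases h3 : a + b = 0
  · exact Or.inl h3
  right
  have h4 := v.map_add a b h1 h2 h3
  have h5 := ha.resolve_left h1
  have h6 := hb.resolve_left h2
  exact lt_of_lt_of_le (lt_min h5 h6) h4

theorem pos_neg {a : L} (ha : v.Pos a) : v.Pos (-a) := by
  by_cases h1 : a = 0
  · left; rw [h1, neg_zero]
  · right; rw [v.map_neg h1]; exact ha.resolve_left h1

theorem not_pos_one : ¬ v.Pos 1 := by
  intro h
  rcases h with h | h
  · exact one_ne_zero h
  · rw [v.map_one] at h; omega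

theorem int_sum {ι : Type} (s : Finset ι) (f : ι → L) (h : ∀ i ∈ s, v.Int (f i)) :
    v.Int (∑ i ∈ s, f i) := by
  classical
  induction s using Finset.induction_on with
  | empty => rw [Finset.sum_empty]; exact v.int_zero
  | insert a s ha ih =>
    rw [Finset.sum_insert ha]
    exact v.int_add (h a (Finset.mem_insert_self a s))
      (ih fun i hi => h i (Finset.mem_insert_of_mem hi))

/-- A unit plus an element of the maximal ideal is a unit. -/
theorem val_add_pos {a b : L} (ha : a ≠ 0) (h0 : v.v a = 0) (hb : v.Pos b) :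
    a + b ≠ 0 ∧ v.v (a + b) = 0 := by
  by_cases h2 : b = 0
  · rw [h2, add_zero]; exact ⟨ha, h0⟩
  have hb' := hb.resolve_left h2
  have hne : a + b ≠ 0 := by
    intro h
    have : a = -b := eq_neg_of_add_eq_zero_left h
    rw [this, v.map_neg h2] at h0
    omega
  refine ⟨hne, ?_⟩
  have h3 := v.map_add a b ha h2 hne
  have h4 : min (v.v (a + b)) (v.v (-b)) ≤ v.v a := by
    have h5 := v.map_add (a + b) (-b) hne (neg_ne_zero.2 h2) (by rw [add_neg_cancel_right]; exact ha)
    rwa [add_neg_cancel_right] at h5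
  rw [v.map_neg h2] at h4
  rw [h0] at h3 h4
  rcases min_le_iff.1 h4 with h5 | h5
  · have : min 0 (v.v b) = 0 := min_eq_left hb'.le
    omega
  · omega

theorem int_aeval {x : L} (hx : v.Int x) (p : ℂ[X]) : v.Int (aeval x p) := by
  rw [aeval_eq_sum_range]
  refine v.int_sum _ _ fun i _ => ?_
  rw [Algebra.smul_def]
  exact v.int_mul (v.int_const _) (v.int_pow hx i)

theorem int_ev {x y : L} (hx : v.Int x) (hy : v.Int y) (f : ℂ[X][X]) : v.Int (ev x y f) := by
  rw [ev_eq_sum]
  exact v.int_sum _ _ fun e _ =>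
    v.int_mul (v.int_mul (v.int_const _) (v.int_pow hx _)) (v.int_pow hy _)

/-- An integral element that is transcendental over the constants and has a polynomial of
positive value is congruent to a constant. -/
theorem exists_const {t : L} (ht : ∀ P : ℂ[X], P ≠ 0 → aeval t P ≠ 0) :
    ∀ (n : ℕ) (P : ℂ[X]), P.natDegree ≤ n → P ≠ 0 → 0 < v.v (aeval t P) →
      ∃ c : ℂ, 0 < v.v (t - algebraMap ℂ L c) := by
  intro n
  induction n with
  | zero =>
    intro P hP hne hv
    exfalso
    rw [eq_C_of_natDegree_eq_zero (Nat.le_zero.1 hP), aeval_C] at hv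
    have hc : P.coeff 0 ≠ 0 := by
      intro h
      apply hne
      rw [eq_C_of_natDegree_eq_zero (Nat.le_zero.1 hP), h, C_0]
    rw [v.map_const _ hc] at hv
    exact lt_irrefl _ hv
  | succ n ih =>
    intro P hP hne hv
    by_cases hd : P.natDegree = 0
    · exact ih P (by omega) hne hv
    obtain ⟨c, hc⟩ := IsAlgClosed.exists_root P (by
      intro h
      exact hd (natDegree_eq_of_degree_eq_some h))
    obtain ⟨Q, rfl⟩ := dvd_iff_isRoot.2 hc
    have hQ : Q ≠ 0 := right_ne_zero_of_mul hne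
    have hx : (X - C c : ℂ[X]) ≠ 0 := X_sub_C_ne_zero c
    have hdeg : ((X - C c) * Q).natDegree = 1 + Q.natDegree := by
      rw [natDegree_mul hx hQ, natDegree_X_sub_C]
    have h1 : aeval t (X - C c : ℂ[X]) = t - algebraMap ℂ L c := by
      rw [map_sub, aeval_X, aeval_C]
    by_cases hpos : 0 < v.v (t - algebraMap ℂ L c)
    · exact ⟨c, hpos⟩
    · refine ih Q (by omega) hQ ?_
      rw [_root_.map_mul, v.map_mul _ _ (ht _ hx) (ht _ hQ), h1] at hv
      omega

end DVal

/-! ### The bracket -/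

namespace Bracket

variable (ω : Bracket L)

theorem add_right (a b c : L) : ω.br a (b + c) = ω.br a b + ω.br a c := by
  rw [ω.skew, ω.add_left, ω.skew b a, ω.skew c a]; ring

theorem mul_right (a b c : L) : ω.br a (b * c) = b * ω.br a c + c * ω.br a b := by
  rw [ω.skew, ω.mul_left, ω.skew b a, ω.skew c a]; ring

theorem const_right (c : L) (z : ℂ) : ω.br c (algebraMap ℂ L z) = 0 := by
  rw [ω.skew, ω.const_left, neg_zero]

theorem zero_left (a : L) : ω.br 0 a = 0 := by
  have h := ω.const_left 0 a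
  rwa [map_zero] at h

theorem zero_right (a : L) : ω.br a 0 = 0 := by rw [ω.skew, ω.zero_left, neg_zero]

theorem one_left (a : L) : ω.br 1 a = 0 := by
  have h := ω.const_left 1 a
  rwa [map_one] at h

theorem one_right (a : L) : ω.br a 1 = 0 := by rw [ω.skew, ω.one_left, neg_zero]

theorem neg_left (a b : L) : ω.br (-a) b = - ω.br a b := by
  have h := ω.add_left (-a) a b
  rw [neg_add_cancel, ω.zero_left] at h
  linear_combination -h

theorem neg_right (a b : L) : ω.br a (-b) = - ω.br a b := by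
  rw [ω.skew, ω.neg_left, ω.skew b a, neg_neg]

theorem sub_right (a b c : L) : ω.br a (b - c) = ω.br a b - ω.br a c := by
  rw [sub_eq_add_neg, ω.add_right, ω.neg_right]; ring

theorem sub_left (a b c : L) : ω.br (a - b) c = ω.br a c - ω.br b c := by
  rw [sub_eq_add_neg, ω.add_left, ω.neg_left]; ring

theorem inv_left {a : L} (ha : a ≠ 0) (c : L) : ω.br a⁻¹ c = - (a⁻¹ * a⁻¹ * ω.br a c) := by
  have h := ω.mul_left a a⁻¹ c
  rw [mul_inv_cancel₀ ha, ω.one_left] at h
  have h2 : a * ω.br a⁻¹ c = -(a⁻¹ * ω.br a c) := by linear_combination -h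
  calc ω.br a⁻¹ c = a⁻¹ * (a * ω.br a⁻¹ c) := by rw [inv_mul_cancel_left₀ ha]
    _ = _ := by rw [h2]; ring

theorem inv_right {a : L} (ha : a ≠ 0) (c : L) : ω.br c a⁻¹ = - (a⁻¹ * a⁻¹ * ω.br c a) := by
  rw [ω.skew, ω.inv_left ha, ω.skew a c]; ring

/-- The bracket of `x` and `y / x`. -/
theorem br_div {x : L} (hx : x ≠ 0) (y : L) : ω.br x (y / x) = x⁻¹ * ω.br x y := by
  rw [div_eq_mul_inv, ω.mul_right, ω.inv_right hx, ω.alt]; ring

theorem pow_left (a b : L) (n : ℕ) : ω.br (a ^ n) b = n * a ^ (n - 1) * ω.br a b := by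
  induction n with
  | zero => rw [pow_zero, ω.one_left]; simp
  | succ n ih =>
    rw [pow_succ, ω.mul_left, ih, Nat.add_sub_cancel]
    rcases Nat.eq_zero_or_pos n with h | h
    · subst h; simp
    · obtain ⟨m, rfl⟩ : ∃ m, n = m + 1 := ⟨n - 1, by omega⟩
      rw [Nat.add_sub_cancel]; push_cast; ring

end Bracket

theorem Coord.trans_x (P : Coord L) {p : ℂ[X]} (hp : p ≠ 0) : aeval P.x p ≠ 0 := by
  rw [← ev_C P.x P.y]
  exact P.ne (by rwa [Ne, C_eq_zero])

theorem ev_mapC (x y : L) (g : ℂ[X]) : ev x y (g.map C) = aeval y g := by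
  rw [ev_apply, eval₂_map, aeval_def]
  congr 1
  refine RingHom.ext fun c => ?_
  show aeval x (C c) = _
  rw [aeval_C]

theorem Coord.trans_y (P : Coord L) {p : ℂ[X]} (hp : p ≠ 0) : aeval P.y p ≠ 0 := by
  rw [← ev_mapC P.x P.y]
  exact P.ne (by rwa [Ne, Polynomial.map_eq_zero_iff C_injective])

/-- Decomposition according to the powers of the first variable. -/
theorem split_X (f : ℂ[X][X]) :
    ∃ h : ℂ[X][X], f = (f.map (evalRingHom 0)).map C + C X * h := by
  have hd : (C (X : ℂ[X]) : ℂ[X][X]) ∣ f - (f.map (evalRingHom 0)).map C := by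
    rw [C_dvd_iff_dvd_coeff]
    intro i
    rw [coeff_sub, coeff_map, coeff_map, X_dvd_iff, coeff_sub, coeff_C_zero, coe_evalRingHom,
      coeff_zero_eq_eval_zero, sub_self]
  obtain ⟨h, hh⟩ := hd
  exact ⟨h, by rw [← hh]; ring⟩

theorem coeff_map_ev0 (f : ℂ[X][X]) (j : ℕ) : (f.map (evalRingHom 0)).coeff j = cf f (0, j) := by
  rw [coeff_map, coe_evalRingHom]; unfold cf; rw [coeff_zero_eq_eval_zero]

theorem trl_map_ev0 (c : ℂ) (f : ℂ[X][X]) :
    (trl 0 c f).map (evalRingHom 0) = (f.map (evalRingHom 0)).comp (X + C c) := by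
  unfold trl
  rw [map_comp, Polynomial.map_map]
  congr 1
  · congr 1
    refine RingHom.ext fun p => ?_
    show ((p.comp (X + C 0)).eval 0 : ℂ) = p.eval 0
    rw [C_0, add_zero, comp_X]
  · rw [Polynomial.map_add, map_X, map_C, coe_evalRingHom, eval_C]

theorem swap_pol (f : ℂ[X][X]) : ∃ f' : ℂ[X][X],
    (∀ e, cf f e ≠ 0 → cf f' (e.2, e.1) = cf f e) ∧
    (∀ e', cf f' e' ≠ 0 → cf f (e'.2, e'.1) ≠ 0) ∧
    ∀ (K : Type) [Field K] [Algebra ℂ K] (x y : K), ev y x f' = ev x y f := by
  obtain ⟨f', h1, h2, h3⟩ := toric f (fun e => (e.2, e.1)) (by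
    intro e e' _ _ h
    exact Prod.ext (congrArg Prod.snd h) (congrArg Prod.fst h))
  refine ⟨f', h1, ?_, ?_⟩
  · intro e' he'
    obtain ⟨e, he, rfl⟩ := h2 e' he'
    exact he
  · intro K _ _ x y
    rw [h3 K x y y x 1 (fun e _ => by dsimp only; ring), one_mul]

/-- Swapped coordinates. -/
theorem Coord.swap (P : Coord L) : ∃ Q : Coord L, Q.x = P.y ∧ Q.y = P.x := by
  obtain ⟨Q, h1, h2⟩ := P.tor 0 1 1 0 (Or.inr (by norm_num))
  exact ⟨Q, by rw [h1]; simp, by rw [h2]; simp⟩

/-- Inequality of Skoda: the value of a polynomial of order `m` at the origin is at most `m` times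
the value of `dx ∧ dy`, at every divisorial valuation centred at the origin. -/
theorem skoda (ω : Bracket L) (v : DVal L) (k : ℤ)
    (hB : ∀ a b, a ≠ 0 → b ≠ 0 → ω.br a b ≠ 0 → v.v a + v.v b - 1 - k ≤ v.v (ω.br a b)) :
    ∀ (n : ℕ) (P : Coord L), 0 < v.v P.x → 0 < v.v P.y → ω.br P.x P.y ≠ 0 →
      v.v (ω.br P.x P.y) + k ≤ n → ∀ (f : ℂ[X][X]) (e : ℕ × ℕ), cf f e ≠ 0 →
      v.v (ev P.x P.y f) ≤ (e.1 + e.2 : ℤ) * (v.v (ω.br P.x P.y) + k) := by
  intro n
  induction n with
  | zero =>
    intro P hx hy hbr hn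
    exfalso
    have := hB P.x P.y P.x_ne P.y_ne hbr
    push_cast at hn
    omega
  | succ n ih =>
    -- the case v x ≤ v y
    have key : ∀ (P : Coord L), 0 < v.v P.x → v.v P.x ≤ v.v P.y → ω.br P.x P.y ≠ 0 →
        v.v (ω.br P.x P.y) + k ≤ (n + 1 : ℕ) → ∀ (f : ℂ[X][X]) (e : ℕ × ℕ), cf f e ≠ 0 →
        v.v (ev P.x P.y f) ≤ (e.1 + e.2 : ℤ) * (v.v (ω.br P.x P.y) + k) := by
      intro P hx hxy hbr hn f e he
      have hκ := hB P.x P.y P.x_ne P.y_ne hbr
      -- minimal exponent
      obtain ⟨e0, he0, hmin⟩ := (bs f).exists_min_image (fun e => e.1 + e.2) ⟨e, mem_bs.2 he⟩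
      rw [mem_bs] at he0
      have hmin' : ∀ e', cf f e' ≠ 0 → e0.1 + e0.2 ≤ e'.1 + e'.2 :=
        fun e' he' => hmin e' (mem_bs.2 he')
      suffices hs : v.v (ev P.x P.y f) ≤ (e0.1 + e0.2 : ℤ) * (v.v (ω.br P.x P.y) + k) by
        refine le_trans hs (mul_le_mul_of_nonneg_right ?_ (by omega))
        have := hmin' e he
        omega
      obtain ⟨f', h1, h2, h3⟩ := toricZ f 1 0 1 1 (-((e0.1 + e0.2 : ℕ) : ℤ)) 0
        (Or.inl (by norm_num)) (by
          intro e' he'
          have := hmin' e' he'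
          constructor
          · push_cast; omega
          · omega)
      obtain ⟨Q, hQx, hQy⟩ := P.tor 1 0 (-1) 1 (Or.inl (by norm_num))
      have hQx' : Q.x = P.x := by rw [hQx]; simp
      have hQy' : Q.y = P.y / P.x := by rw [hQy]; simp [div_eq_inv_mul]
      have hxne := P.x_ne
      have hyne := P.y_ne
      have hev : ev P.x P.y f = P.x ^ (e0.1 + e0.2) * ev P.x (P.y / P.x) f' := by
        have h4 := h3 L P.x (P.y / P.x) hxne (div_ne_zero hyne hxne)
        have e1 : P.x ^ (1 : ℤ) * (P.y / P.x) ^ (0 : ℤ) = P.x := by simp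
        have e2 : P.x ^ (1 : ℤ) * (P.y / P.x) ^ (1 : ℤ) = P.y := by
          rw [zpow_one, zpow_one, mul_div_cancel₀ _ hxne]
        rw [e1, e2, zpow_zero, mul_one, zpow_neg, zpow_natCast] at h4
        rw [h4, mul_inv_cancel_left₀ (pow_ne_zero _ hxne)]
      have hf'ne : f' ≠ 0 := by
        intro h0
        obtain ⟨e', -, -, h⟩ := h1 e0 he0
        rw [h0] at h
        apply he0; rw [← h]; simp [cf]
      have hev'ne : ev P.x (P.y / P.x) f' ≠ 0 := by
        have := Q.ne hf'ne
        rwa [hQx', hQy'] at this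
      have hval : v.v (ev P.x P.y f) =
          (e0.1 + e0.2 : ℤ) * v.v P.x + v.v (ev P.x (P.y / P.x) f') := by
        rw [hev, v.map_mul _ _ (pow_ne_zero _ hxne) hev'ne, v.map_pow hxne]
        push_cast; ring
      have hIntx : v.Int P.x := Or.inr hx.le
      have hInty : v.Int (P.y / P.x) := Or.inr (by rw [v.map_div hyne hxne]; omega)
      -- the polynomial f'(0, y)
      set g : ℂ[X] := f'.map (evalRingHom 0) with hg
      have hgne : g ≠ 0 := by
        intro h0
        obtain ⟨e', h4, h5, h6⟩ := h1 e0 he0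
        have h7 : e' = (0, e0.2) := Prod.ext (by push_cast at h4; dsimp only; omega)
          (by dsimp only; omega)
        have h8 := coeff_map_ev0 f' e0.2
        rw [← hg, h0, coeff_zero, ← h7, h6] at h8
        exact he0 h8.symm
      have hgdeg : g.natDegree ≤ e0.1 + e0.2 := by
        rw [natDegree_le_iff_coeff_eq_zero]
        intro j hj
        by_contra hne
        rw [hg, coeff_map_ev0] at hne
        obtain ⟨e', h4, h5, h6⟩ := h2 (0, j) hne
        push_cast at h5 h6
        omega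
      by_cases hres : ResTr v.v (P.y / P.x)
      · obtain ⟨hh, hsp⟩ := split_X f'
        have h5 : ev P.x (P.y / P.x) f' = aeval (P.y / P.x) g +
            P.x * ev P.x (P.y / P.x) hh := by
          conv_lhs => rw [hsp]
          rw [map_add, ev_mapC, _root_.map_mul, ev_CX]
        obtain ⟨h6, h7⟩ := hres g hgne
        have h8 := v.val_add_pos h6 h7
          (v.pos_mul_int (Or.inr hx) (v.int_ev hIntx hInty hh))
        rw [← h5] at h8
        rw [hval, h8.2, add_zero]
        refine mul_le_mul_of_nonneg_left ?_ (by positivity)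
        omega
      · -- not residually transcendental
        have htr : ∀ p : ℂ[X], p ≠ 0 → aeval (P.y / P.x) p ≠ 0 := by
          intro p hp
          have := Q.trans_y hp
          rwa [hQy'] at this
        unfold ResTr at hres
        push Not at hres
        obtain ⟨p, hp, hp2⟩ := hres
        have hp3 := hp2 (htr p hp)
        have hp4 : 0 < v.v (aeval (P.y / P.x) p) := by
          have := (v.int_aeval hInty p).resolve_left (htr p hp)
          omega
        obtain ⟨c, hc⟩ := v.exists_const htr p.natDegree p le_rfl hp hp4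
        obtain ⟨R, hRx, hRy⟩ := Q.trans 0 c
        rw [map_zero, sub_zero, hQx'] at hRx
        rw [hQy'] at hRy
        have hbr' : ω.br R.x R.y = P.x⁻¹ * ω.br P.x P.y := by
          rw [hRx, hRy, ω.sub_right, ω.const_right, sub_zero, ω.br_div hxne]
        have hbrne : ω.br R.x R.y ≠ 0 := by
          rw [hbr']; exact mul_ne_zero (inv_ne_zero hxne) hbr
        have hvbr : v.v (ω.br R.x R.y) = v.v (ω.br P.x P.y) - v.v P.x := by
          rw [hbr', v.map_mul _ _ (inv_ne_zero hxne) hbr, v.map_inv hxne]; ring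
        have hκ' := hB R.x R.y R.x_ne R.y_ne hbrne
        rw [hRx, hRy] at hκ'
        have hvR : v.v (ω.br P.x (P.y / P.x - algebraMap ℂ L c)) =
            v.v (ω.br P.x P.y) - v.v P.x := by
          have h := hvbr
          rwa [hRx, hRy] at h
        have hgc : g.comp (X + C c) ≠ 0 := by
          intro h0
          rw [← taylor_apply] at h0
          exact hgne (taylor_injective _ (by rw [h0, map_zero]))
        have hdegc : (g.comp (X + C c)).natDegree = g.natDegree := by
          rw [← taylor_apply, natDegree_taylor]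
        have hcf : cf (trl 0 c f') (0, g.natDegree) ≠ 0 := by
          rw [← coeff_map_ev0, trl_map_ev0, ← hg, ← hdegc]
          exact fun h0 => hgc (leadingCoeff_eq_zero.1 h0)
        have h9 := ih R (by rw [hRx]; exact hx) (by rw [hRy]; exact hc) hbrne
          (by rw [hvbr]; push_cast at hn ⊢; omega) (trl 0 c f') (0, g.natDegree) hcf
        have h10 : ev R.x R.y (trl 0 c f') = ev P.x (P.y / P.x) f' := by
          rw [hRx, hRy, ← ev_trl P.x (P.y / P.x) 0 c f', map_zero, sub_zero]
        rw [h10, hvbr] at h9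
        rw [hval]
        have h11 : 0 ≤ v.v (ω.br P.x P.y) - v.v P.x + k := by
          omega
        have h12 : ((0 : ℕ) + (g.natDegree : ℕ) : ℤ) * (v.v (ω.br P.x P.y) - v.v P.x + k) ≤
            (e0.1 + e0.2 : ℤ) * (v.v (ω.br P.x P.y) - v.v P.x + k) :=
          mul_le_mul_of_nonneg_right (by push_cast; omega) h11
        nlinarith [h9, h12]
    intro P hx hy hbr hn f e he
    rcases le_total (v.v P.x) (v.v P.y) with hxy | hxy
    · exact key P hx hxy hbr hn f e he
    · obtain ⟨Q, hQx, hQy⟩ := P.swap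
      obtain ⟨f', h1, -, h2⟩ := swap_pol f
      have hbr' : ω.br Q.x Q.y = - ω.br P.x P.y := by rw [hQx, hQy, ω.skew]
      have hv : v.v (ω.br Q.x Q.y) = v.v (ω.br P.x P.y) := by rw [hbr', v.map_neg hbr]
      have h3 := key Q (by rw [hQx]; exact hy) (by rw [hQx, hQy]; exact hxy)
        (by rw [hbr']; exact neg_ne_zero.2 hbr) (by rw [hv]; exact hn) f' (e.2, e.1)
        (by rw [h1 e he]; exact he)
      rw [hv, hQx, hQy, h2 L P.x P.y] at h3
      dsimp only at h3
      rw [add_comm (e.1 : ℤ)]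
      exact h3

end

end LCY
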