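import Pool.Agent.Helper51.LCY.P6
import Pool.Agent.Helper73.LCY.DerE
import Pool.Agent.Helper48.LCY.Top

/-!
Glue for MP_f7e214_ag: the rules B2 for pairs of coordinates from the rules of helper73, and
admissible pairs are big.
-/

open Polynomial

namespace LCY

noncomputable section

variable {L : Type} [Field L] [Algebra ℂ L] {N : ℕ}

/-- Derivative in the second variable. -/
theorem br_ev_right (ω : Bracket L) (x y : L) (f : ℂ[X][X]) :
    ω.br x (ev x y f) = ev x y (derivative f) * ω.br x y := by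
  have hx : ∀ p : ℂ[X], ω.br x (aeval x p) = 0 := by
    intro p
    rw [ω.skew, H51br_aeval, ω.alt]; ring
  induction f using Polynomial.induction_on' with
  | add p q hp hq => rw [map_add, ω.add_right, hp, hq, derivative_add, map_add]; ring
  | monomial n a =>
    rw [derivative_monomial, ← C_mul_X_pow_eq_monomial, ← C_mul_X_pow_eq_monomial, map_mul,
      map_mul, map_pow, map_pow, ev_X, ev_C, ev_C, map_mul, map_natCast, ω.mul_right, hx,
      ω.skew x (y ^ n), ω.pow_left, ω.skew y x]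
    ring

theorem resTr_of_int (v : DVal L) (P : Coord L) (hX : v.Int P.x)
    (hnc : ¬ ∃ c : ℂ, v.Pos (P.x - algebraMap ℂ L c)) : ResTr v.v P.x := by
  intro p hp
  refine ⟨P.trans_x hp, ?_⟩
  have h1 := (v.int_aeval hX p).resolve_left (P.trans_x hp)
  by_contra h2
  exact hnc (const_of_pos v (fun s hs => P.trans_x hs) hp (Or.inr (by omega)))

theorem b2_aux (ω : Bracket L) (v : DVal L) {k : ℤ}
    (h8 : ∀ t π, ResTr v.v t → π ≠ 0 → v.v π = 1 → ω.br t π ≠ 0 ∧ v.v (ω.br t π) = - k)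
    (h0 : ∀ a b, v.Int a → v.Int b → ω.br a b = 0 ∨ - k ≤ v.v (ω.br a b))
    (P : Coord L) (hX : v.Int P.x) (hY : v.Int P.y)
    (hnc : ¬ ∃ c : ℂ, v.Pos (P.x - algebraMap ℂ L c)) : v.v (ω.br P.x P.y) + k = 0 := by
  obtain ⟨π, hπ, hπ1⟩ := v.exists_unif
  obtain ⟨f, g, hg, hfg⟩ := P.surj π
  have hf : f ≠ 0 := by
    rintro rfl
    rw [map_zero, zero_div] at hfg
    exact hπ hfg
  have hbr := P.br_ne ω
  have hval : v.v (ev P.x P.y f) - v.v (ev P.x P.y g) = 1 := by
    rw [← v.map_div (P.ne hf) (P.ne hg), ← hfg, hπ1]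
  have hg0 := (v.int_ev hX hY g).resolve_left (P.ne hg)
  have hnc2 : ¬ ((∃ c : ℂ, v.Pos (P.x - algebraMap ℂ L c)) ∧
      ∃ c : ℂ, v.Pos (P.y - algebraMap ℂ L c)) := fun h => hnc h.1
  obtain ⟨p, hp, hpp, hdvd⟩ := exists_prime_centre v P hX hY hnc2 hf (Or.inr (by omega))
  have hpne := P.ne hp.ne_zero
  have hp1 : 1 ≤ v.v (ev P.x P.y p) := by
    have := hpp.resolve_left hpne
    omega
  -- the value of every polynomial is a multiple of the value of p
  have hmul : ∀ n : ℕ, ∀ f : ℂ[X][X], f ≠ 0 → v.v (ev P.x P.y f) ≤ n →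
      v.v (ev P.x P.y p) ∣ v.v (ev P.x P.y f) := by
    intro n
    induction n with
    | zero =>
      intro f hf hn
      have h1 := (v.int_ev hX hY f).resolve_left (P.ne hf)
      have h2 : v.v (ev P.x P.y f) = 0 := by push_cast at hn; omega
      rw [h2]; exact dvd_zero _
    | succ n ih =>
      intro f hf hn
      by_cases h1 : 0 < v.v (ev P.x P.y f)
      · obtain ⟨f', rfl⟩ := hdvd f (Or.inr h1)
        have hf' : f' ≠ 0 := right_ne_zero_of_mul hf
        rw [map_mul, v.map_mul _ _ hpne (P.ne hf')] at hn ⊢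
        refine dvd_add dvd_rfl (ih f' hf' ?_)
        push_cast at hn; omega
      · have h1' := (v.int_ev hX hY f).resolve_left (P.ne hf)
        have h2 : v.v (ev P.x P.y f) = 0 := by omega
        rw [h2]; exact dvd_zero _
  have hd1 := hmul (v.v (ev P.x P.y f)).toNat f hf (by rw [Int.toNat_of_nonneg (by omega)])
  have hd2 := hmul (v.v (ev P.x P.y g)).toNat g hg (by rw [Int.toNat_of_nonneg hg0])
  have hd3 : v.v (ev P.x P.y p) ∣ 1 := by
    rw [← hval]; exact dvd_sub hd1 hd2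
  have hp2 : v.v (ev P.x P.y p) = 1 := by
    have := Int.le_of_dvd one_pos hd3
    omega
  obtain ⟨h1, h2⟩ := h8 P.x (ev P.x P.y p) (resTr_of_int v P hX hnc) hpne hp2
  rw [br_ev_right] at h1 h2
  have hder : ev P.x P.y (derivative p) ≠ 0 := left_ne_zero_of_mul h1
  rw [v.map_mul _ _ hder hbr] at h2
  have h3 := (v.int_ev hX hY (derivative p)).resolve_left hder
  have h4 := (h0 P.x P.y hX hY).resolve_left hbr
  omega

theorem wtProp_of (ω : Bracket L) (v : DVal L) {k : ℤ}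
    (h8 : ∀ t π, ResTr v.v t → π ≠ 0 → v.v π = 1 → ω.br t π ≠ 0 ∧ v.v (ω.br t π) = - k)
    (h0 : ∀ a b, v.Int a → v.Int b → ω.br a b = 0 ∨ - k ≤ v.v (ω.br a b))
    (h9 : ∀ a b, a ≠ 0 → b ≠ 0 → ω.br a b ≠ 0 → v.v a + v.v b - 1 - k ≤ v.v (ω.br a b)) :
    WtProp ω v k := by
  refine ⟨h9, ?_⟩
  intro P hX hY hnc
  by_cases hx : ∃ c : ℂ, v.Pos (P.x - algebraMap ℂ L c)
  · have hy : ¬ ∃ c : ℂ, v.Pos (P.y - algebraMap ℂ L c) := fun h => hnc ⟨hx, h⟩
    obtain ⟨Q, hQx, hQy⟩ := P.swap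
    have h1 := b2_aux ω v h8 h0 Q (by rw [hQx]; exact hY) (by rw [hQy]; exact hX)
      (by rw [hQx]; exact hy)
    rw [hQx, hQy, ω.skew, v.map_neg (P.br_ne ω)] at h1
    exact h1
  · exact b2_aux ω v h8 h0 P hX hY hx

/-- The properties of the value of the 2-form, for a finitely generated field of transcendence
degree two. -/
theorem wtProp (htr : Algebra.trdeg ℂ L = 2)
    (hfg : ∃ s : Finset L, IntermediateField.adjoin ℂ (s : Set L) = ⊤) (ω : Bracket L)
    (v : DVal L) {k : ℤ} (hk : ω.Wt v k) : WtProp ω v k := by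
  obtain ⟨h8, h0, h9, -⟩ := H73.wt_all htr hfg ω v hk
  exact wtProp_of ω v h8 h0 h9

open scoped IntermediateField.algebraAdjoinAdjoin in
/-- An admissible pair is big. -/
theorem Adm.big {ω : Bracket L} {x : Fin (N + 1) → L} (h : Adm ω x) : Big ω x := by
  obtain ⟨k, hk⟩ := h.nz
  have halg := h.alg k hk
  set s : Set L := Set.range fun j => x j / x k with hs
  have halg2 : Algebra.IsAlgebraic (Algebra.adjoin ℂ s) L :=
    (IsFractionRing.comap_isAlgebraic_iff (A := Algebra.adjoin ℂ s)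
      (K := IntermediateField.adjoin ℂ s) (C := L)).2 halg
  obtain ⟨B, hBs, hB⟩ := exists_isTranscendenceBasis_subset (R := ℂ) (A := L) s
  have hcard : Cardinal.mk B = 2 := by rw [hB.cardinalMk_eq_trdeg, h.trdeg]
  obtain ⟨a, b, hab, hBab⟩ := Cardinal.mk_eq_two_iff.1 hcard
  obtain ⟨i, hi⟩ := hBs a.2
  obtain ⟨j, hj⟩ := hBs b.2
  refine ⟨i, j, k, hk, ?_⟩
  dsimp only at hi hj
  rw [hi, hj]
  refine H73.br_ne_zero h.trdeg ω ?_
  have h1 : AlgebraicIndependent ℂ (fun c : B => (c : L)) := hB.1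
  have h2 : Function.Injective ![a, b] := by
    intro m n hmn
    fin_cases m <;> fin_cases n <;> simp_all
  have h3 := h1.comp ![a, b] h2
  have h4 : ((fun c : B => (c : L)) ∘ ![a, b]) = ![(a : L), (b : L)] := by
    funext m
    fin_cases m <;> rfl
  rwa [h4] at h3

end

end LCY
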