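import Pool.Agent.Helper51.LCY.Z6

/-!
Bezout for MP_f7e214_ag, part 7: the theorem.
-/

open Polynomial

namespace LCY

noncomputable section

variable {L : Type} [Field L] [Algebra ℂ L]

namespace H51

open H82 (Vl PtAt)

theorem finite_loc {B : Type} [CommRing B] [Algebra ℂ B] (I : Ideal B)
    [Module.Finite ℂ (B ⧸ I)] {S : Type} [CommRing S] [Algebra ℂ S] [Algebra B S]
    [IsScalarTower ℂ B S] (χ : B →ₐ[ℂ] ℂ)
    (hunit : ∀ b, χ b ≠ 0 → IsUnit (algebraMap B S b))
    (hsurj : ∀ s : S, ∃ a b : B, χ b ≠ 0 ∧ s * algebraMap B S b = algebraMap B S a) :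
    Module.Finite ℂ (S ⧸ I.map (algebraMap B S)) := by
  have : IsArtinianRing (B ⧸ I) := IsArtinianRing.of_finite ℂ (B ⧸ I)
  let f : (B ⧸ I) →ₐ[ℂ] (S ⧸ I.map (algebraMap B S)) :=
    Ideal.Quotient.liftₐ I ((Ideal.Quotient.mkₐ ℂ (I.map (algebraMap B S))).comp
      (IsScalarTower.toAlgHom ℂ B S)) (fun b hb =>
        Ideal.Quotient.eq_zero_iff_mem.2 (Ideal.mem_map_of_mem _ hb))
  have hf : ∀ b, f (Ideal.Quotient.mk I b) =
      Ideal.Quotient.mk (I.map (algebraMap B S)) (algebraMap B S b) := fun b => rfl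
  refine Module.Finite.of_surjective f.toLinearMap ?_
  intro q
  obtain ⟨s, rfl⟩ := Ideal.Quotient.mk_surjective q
  obtain ⟨a, b, hb, h⟩ := hsurj s
  obtain ⟨n, y, hy⟩ := IsArtinian.exists_pow_succ_smul_dvd (Ideal.Quotient.mk I b) (1 : B ⧸ I)
  obtain ⟨c, rfl⟩ := Ideal.Quotient.mk_surjective y
  refine ⟨Ideal.Quotient.mk I (a * c), ?_⟩
  show f (Ideal.Quotient.mk I (a * c)) = _
  rw [hf]
  have h1 := congrArg f hy
  rw [smul_eq_mul, smul_eq_mul, mul_one, map_mul, map_pow, map_pow, hf, hf] at h1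
  have hu : IsUnit (Ideal.Quotient.mk (I.map (algebraMap B S)) (algebraMap B S b)) :=
    (hunit b hb).map _
  have h2 : Ideal.Quotient.mk (I.map (algebraMap B S)) (algebraMap B S b) *
      Ideal.Quotient.mk (I.map (algebraMap B S)) (algebraMap B S c) = 1 := by
    apply (hu.pow n).mul_left_cancel
    rw [mul_one, ← mul_assoc, ← pow_succ]
    exact h1
  have h3 : Ideal.Quotient.mk (I.map (algebraMap B S)) s *
      Ideal.Quotient.mk (I.map (algebraMap B S)) (algebraMap B S b) =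
      Ideal.Quotient.mk (I.map (algebraMap B S)) (algebraMap B S a) := by
    rw [← map_mul, h]
  rw [map_mul, map_mul, ← h3, mul_assoc, h2, mul_one]

theorem tower (S : Coord L) (p : ℂ × ℂ) :
    @IsScalarTower ℂ ℂ[X][X] (aff S p).loc _ (rho S p).toAlgebra.toSMul _ := by
  letI : Algebra ℂ[X][X] (aff S p).loc := (rho S p).toAlgebra
  refine IsScalarTower.of_algebraMap_eq fun c => Subtype.ext ?_
  show algebraMap ℂ L c = ev S.x S.y (C (C c))
  rw [ev_CC]

theorem map_span (S : Coord L) (p : ℂ × ℂ) (F G : ℂ[X][X]) :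
    (Ideal.span {F, G}).map (rho S p) = Ideal.span {rho S p F} ⊔ Ideal.span {rho S p G} := by
  rw [Ideal.map_span, Set.image_pair, Ideal.span_insert]

theorem inter_aff {S : Coord L} {v w : DVal L} {F G : ℂ[X][X]} (hF : IsAdic S F v)
    (hG : IsAdic S G w) {p : ℂ × ℂ} (hpF : evp p F = 0) (hpG : evp p G = 0)
    (hfin : Module.Finite ℂ (ℂ[X][X] ⧸ Ideal.span {F, G})) :
    inter (aff S p).loc v w =
      Module.finrank ℂ ((aff S p).loc ⧸ (Ideal.span {F, G}).map (rho S p)) ∧
      1 ≤ inter (aff S p).loc v w := by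
  have e : pid (aff S p).loc v ⊔ pid (aff S p).loc w = (Ideal.span {F, G}).map (rho S p) := by
    rw [pid_aff hF hpF, pid_aff hG hpG, map_span]
  have hpos : 1 ≤ Module.finrank ℂ ((aff S p).loc ⧸ (Ideal.span {F, G}).map (rho S p)) := by
    have h1 : Module.Finite ℂ ((aff S p).loc ⧸ (Ideal.span {F, G}).map (rho S p)) := by
      letI : Algebra ℂ[X][X] (aff S p).loc := (rho S p).toAlgebra
      haveI : IsScalarTower ℂ ℂ[X][X] (aff S p).loc := tower S p
      exact finite_loc (Ideal.span {F, G}) (evp p) (fun b hb => rho_unit S p hb)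
        (fun s => exists_frac S p s)
    have h2 : Nontrivial ((aff S p).loc ⧸ (Ideal.span {F, G}).map (rho S p)) := by
      rw [Ideal.Quotient.nontrivial_iff, Ne, Ideal.eq_top_iff_one]
      intro h3
      have h4 : ∀ z ∈ (Ideal.span {F, G}).map (rho S p), Vl (aff S p).loc (z : L) 0 := by
        intro z hz
        rw [map_span, ← Ideal.span_insert] at hz
        obtain ⟨s, t, rfl⟩ := Ideal.mem_span_pair.1 hz
        obtain ⟨cs, hs⟩ := H82.exists_vl s.2
        obtain ⟨ct, ht⟩ := H82.exists_vl t.2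
        have h5 := vl_aff S p F
        have h6 := vl_aff S p G
        rw [hpF] at h5
        rw [hpG] at h6
        have h7 := H82.vl_add (H82.vl_mul hs h5) (H82.vl_mul ht h6)
        rw [mul_zero, mul_zero, add_zero] at h7
        exact h7
      have h5 := h4 1 h3
      have h6 : Vl (aff S p).loc ((1 : (aff S p).loc) : L) 1 := H82.vl_one
      exact zero_ne_one (H82.vl_unique h5 h6)
    exact Module.finrank_pos
  have h1 : inter (aff S p).loc v w =
      Module.finrank ℂ ((aff S p).loc ⧸ (Ideal.span {F, G}).map (rho S p)) := by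
    unfold inter
    rw [if_pos ⟨(through_aff hF p).2 hpF, (through_aff hG p).2 hpG⟩, e, max_eq_right hpos]
  exact ⟨h1, h1 ▸ hpos⟩

theorem evp_inj : Function.Injective evp := by
  intro p q h
  refine Prod.ext ?_ ?_
  · have h1 := DFunLike.congr_fun h (C X)
    rw [evp_apply, evp_apply, eval_C, eval_C, eval_X, eval_X] at h1
    exact h1
  · have h1 := DFunLike.congr_fun h X
    rw [evp_apply, evp_apply, eval_X, eval_X, eval_C, eval_C] at h1
    exact h1

theorem exists_evp (χ : ℂ[X][X] →ₐ[ℂ] ℂ) : ∃ p, χ = evp p := by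
  refine ⟨(χ (C X), χ X), ?_⟩
  apply AlgHom.coe_ringHom_injective
  refine hom_ext2 ?_ ?_ ?_
  · intro c
    have h1 := χ.commutes c
    have h2 := (evp (χ (C X), χ X)).commutes c
    exact h1.trans h2.symm
  · show χ (C X) = evp (χ (C X), χ X) (C X)
    rw [evp_apply, eval_C, eval_X]
  · show χ X = evp (χ (C X), χ X) X
    rw [evp_apply, eval_X, eval_C]

theorem aff_inj (S : Coord L) {p q : ℂ × ℂ} (h : (aff S p).loc = (aff S q).loc) : p = q := by
  have h1 := vl_aff_x S p
  have h2 := vl_aff_y S p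
  rw [h] at h1 h2
  exact Prod.ext (H82.vl_unique h1 (vl_aff_x S q)) (H82.vl_unique h2 (vl_aff_y S q))

theorem pts_finite {F G : ℂ[X][X]} (hF : Prime F) (hFG : ¬ F ∣ G) :
    {p : ℂ × ℂ | evp p F = 0 ∧ evp p G = 0}.Finite := by
  obtain ⟨r1, A, B, hr1, h1⟩ := elim_y hF hFG
  obtain ⟨r2, A', B', hr2, h2⟩ := elim_x hF hFG
  refine ((r1.roots.toFinset ×ˢ r2.roots.toFinset).finite_toSet).subset ?_
  rintro p ⟨hp1, hp2⟩
  rw [Finset.mem_coe, Finset.mem_product, Multiset.mem_toFinset, Multiset.mem_toFinset,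
    mem_roots hr1, mem_roots hr2]
  constructor
  · have h3 := congrArg (evp p) h1
    rw [map_add, map_mul, map_mul, hp1, hp2, mul_zero, mul_zero, add_zero, evp_apply,
      eval_C] at h3
    exact h3
  · have h3 := congrArg (evp p) h2
    rw [map_add, map_mul, map_mul, hp1, hp2, mul_zero, mul_zero, add_zero, evp_apply,
      evp_map, Polynomial.map_map] at h3
    have h4 : (evalRingHom p.1).comp (C : ℂ →+* ℂ[X]) = RingHom.id ℂ := by
      refine RingHom.ext fun c => ?_
      rw [RingHom.comp_apply, coe_evalRingHom, eval_C]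
      rfl
    rw [h4, Polynomial.map_id] at h3
    exact h3

/-- Bezout's theorem in good position. -/
theorem Norm.sum {S : Coord L} {v w : DVal L} {F G : ℂ[X][X]} {d d' : ℕ} {φ γ : ℂ[X]}
    (h : Norm S v w F G d d' φ γ) (hvw : ¬ v.Same w) :
    {R | R ∈ plane S ∧ inter R v w ≠ 0}.Finite ∧
      (d : ℤ) * d' = ∑ᶠ R ∈ plane S, (inter R v w : ℤ) := by
  classical
  have hB := h.bpair hvw
  have hfin : Module.Finite ℂ (ℂ[X][X] ⧸ Ideal.span {F, G}) := hB.finite_quot
  have hFG : ¬ F ∣ G := by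
    intro hd
    exact hvw (H81.IsAdic.same h.adF
      (H81.IsAdic.of_associated h.adG (h.adF.1.associated_of_dvd h.adG.1 hd).symm))
  have hZ := pts_finite h.adF.1.prime hFG
  set Z : Set (ℂ × ℂ) := {p | evp p F = 0 ∧ evp p G = 0} with hZdef
  have hft : Fintype Z := hZ.fintype
  have hplane : ∀ p : ℂ × ℂ, (aff S p).loc ∈ plane S := fun p =>
    H82.plane_aff ⟨aff S p, aff_x S p, aff_y S p, rfl⟩
  have hset : ∀ R, (R ∈ plane S ∧ inter R v w ≠ 0) ↔ ∃ p ∈ Z, (aff S p).loc = R := by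
    intro R
    constructor
    · rintro ⟨h1, h2⟩
      have h3 : Through R v ∧ Through R w := by
        by_contra hcon
        apply h2
        unfold inter
        rw [if_neg hcon]
      obtain ⟨p, h4, h5, h6⟩ := h.inf h1 h3.1 h3.2
      exact ⟨p, ⟨h5, h6⟩, h4.symm⟩
    · rintro ⟨p, hp, rfl⟩
      refine ⟨hplane p, ?_⟩
      have := (inter_aff h.adF h.adG hp.1 hp.2 hfin).2
      omega
  refine ⟨?_, ?_⟩
  · refine (hZ.image fun p => (aff S p).loc).subset ?_
    intro R hR
    obtain ⟨p, hp, h1⟩ := (hset R).1 hR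
    exact ⟨p, hp, h1⟩
  · letI : ∀ i : Z, Algebra ℂ[X][X] (aff S i.1).loc := fun i => (rho S i.1).toAlgebra
    haveI : ∀ i : Z, IsScalarTower ℂ ℂ[X][X] (aff S i.1).loc := fun i => tower S i.1
    have h1 := H73.locsum (B := ℂ[X][X]) (Ideal.span {F, G}) (ι := Z)
      (S := fun i => (aff S i.1).loc) (fun i => evp i.1)
      (fun i j hij => Subtype.ext (evp_inj hij))
      (fun i b hb => by
        obtain ⟨s, t, rfl⟩ := Ideal.mem_span_pair.1 hb
        rw [map_add, map_mul, map_mul, i.2.1, i.2.2, mul_zero, mul_zero, add_zero])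
      (fun χ hχ => by
        obtain ⟨p, rfl⟩ := exists_evp χ
        refine ⟨⟨p, hχ F (Ideal.subset_span (Set.mem_insert _ _)),
          hχ G (Ideal.subset_span (Set.mem_insert_of_mem _ rfl))⟩, rfl⟩)
      (fun i b hb => rho_unit S i.1 hb)
      (fun i s => exists_frac S i.1 s)
      (fun i a ha => by
        refine ⟨1, by rw [map_one]; exact one_ne_zero, ?_⟩
        have h2 : ev S.x S.y a = 0 := congrArg Subtype.val ha
        rw [one_mul]
        exact S.inj a h2)
    rw [hB.finrank_quot] at h1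
    have h2 : ∀ i : Z, Module.finrank ℂ ((aff S i.1).loc ⧸
        (Ideal.span {F, G}).map (algebraMap ℂ[X][X] (aff S i.1).loc)) =
        inter (aff S i.1).loc v w := fun i =>
      ((inter_aff h.adF h.adG i.2.1 i.2.2 hfin).1).symm
    rw [Finset.sum_congr rfl fun i _ => h2 i] at h1
    have h3 : ∑ᶠ R ∈ plane S, (inter R v w : ℤ) =
        ∑ R ∈ (Finset.univ : Finset Z).image (fun i => (aff S i.1).loc), (inter R v w : ℤ) := by
      apply finsum_mem_eq_sum_of_inter_support_eq
      ext R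
      rw [Set.mem_inter_iff, Set.mem_inter_iff, Function.mem_support, Finset.mem_coe,
        Finset.mem_image]
      constructor
      · rintro ⟨h4, h5⟩
        obtain ⟨p, hp, h6⟩ := (hset R).1 ⟨h4, by exact_mod_cast h5⟩
        exact ⟨⟨⟨p, hp⟩, Finset.mem_univ _, h6⟩, h5⟩
      · rintro ⟨⟨i, -, h4⟩, h5⟩
        exact ⟨h4 ▸ hplane i.1, h5⟩
    rw [h3, Finset.sum_image (fun i _ j _ hij => Subtype.ext (aff_inj S hij)), ← Nat.cast_sum,
      ← h1, Nat.cast_mul]

/-- **Bezout's theorem.** -/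
theorem st_BEZ (h17 : ST_A17) : ST_BEZ := by
  intro L _ _ S v w hv hw hvw
  obtain ⟨S', F, G, d, d', φ, γ, h, hp, hd⟩ := exists_norm h17 hv hw hvw
  obtain ⟨h1, h2⟩ := h.sum hvw
  rw [hp] at h1 h2
  refine ⟨h1, ?_⟩
  rw [← h2, ← hd v, ← hd w, (H81.st_A8 L S' v _ h.adF).1, (H81.st_A8 L S' w _ h.adG).1, h.tF,
    h.tG]

end H51

end

end LCY
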