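import Pool.Agent.Helper51.LCY.P5b
import Pool.Agent.Helper62.LCY.N2
import Pool.Agent.Helper2.LCY.E1

/-!
Step 1 of MP_f7e214_ag, part 6: on a minimal plane structure the 2-form has no zeros along the
curves of the plane; its poles form a reduced plane cubic.
-/

open Polynomial

namespace LCY

noncomputable section

variable {L : Type} [Field L] [Algebra ℂ L] {N : ℕ}

theorem XMin.le {x : Fin (N + 1) → L} {v : DVal L} {i : Fin (N + 1)} (h : XMin x v i) :
    ∀ j, x j ≠ 0 → v.v (x i) ≤ v.v (x j) := by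
  intro j hj
  have h1 := (h.2 j).resolve_left (div_ne_zero hj h.1)
  rw [v.map_div hj h.1] at h1
  omega

/-- The value of the 2-form is at most `0` at every valuation where THETA is an equality. -/
theorem wt_le_of_theta_eq (ω : Bracket L) (x : Fin (N + 1) → L) (hx : ∃ i, x i ≠ 0)
    (H2 : ∀ v k, ω.Wt v k → ¬ Contracted x v → k ≤ 0)
    (hW : ∀ v, ∃ k, ω.Wt v k) (hNR : NR x) (P : Coord L) (q : L) (hq : q ≠ 0) (c a : ℕ)
    (ha : 0 < a)
    (hθ : ∀ v k i, ω.Wt v k → XMin x v i →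
      (c : ℤ) * (v.v q + v.v (x i)) ≤ a * (v.v (ω.br P.x P.y) + k))
    (v : DVal L) (k : ℤ) (hk : ω.Wt v k)
    (hθ0 : ∀ i, XMin x v i → (c : ℤ) * (v.v q + v.v (x i)) = a * (v.v (ω.br P.x P.y) + k)) :
    k ≤ 0 := by
  by_cases hc : Contracted x v
  swap
  · exact H2 v k hk hc
  have hbr := P.br_ne ω
  obtain ⟨i, hi⟩ := exists_xmin hx v
  have hqi : q * x i ≠ 0 := mul_ne_zero hq hi.1
  have hval : ∀ w : DVal L, w.v (ω.br P.x P.y ^ a / (q * x i) ^ c) =
      a * w.v (ω.br P.x P.y) - c * (w.v q + w.v (x i)) := by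
    intro w
    rw [w.map_div (pow_ne_zero _ hbr) (pow_ne_zero _ hqi), w.map_pow hbr, w.map_pow hqi,
      w.map_mul _ _ hq hi.1]
  have hint : ∀ w : DVal L, ¬ Contracted x w → XMin x w i →
      w.Int (ω.br P.x P.y ^ a / (q * x i) ^ c) := by
    intro w hw hwi
    right
    obtain ⟨k', hk'⟩ := hW w
    have h1 := hθ w k' i hk' hwi
    have h2 := H2 w k' hk' hw
    rw [hval]
    have h4 : (a : ℤ) * k' ≤ 0 := mul_nonpos_of_nonneg_of_nonpos (Int.natCast_nonneg _) h2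
    linarith
  have h1 := (hNR i _ hint v hi).1.resolve_left
    (div_ne_zero (pow_ne_zero _ hbr) (pow_ne_zero _ hqi))
  rw [hval, hθ0 i hi] at h1
  by_contra hcon
  push Not at hcon
  have h2 : 0 < (a : ℤ) * k := mul_pos (by exact_mod_cast ha) hcon
  linarith

/-- On a minimal plane structure the 2-form has no zeros along the curves of the plane. -/
theorem MinP2.wt_le (ω : Bracket L) (x : Fin (N + 1) → L) (hx : Big ω x)
    (H2 : ∀ v k, ω.Wt v k → ¬ Contracted x v → k ≤ 0)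
    (hW : ∀ v, ∃ k, ω.Wt v k) (hWP : ∀ v k, ω.Wt v k → WtProp ω v k) (hNR : NR x)
    {P : Coord L} {q : L} {a : ℕ} (h : MinP2 x P q a) {v : DVal L} (hv : CurveP2 P v) {k : ℤ}
    (hk : ω.Wt v k) : k ≤ 0 := by
  obtain ⟨F, hF, -⟩ := h.1
  refine wt_le_of_theta_eq ω x (ex_ne hx) H2 hW hNR P q hF.1 3 a (h.1.pos hx) ?_ v k hk ?_
  · intro v k i hk hi
    exact h.theta hx (hWP v k hk) hi.1 hi.le
  · intro i hi
    exact h.theta_eq hx (hWP v k hk) hv hi.1 hi.le

/-! ### Prime polynomials give curves of the affine plane -/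

theorem not_both_const (P : Coord L) {p : ℂ[X][X]} (hp : Prime p) :
    ¬ ((∃ c : ℂ, (P.pval p hp).Pos (P.x - algebraMap ℂ L c)) ∧
      ∃ c : ℂ, (P.pval p hp).Pos (P.y - algebraMap ℂ L c)) := by
  rintro ⟨⟨s, hs⟩, ⟨t, ht⟩⟩
  have e1 : ev P.x P.y (C X - C (C s)) = P.x - algebraMap ℂ L s := by
    rw [map_sub, ev_CX, ev_CC]
  have e2 : ev P.x P.y (X - C (C t)) = P.y - algebraMap ℂ L t := by
    rw [map_sub, ev_X, ev_CC]
  have n1 : (C X - C (C s) : ℂ[X][X]) ≠ 0 := by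
    rw [← C_sub, Ne, C_eq_zero]; exact X_sub_C_ne_zero s
  have n2 : (X - C (C t) : ℂ[X][X]) ≠ 0 := X_sub_C_ne_zero _
  have d1 : p ∣ C X - C (C s) := by
    by_contra hd
    have h1 := hs.resolve_left (by rw [← e1]; exact P.ne n1)
    rw [← e1, P.pval_ev hp n1, multiplicity_eq_zero.2 hd] at h1
    exact lt_irrefl _ h1
  have d2 : p ∣ X - C (C t) := by
    by_contra hd
    have h1 := ht.resolve_left (by rw [← e2]; exact P.ne n2)
    rw [← e2, P.pval_ev hp n2, multiplicity_eq_zero.2 hd] at h1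
    exact lt_irrefl _ h1
  -- p divides a polynomial of degree 0 in Y, hence has degree 0 in Y
  obtain ⟨g1, hg1⟩ := d1
  obtain ⟨g2, hg2⟩ := d2
  have hg1ne : g1 ≠ 0 := by
    rintro rfl
    rw [mul_zero] at hg1
    exact n1 hg1
  have hg2ne : g2 ≠ 0 := by
    rintro rfl
    rw [mul_zero] at hg2
    exact n2 hg2
  have hdeg : p.natDegree = 0 := by
    have h1 : (C X - C (C s) : ℂ[X][X]).natDegree = 0 := by rw [← C_sub, natDegree_C]
    rw [hg1, natDegree_mul hp.ne_zero hg1ne] at h1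
    omega
  have hp0 : p = C (p.coeff 0) := eq_C_of_natDegree_eq_zero hdeg
  have hmon : (X - C (C t) : ℂ[X][X]).coeff 1 = 1 := by
    rw [coeff_sub, coeff_X_one, coeff_C, if_neg one_ne_zero, sub_zero]
  rw [hg2, hp0, coeff_C_mul] at hmon
  apply hp.not_isUnit
  rw [hp0]
  exact isUnit_C.2 (IsUnit.of_mul_eq_one _ hmon)

theorem pval_int (P : Coord L) {p : ℂ[X][X]} (hp : Prime p) (f : ℂ[X][X]) :
    (P.pval p hp).Int (ev P.x P.y f) := by
  by_cases hf : f = 0
  · left; rw [hf, map_zero]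
  · right; rw [P.pval_ev hp hf]; exact Int.natCast_nonneg _

theorem curveP2_pval (P : Coord L) {p : ℂ[X][X]} (hp : Prime p) :
    CurveP2 P (P.pval p hp) := by
  refine ⟨P, Or.inl ⟨rfl, rfl⟩, ?_, ?_, not_both_const P hp⟩
  · have := pval_int P hp (C X)
    rwa [ev_CX] at this
  · have := pval_int P hp X
    rwa [ev_X] at this

theorem curveP2_inf (P : Coord L) : CurveP2 P P.inf := by
  refine ⟨P.cinf, Or.inr (Or.inl ⟨P.cinf_x, P.cinf_y⟩), ?_, ?_,
    not_both_const P.cinf H62.prime_CX⟩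
  · have := pval_int P.cinf H62.prime_CX (C X)
    rwa [ev_CX] at this
  · have := pval_int P.cinf H62.prime_CX X
    rwa [ev_X] at this

/-- The value of `dx ∧ dy` at a curve of the affine plane. -/
theorem wt_pval {ω : Bracket L} (P : Coord L) {p : ℂ[X][X]} (hp : Prime p) {k : ℤ}
    (hk : WtProp ω (P.pval p hp) k) : (P.pval p hp).v (ω.br P.x P.y) = -k := by
  have h1 := pval_int P hp (C X)
  have h2 := pval_int P hp X
  rw [ev_CX] at h1
  rw [ev_X] at h2
  have := hk.b2 P h1 h2 (not_both_const P hp)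
  linarith

/-- The value of the inverse of `x` at the line at infinity. -/
theorem inf_x (P : Coord L) : P.inf.v P.x = -1 := by
  have h1 : P.inf.v (ev P.cinf.x P.cinf.y (C X)) = 1 := by
    unfold Coord.inf
    rw [Coord.pval_ev _ _ H62.CX_ne, multiplicity_self]
    rfl
  rw [ev_CX, P.cinf_x, DVal.map_inv _ P.x_ne] at h1
  linarith

/-- The value of `dx ∧ dy` at the line at infinity is `-3`. -/
theorem wt_inf {ω : Bracket L} (P : Coord L) {k : ℤ}
    (hk : WtProp ω P.inf k) : P.inf.v (ω.br P.x P.y) = -3 - k := by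
  have h1 := wt_pval P.cinf H62.prime_CX (k := k) hk
  have h2 : P.inf.v (ω.br P.cinf.x P.cinf.y) = -k := h1
  rw [P.cinf_x, P.cinf_y, v_br_chart ω _ P.x_ne (P.br_ne ω), inf_x] at h2
  linarith

/-- If the 2-form has no zeros along the curves of the affine plane, then the bracket of the
coordinates is a polynomial; if moreover all values are at least `-1` it is squarefree. -/
theorem br_pol {ω : Bracket L} (P : Coord L)
    (hW : ∀ v, ∃ k, ω.Wt v k) (hWP : ∀ v k, ω.Wt v k → WtProp ω v k)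
    (H1 : ∀ v k, ω.Wt v k → -1 ≤ k)
    (hle : ∀ v, CurveP2 P v → ∀ k, ω.Wt v k → k ≤ 0) :
    ∃ f : ℂ[X][X], ev P.x P.y f = ω.br P.x P.y ∧ f ≠ 0 ∧ ∀ p, Prime p → ¬ p ^ 2 ∣ f := by
  have hbr := P.br_ne ω
  obtain ⟨A, B, hB, hAB⟩ := P.surj (ω.br P.x P.y)
  have hval : ∀ p (hp : Prime p), (0 : ℤ) ≤ (P.pval p hp).v (ω.br P.x P.y) ∧
      (P.pval p hp).v (ω.br P.x P.y) ≤ 1 := by
    intro p hp
    obtain ⟨k, hk⟩ := hW (P.pval p hp)
    have h1 := wt_pval P hp (hWP _ k hk)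
    have h2 := H1 _ k hk
    have h3 := hle _ (curveP2_pval P hp) k hk
    omega
  -- remove common factors
  have key : ∀ B : ℂ[X][X], B ≠ 0 → ∀ A : ℂ[X][X],
      ω.br P.x P.y = ev P.x P.y A / ev P.x P.y B →
      ∃ f : ℂ[X][X], ev P.x P.y f = ω.br P.x P.y := by
    intro B
    induction B using UniqueFactorizationMonoid.induction_on_prime with
    | h₁ => intro h; exact absurd rfl h
    | h₂ u hu =>
      intro _ A hA
      obtain ⟨w, hw⟩ := hu.exists_right_inv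
      refine ⟨A * w, ?_⟩
      have h1 : ev P.x P.y u * ev P.x P.y w = 1 := by rw [← map_mul, hw, map_one]
      have h2 : ev P.x P.y u ≠ 0 := left_ne_zero_of_mul_eq_one h1
      rw [hA, map_mul, eq_div_iff h2, mul_assoc, mul_comm (ev P.x P.y w), h1, mul_one]
    | h₃ B p hBne hp ih =>
      intro _ A hA
      have hAne : A ≠ 0 := by
        rintro rfl
        rw [map_zero, zero_div] at hA
        exact hbr hA
      have hd : p ∣ A := by
        by_contra hd
        have h1 := (hval p hp).1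
        rw [hA, DVal.map_div _ (P.ne hAne) (P.ne (mul_ne_zero hp.ne_zero hBne)),
          P.pval_ev hp hAne, P.pval_ev hp (mul_ne_zero hp.ne_zero hBne),
          multiplicity_eq_zero.2 hd, H62.mult_mul hp hp.ne_zero hBne, multiplicity_self] at h1
        push_cast at h1
        omega
      obtain ⟨A', rfl⟩ := hd
      refine ih hBne A' ?_
      rw [hA, map_mul, map_mul, mul_div_mul_left _ _ (P.ne hp.ne_zero)]
  obtain ⟨f, hf⟩ := key B hB A hAB
  have hfne : f ≠ 0 := by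
    rintro rfl
    rw [map_zero] at hf
    exact hbr hf.symm
  refine ⟨f, hf, hfne, ?_⟩
  intro p hp hd
  have h1 := (hval p hp).2
  rw [← hf, P.pval_ev hp hfne] at h1
  have h2 := (H62.le_mult hp hfne).1 hd
  omega

/-- The value of a polynomial at the line at infinity is minus its total degree: bounds. -/
theorem inf_ev (P : Coord L) {f : ℂ[X][X]} (hf : f ≠ 0) {D : ℕ}
    (hD : P.inf.v (ev P.x P.y f) = -(D : ℤ)) :
    (∀ e, cf f e ≠ 0 → e.1 + e.2 ≤ D) ∧ ∃ e, cf f e ≠ 0 ∧ e.1 + e.2 = D := by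
  obtain ⟨e0, he0, hmax⟩ := (bs f).exists_max_image (fun e => e.1 + e.2)
    (by
      obtain ⟨e, he⟩ := exists_cf_ne hf
      exact ⟨e, mem_bs.2 he⟩)
  rw [mem_bs] at he0
  have hmax' : ∀ e, cf f e ≠ 0 → e.1 + e.2 ≤ e0.1 + e0.2 := fun e he => hmax e (mem_bs.2 he)
  set M := e0.1 + e0.2 with hM
  obtain ⟨g, h1, h2, h3⟩ := toricZ f (-1) 0 (-1) 1 M 0 (Or.inr (by norm_num)) (by
    intro e he
    have := hmax' e he
    constructor <;> omega)
  have hx : P.x = P.cinf.x ^ (-1 : ℤ) * P.cinf.y ^ (0 : ℤ) := by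
    rw [P.cinf_x]; simp
  have hy : P.y = P.cinf.x ^ (-1 : ℤ) * P.cinf.y ^ (1 : ℤ) := by
    have := P.x_ne
    rw [P.cinf_x, P.cinf_y]; simp
    field_simp
  have h4 := h3 L P.cinf.x P.cinf.y P.cinf.x_ne P.cinf.y_ne
  rw [← hx, ← hy, zpow_zero, mul_one, zpow_natCast] at h4
  have hnd : ¬ (C X : ℂ[X][X]) ∣ g := by
    intro hd
    rw [C_dvd_iff_dvd_coeff] at hd
    obtain ⟨e', g1, g2, g3⟩ := h1 e0 he0
    have g4 : e' = (0, e0.2) := Prod.ext (by dsimp only; omega) (by dsimp only; omega)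
    have g5 := X_dvd_iff.1 (hd e0.2)
    rw [g4] at g3
    exact he0 (by rw [← g3]; exact g5)
  have hgne : g ≠ 0 := by
    rintro rfl
    exact hnd (dvd_zero _)
  have h5 : P.inf.v (ev P.cinf.x P.cinf.y g) = 0 := by
    unfold Coord.inf
    rw [Coord.pval_ev _ _ hgne, multiplicity_eq_zero.2 hnd]
    rfl
  have h6 : P.inf.v P.cinf.x = 1 := by
    rw [P.cinf_x, DVal.map_inv _ P.x_ne, inf_x]; ring
  rw [h4, DVal.map_mul _ _ _ (pow_ne_zero _ P.cinf.x_ne) (P.ne hf),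
    DVal.map_pow _ P.cinf.x_ne, h6, hD] at h5
  have h7 : M = D := by omega
  rw [← h7]
  exact ⟨hmax', e0, he0, rfl⟩

/-- The divisor of the poles of the 2-form on a minimal plane structure: a reduced cubic. -/
theorem MinP2.cubic (ω : Bracket L) (x : Fin (N + 1) → L) (hx : Big ω x)
    (H1 : ∀ v k, ω.Wt v k → -1 ≤ k)
    (H2 : ∀ v k, ω.Wt v k → ¬ Contracted x v → k ≤ 0)
    (hW : ∀ v, ∃ k, ω.Wt v k) (hWP : ∀ v k, ω.Wt v k → WtProp ω v k) (hNR : NR x)
    {P : Coord L} {q : L} {a : ℕ} (h : MinP2 x P q a) :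
    ∃ f : ℂ[X][X], ev P.x P.y f = ω.br P.x P.y ∧ f ≠ 0 ∧ (∀ p, Prime p → ¬ p ^ 2 ∣ f) ∧
      (∀ e, cf f e ≠ 0 → e.1 + e.2 ≤ 3) ∧ ∃ e, cf f e ≠ 0 ∧ 2 ≤ e.1 + e.2 := by
  have hle : ∀ v, CurveP2 P v → ∀ k, ω.Wt v k → k ≤ 0 := fun v hv k hk =>
    h.wt_le ω x hx H2 hW hWP hNR hv hk
  obtain ⟨f, h1, h2, h3⟩ := br_pol P hW hWP H1 hle
  obtain ⟨k, hk⟩ := hW P.inf
  have h4 := wt_inf P (hWP _ k hk)
  have h5 := H1 _ k hk
  have h6 := hle _ (curveP2_inf P) k hk
  have h7 : P.inf.v (ev P.x P.y f) = -((3 + k).toNat : ℤ) := by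
    rw [h1, h4]; omega
  obtain ⟨h8, e, he, hed⟩ := inf_ev P h2 h7
  refine ⟨f, h1, h2, h3, fun e he => ?_, e, he, ?_⟩
  · have := h8 e he
    omega
  · omega

end

end LCY
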