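import Pool.Agent.Helper51.LCY.P3

/-!
Step 1 of MP_f7e214_ag, part 5: the inequalities THETA for plane and ruled structures.
-/

open Polynomial

namespace LCY

noncomputable section

variable {L : Type} [Field L] [Algebra ℂ L] {N : ℕ}

/-! ### The bracket of a pair of coordinates -/

theorem br_zero_of (ω : Bracket L) (P : Coord L) {z : L} (hx : ω.br P.x z = 0)
    (hy : ω.br P.y z = 0) (w : L) : ω.br w z = 0 := by
  have hpow : ∀ (a : L), ω.br a z = 0 → ∀ n : ℕ, ω.br (a ^ n) z = 0 := by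
    intro a ha n
    rw [ω.pow_left, ha, mul_zero]
  have hsum : ∀ (s : Finset (ℕ × ℕ)) (f : ℕ × ℕ → L), (∀ e ∈ s, ω.br (f e) z = 0) →
      ω.br (∑ e ∈ s, f e) z = 0 := by
    intro s f
    induction s using Finset.induction_on with
    | empty => intro _; rw [Finset.sum_empty, ω.zero_left]
    | insert a s ha ih =>
      intro h
      rw [Finset.sum_insert ha, ω.add_left, h a (Finset.mem_insert_self a s),
        ih fun e he => h e (Finset.mem_insert_of_mem he), add_zero]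
  have hev : ∀ f : ℂ[X][X], ω.br (ev P.x P.y f) z = 0 := by
    intro f
    rw [ev_eq_sum]
    refine hsum _ _ fun e _ => ?_
    rw [ω.mul_left, ω.mul_left, ω.const_left, hpow _ hx, hpow _ hy]
    ring
  obtain ⟨f, g, hg, rfl⟩ := P.surj w
  rw [div_eq_mul_inv, ω.mul_left, ω.inv_left (P.ne hg), hev f, hev g]
  ring

theorem Coord.br_ne (ω : Bracket L) (P : Coord L) : ω.br P.x P.y ≠ 0 := by
  intro h
  obtain ⟨a, b, hab⟩ := ω.ne_zero
  have h1 : ∀ w, ω.br w P.y = 0 := br_zero_of ω P h (ω.alt _)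
  have h2 : ∀ w, ω.br w P.x = 0 :=
    br_zero_of ω P (ω.alt _) (by rw [ω.skew, h, neg_zero])
  apply hab
  refine br_zero_of ω P ?_ ?_ a
  · rw [ω.skew, h2, neg_zero]
  · rw [ω.skew, h1, neg_zero]

/-- The properties of the value `k` of the 2-form at `v` used in this part: BR9 and B2. -/
structure WtProp (ω : Bracket L) (v : DVal L) (k : ℤ) : Prop where
  br9 : ∀ a b, a ≠ 0 → b ≠ 0 → ω.br a b ≠ 0 → v.v a + v.v b - 1 - k ≤ v.v (ω.br a b)
  b2 : ∀ P : Coord L, v.Int P.x → v.Int P.y →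
    ¬ ((∃ c : ℂ, v.Pos (P.x - algebraMap ℂ L c)) ∧
      ∃ c : ℂ, v.Pos (P.y - algebraMap ℂ L c)) → v.v (ω.br P.x P.y) + k = 0

/-- All multiplicities at the points of the affine plane are at most `m / c`. -/
def MultLE (F : Fin (N + 1) → ℂ[X][X]) (c m : ℕ) : Prop :=
  ∀ s t : ℂ, ∃ i e, cf (trl s t (F i)) e ≠ 0 ∧ c * (e.1 + e.2) ≤ m

/-- The local inequality. -/
theorem theta_loc {ω : Bracket L} {x : Fin (N + 1) → L} {P : Coord L} {q : L}
    {F : Fin (N + 1) → ℂ[X][X]} (hF : Pol x P q F) {c m : ℕ} (hm : MultLE F c m)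
    {v : DVal L} {k : ℤ} (hk : WtProp ω v k) (hX : v.Int P.x) (hY : v.Int P.y)
    (hgcd : ¬ ((∃ c : ℂ, v.Pos (P.x - algebraMap ℂ L c)) ∧
      ∃ c : ℂ, v.Pos (P.y - algebraMap ℂ L c)) → ∃ i, x i ≠ 0 ∧ v.v (q * x i) = 0)
    {i : Fin (N + 1)} (hi : x i ≠ 0) (hmin : ∀ j, x j ≠ 0 → v.v (x i) ≤ v.v (x j)) :
    (c : ℤ) * (v.v q + v.v (x i)) ≤ m * (v.v (ω.br P.x P.y) + k) := by
  by_cases hcon : (∃ c : ℂ, v.Pos (P.x - algebraMap ℂ L c)) ∧
      ∃ c : ℂ, v.Pos (P.y - algebraMap ℂ L c)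
  · obtain ⟨⟨s, hs⟩, ⟨t, ht⟩⟩ := hcon
    obtain ⟨Q, hQx, hQy⟩ := P.trans s t
    have hs' : 0 < v.v Q.x := by
      rw [← hQx] at hs
      exact hs.resolve_left Q.x_ne
    have ht' : 0 < v.v Q.y := by
      rw [← hQy] at ht
      exact ht.resolve_left Q.y_ne
    have hbr : ω.br Q.x Q.y = ω.br P.x P.y := by
      rw [hQx, hQy, ω.sub_left, ω.sub_right, ω.sub_right, ω.const_right, ω.const_left,
        ω.const_left]
      ring
    have hne := Q.br_ne ω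
    have h0 := hk.br9 Q.x Q.y Q.x_ne Q.y_ne hne
    obtain ⟨j, e, he, hce⟩ := hm s t
    have hG := (hF.trl s t Q hQx hQy).2 j
    dsimp only at hG
    have hGne : trl s t (F j) ≠ 0 := by
      intro h1
      rw [h1] at he
      exact he (by simp [cf])
    have hxj : x j ≠ 0 := by
      intro h1
      rw [h1, mul_zero] at hG
      exact Q.ne hGne hG
    have h1 := skoda ω v k hk.br9 (v.v (ω.br Q.x Q.y) + k).toNat Q hs' ht' hne
      (by rw [Int.toNat_of_nonneg (by omega)]) _ e he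
    rw [hG, v.map_mul _ _ hF.1 hxj, hbr] at h1
    rw [hbr] at h0
    have h2 := hmin j hxj
    have h3 : (c : ℤ) * (v.v q + v.v (x i)) ≤
        c * ((e.1 + e.2 : ℤ) * (v.v (ω.br P.x P.y) + k)) :=
      mul_le_mul_of_nonneg_left (by linarith) (Int.natCast_nonneg _)
    have h4 : ((c * (e.1 + e.2) : ℕ) : ℤ) ≤ m := by exact_mod_cast hce
    have h5 : ((c * (e.1 + e.2) : ℕ) : ℤ) * (v.v (ω.br P.x P.y) + k) ≤
        m * (v.v (ω.br P.x P.y) + k) := mul_le_mul_of_nonneg_right h4 (by omega)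
    push_cast at h5
    calc (c : ℤ) * (v.v q + v.v (x i)) ≤ c * ((e.1 + e.2 : ℤ) * (v.v (ω.br P.x P.y) + k)) := h3
      _ = c * (e.1 + e.2 : ℤ) * (v.v (ω.br P.x P.y) + k) := by ring
      _ ≤ _ := h5
  · obtain ⟨j, hj, hj0⟩ := hgcd hcon
    rw [hk.b2 P hX hY hcon, mul_zero]
    rw [v.map_mul _ _ hF.1 hj] at hj0
    have h2 := hmin j hj
    have h3 : v.v q + v.v (x i) ≤ 0 := by linarith
    exact mul_nonpos_of_nonneg_of_nonpos (Int.natCast_nonneg _) h3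

/-! ### Plane structures -/

theorem MinP2.multLE {ω : Bracket L} {x : Fin (N + 1) → L} (hx : Big ω x) {P : Coord L} {q : L}
    {a : ℕ} (h : MinP2 x P q a) {F : Fin (N + 1) → ℂ[X][X]} (hF : Pol x P q F) :
    MultLE F 3 a := by
  intro s t
  obtain ⟨Q, hQx, hQy, hQ⟩ := h.trans s t
  exact hQ.mult (h.1.pos hx) (hF.trl s t Q hQx hQy)

/-- THETA for a minimal plane structure, affine part, parametric form. -/
theorem MinP2.theta_aff {ω : Bracket L} {x : Fin (N + 1) → L} (hx : Big ω x) {P : Coord L}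
    {q : L} {a : ℕ} (h : MinP2 x P q a) {F : Fin (N + 1) → ℂ[X][X]} (hF : Pol x P q F)
    {c m : ℕ} (hm : MultLE F c m) {v : DVal L} {k : ℤ} (hk : WtProp ω v k)
    (hX : v.Int P.x) (hY : v.Int P.y) {i : Fin (N + 1)} (hi : x i ≠ 0)
    (hmin : ∀ j, x j ≠ 0 → v.v (x i) ≤ v.v (x j)) :
    (c : ℤ) * (v.v q + v.v (x i)) ≤ m * (v.v (ω.br P.x P.y) + k) :=
  theta_loc hF hm hk hX hY (fun hc => h.gcd hx v hX hY hc) hi hmin

/-- Equality along the curves of the affine plane. -/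
theorem MinP2.curve_aff {ω : Bracket L} {x : Fin (N + 1) → L} (hx : Big ω x) {P : Coord L}
    {q : L} {a : ℕ} (h : MinP2 x P q a) {v : DVal L} {k : ℤ} (hk : WtProp ω v k)
    (hX : v.Int P.x) (hY : v.Int P.y)
    (hnc : ¬ ((∃ c : ℂ, v.Pos (P.x - algebraMap ℂ L c)) ∧
      ∃ c : ℂ, v.Pos (P.y - algebraMap ℂ L c))) {i : Fin (N + 1)} (hi : x i ≠ 0)
    (hmin : ∀ j, x j ≠ 0 → v.v (x i) ≤ v.v (x j)) :
    v.v q + v.v (x i) = 0 ∧ v.v (ω.br P.x P.y) + k = 0 := by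
  refine ⟨?_, hk.b2 P hX hY hnc⟩
  obtain ⟨j, hj, hj0⟩ := h.gcd hx v hX hY hnc
  have h2 := hmin j hj
  obtain ⟨F, hF, -⟩ := h.1
  rw [v.map_mul _ _ hF.1 hj] at hj0
  have h3 : v.Int (q * x i) := by
    rw [← hF.2 i]
    exact v.int_ev hX hY _
  have h4 := h3.resolve_left (mul_ne_zero hF.1 hi)
  rw [v.map_mul _ _ hF.1 hi] at h4
  omega

theorem br_chart (ω : Bracket L) {x y : L} (hx : x ≠ 0) :
    ω.br x⁻¹ (y / x) = - ((x ^ 3)⁻¹ * ω.br x y) := by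
  rw [ω.inv_left hx, ω.br_div hx]
  field_simp

theorem v_br_chart (ω : Bracket L) (v : DVal L) {x y : L} (hx : x ≠ 0)
    (h : ω.br x y ≠ 0) : v.v (ω.br x⁻¹ (y / x)) = v.v (ω.br x y) - 3 * v.v x := by
  have h3 : (x ^ 3)⁻¹ ≠ 0 := inv_ne_zero (pow_ne_zero _ hx)
  rw [br_chart ω hx, v.map_neg (mul_ne_zero h3 h), v.map_mul _ _ h3 h,
    v.map_inv (pow_ne_zero _ hx), v.map_pow hx]
  push_cast; ring

theorem v_q_chart (v : DVal L) {x q : L} (hx : x ≠ 0) (hq : q ≠ 0) (a : ℕ) :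
    v.v (q * (x ^ a)⁻¹) = v.v q - a * v.v x := by
  rw [v.map_mul _ _ hq (inv_ne_zero (pow_ne_zero _ hx)), v.map_inv (pow_ne_zero _ hx),
    v.map_pow hx]
  ring

/-- The curves of the plane with affine coordinates `P`: those of the three standard charts. -/
def CurveP2 (P : Coord L) (v : DVal L) : Prop :=
  ∃ Q : Coord L, ((Q.x = P.x ∧ Q.y = P.y) ∨ (Q.x = P.x⁻¹ ∧ Q.y = P.y / P.x) ∨
    (Q.x = P.y⁻¹ ∧ Q.y = P.x / P.y)) ∧ v.Int Q.x ∧ v.Int Q.y ∧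
    ¬ ((∃ c : ℂ, v.Pos (Q.x - algebraMap ℂ L c)) ∧
      ∃ c : ℂ, v.Pos (Q.y - algebraMap ℂ L c))

theorem MinP2.congr {x : Fin (N + 1) → L} {P Q : Coord L} {q : L} {a : ℕ}
    (h : MinP2 x P q a) (hx : Q.x = P.x) (hy : Q.y = P.y) : MinP2 x Q q a := by
  obtain ⟨⟨F, hF, hS⟩, hLB⟩ := h
  exact ⟨⟨F, ⟨hF.1, fun i => by rw [hx, hy, hF.2 i]⟩, hS⟩, hLB⟩

/-- THETA for a minimal plane structure. -/
theorem MinP2.theta {ω : Bracket L} {x : Fin (N + 1) → L} (hx : Big ω x) {P : Coord L}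
    {q : L} {a : ℕ} (h : MinP2 x P q a) {v : DVal L} {k : ℤ} (hk : WtProp ω v k)
    {i : Fin (N + 1)} (hi : x i ≠ 0) (hmin : ∀ j, x j ≠ 0 → v.v (x i) ≤ v.v (x j)) :
    3 * (v.v q + v.v (x i)) ≤ a * (v.v (ω.br P.x P.y) + k) := by
  have key : ∀ (P : Coord L) (q : L), MinP2 x P q a → v.Int P.x → v.Int P.y →
      3 * (v.v q + v.v (x i)) ≤ a * (v.v (ω.br P.x P.y) + k) := by
    intro P q h hX hY
    obtain ⟨F, hF, hS⟩ := h.1
    have := h.theta_aff hx hF (h.multLE hx hF) hk hX hY hi hmin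
    exact_mod_cast this
  have hch : ∀ (P : Coord L) (q : L), MinP2 x P q a → v.v P.x ≤ 0 → v.v P.x ≤ v.v P.y →
      3 * (v.v q + v.v (x i)) ≤ a * (v.v (ω.br P.x P.y) + k) := by
    intro P q h h1 h2
    obtain ⟨Q, hQx, hQy, hQ⟩ := h.chart
    have hxne := P.x_ne
    have hyne := P.y_ne
    have h3 := key Q _ hQ (by rw [hQx]; right; rw [v.map_inv hxne]; omega)
      (by rw [hQy]; right; rw [v.map_div hyne hxne]; omega)
    obtain ⟨F, hF, -⟩ := h.1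
    rw [hQx, hQy, v_br_chart ω v hxne (P.br_ne ω), v_q_chart v hxne hF.1] at h3
    linarith
  by_cases h1 : 0 ≤ v.v P.x
  · by_cases h2 : 0 ≤ v.v P.y
    · exact key P q h (Or.inr h1) (Or.inr h2)
    · obtain ⟨Q, hQx, hQy, hQ⟩ := h.swap
      have h3 := hch Q q hQ (by rw [hQx]; omega) (by rw [hQx, hQy]; omega)
      rw [hQx, hQy, ω.skew, v.map_neg (P.br_ne ω)] at h3
      exact h3
  · by_cases h2 : v.v P.x ≤ v.v P.y
    · exact hch P q h (by omega) h2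
    · obtain ⟨Q, hQx, hQy, hQ⟩ := h.swap
      have h3 := hch Q q hQ (by rw [hQx]; omega) (by rw [hQx, hQy]; omega)
      rw [hQx, hQy, ω.skew, v.map_neg (P.br_ne ω)] at h3
      exact h3

/-- Equality in THETA along the curves of the plane. -/
theorem MinP2.theta_eq {ω : Bracket L} {x : Fin (N + 1) → L} (hx : Big ω x) {P : Coord L}
    {q : L} {a : ℕ} (h : MinP2 x P q a) {v : DVal L} {k : ℤ} (hk : WtProp ω v k)
    (hv : CurveP2 P v)
    {i : Fin (N + 1)} (hi : x i ≠ 0) (hmin : ∀ j, x j ≠ 0 → v.v (x i) ≤ v.v (x j)) :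
    3 * (v.v q + v.v (x i)) = a * (v.v (ω.br P.x P.y) + k) := by
  obtain ⟨Q, hQ, hX, hY, hnc⟩ := hv
  have hxne := P.x_ne
  have hyne := P.y_ne
  have hbr := P.br_ne ω
  obtain ⟨F, hF, -⟩ := h.1
  rcases hQ with ⟨h1, h2⟩ | ⟨h1, h2⟩ | ⟨h1, h2⟩
  · obtain ⟨h3, h4⟩ := (h.congr h1 h2).curve_aff hx hk hX hY hnc hi hmin
    rw [h1, h2] at h4
    rw [h3, h4]; ring
  · obtain ⟨R, hR1, hR2, hR⟩ := h.chart
    obtain ⟨h3, h4⟩ := (hR.congr (Q := Q) (by rw [h1, hR1]) (by rw [h2, hR2])).curve_aff hx hk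
      hX hY hnc hi hmin
    rw [h1, h2, v_br_chart ω v hxne hbr] at h4
    rw [v_q_chart v hxne hF.1] at h3
    linear_combination 3 * h3 - a * h4
  · obtain ⟨S, hS1, hS2, hS⟩ := h.swap
    obtain ⟨R, hR1, hR2, hR⟩ := hS.chart
    rw [hS1, hS2] at hR2
    rw [hS1] at hR1
    obtain ⟨h3, h4⟩ := (hR.congr (Q := Q) (by rw [h1, hR1]) (by rw [h2, hR2])).curve_aff hx hk
      hX hY hnc hi hmin
    have hbr' : ω.br P.y P.x ≠ 0 := by rw [ω.skew]; exact neg_ne_zero.2 hbr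
    rw [h1, h2, v_br_chart ω v hyne hbr', ω.skew, v.map_neg hbr] at h4
    rw [hS1, v_q_chart v hyne hF.1] at h3
    linear_combination 3 * h3 - a * h4

end

end LCY
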