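import Pool.Agent.Helper51.LCY.P3

/-!
Bezout for MP_f7e214_ag, part 1: the dimension of `ℂ[X, Y] / (F, G)` if the leading forms of
`F` and `G` have no common factor.
-/

open Polynomial

namespace LCY

noncomputable section

namespace H51

/-! ### Polynomials of bounded total degree -/

theorem cf_smul (c : ℂ) (f : ℂ[X][X]) (e : ℕ × ℕ) : cf (c • f) e = c * cf f e := by
  unfold cf; rw [coeff_smul, coeff_smul, smul_eq_mul]

theorem cf_add' (f g : ℂ[X][X]) (e : ℕ × ℕ) : cf (f + g) e = cf f e + cf g e := by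
  unfold cf; rw [coeff_add, coeff_add]

theorem cf_neg' (f : ℂ[X][X]) (e : ℕ × ℕ) : cf (-f) e = - cf f e := by
  unfold cf; rw [coeff_neg, coeff_neg]

theorem cf_zero' (e : ℕ × ℕ) : cf 0 e = 0 := by simp [cf]

/-- Polynomials of total degree at most `n`. -/
def Vn (n : ℕ) : Submodule ℂ ℂ[X][X] where
  carrier := {f | ∀ e, cf f e ≠ 0 → e.1 + e.2 ≤ n}
  zero_mem' := fun e he => absurd (cf_zero' e) he
  add_mem' := by
    intro f g hf hg e he
    rw [cf_add'] at he
    by_cases h1 : cf f e = 0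
    · rw [h1, zero_add] at he; exact hg e he
    · exact hf e h1
  smul_mem' := by
    intro c f hf e he
    rw [cf_smul] at he
    exact hf e (right_ne_zero_of_mul he)

theorem mem_Vn {n : ℕ} {f : ℂ[X][X]} : f ∈ Vn n ↔ ∀ e, cf f e ≠ 0 → e.1 + e.2 ≤ n := Iff.rfl

theorem Vn_mono {m n : ℕ} (h : m ≤ n) : Vn m ≤ Vn n := fun _ hf e he => (hf e he).trans h

theorem exists_Vn (f : ℂ[X][X]) : ∃ n, f ∈ Vn n := by
  refine ⟨∑ e ∈ bs f, (e.1 + e.2), fun e he => ?_⟩
  exact Finset.single_le_sum (f := fun e : ℕ × ℕ => e.1 + e.2) (fun _ _ => Nat.zero_le _)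
    (mem_bs.2 he)

/-- Exponents of total degree at most `n`. -/
def Tn (n : ℕ) : Finset (ℕ × ℕ) := (Finset.range (n + 1)).biUnion fun k => Finset.HasAntidiagonal.antidiagonal k

theorem mem_Tn {n : ℕ} {e : ℕ × ℕ} : e ∈ Tn n ↔ e.1 + e.2 ≤ n := by
  unfold Tn
  rw [Finset.mem_biUnion]
  constructor
  · rintro ⟨k, hk, he⟩
    rw [Finset.HasAntidiagonal.mem_antidiagonal] at he
    rw [Finset.mem_range] at hk
    omega
  · intro h
    exact ⟨e.1 + e.2, Finset.mem_range.2 (by omega), Finset.HasAntidiagonal.mem_antidiagonal.2 rfl⟩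

theorem card_Tn (n : ℕ) : 2 * (Tn n).card = (n + 1) * (n + 2) := by
  unfold Tn
  rw [Finset.card_biUnion]
  · simp only [Finset.Nat.card_antidiagonal]
    induction n with
    | zero => simp
    | succ n ih => rw [Finset.sum_range_succ, mul_add, ih]; ring
  · intro i _ j _ hij
    show Disjoint (Finset.HasAntidiagonal.antidiagonal i) (Finset.HasAntidiagonal.antidiagonal j)
    rw [Finset.disjoint_left]
    intro e he he'
    rw [Finset.HasAntidiagonal.mem_antidiagonal] at he he'
    exact hij (he.symm.trans he')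

/-- Coordinates on the space of polynomials of bounded degree. -/
def VnMap (n : ℕ) : Vn n →ₗ[ℂ] ({e // e ∈ Tn n} → ℂ) where
  toFun := fun f e => cf (f : ℂ[X][X]) e
  map_add' := fun f g => funext fun e => cf_add' _ _ _
  map_smul' := fun c f => funext fun e => cf_smul _ _ _

/-- Coordinates on the space of polynomials of bounded degree. -/
def VnEquiv (n : ℕ) : Vn n ≃ₗ[ℂ] ({e // e ∈ Tn n} → ℂ) :=
  LinearEquiv.ofBijective (VnMap n) (by
    constructor
    · intro f g h
      refine Subtype.ext (cf_ext fun e => ?_)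
      by_cases he : e ∈ Tn n
      · exact congrFun h ⟨e, he⟩
      · rw [mem_Tn] at he
        have h1 : cf (f : ℂ[X][X]) e = 0 := by
          by_contra h1
          exact he (f.2 e h1)
        have h2 : cf (g : ℂ[X][X]) e = 0 := by
          by_contra h2
          exact he (g.2 e h2)
        rw [h1, h2]
    · intro c
      have hcf : ∀ e, cf (∑ e' ∈ (Tn n).attach,
          (monomial (e' : ℕ × ℕ).2 (monomial (e' : ℕ × ℕ).1 (c e')) : ℂ[X][X])) e =
          if h : e ∈ Tn n then c ⟨e, h⟩ else 0 := by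
        intro e
        unfold cf
        rw [finsetSum_coeff, finsetSum_coeff]
        split_ifs with h
        · rw [Finset.sum_eq_single ⟨e, h⟩]
          · rw [coeff_monomial, if_pos rfl, coeff_monomial, if_pos rfl]
          · intro e' _ hne
            rw [coeff_monomial]
            split_ifs with h2
            · rw [coeff_monomial, if_neg]
              intro h3
              exact hne (Subtype.ext (Prod.ext h3 h2))
            · simp
          · intro h'; exact absurd (Finset.mem_attach _ _) h'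
        · rw [Finset.sum_eq_zero]
          intro e' _
          rw [coeff_monomial]
          split_ifs with h2
          · rw [coeff_monomial, if_neg]
            intro h3
            apply h
            rw [← Prod.ext (x := (e' : ℕ × ℕ)) (y := e) h3 h2]
            exact e'.2
          · simp
      refine ⟨⟨∑ e' ∈ (Tn n).attach,
          (monomial (e' : ℕ × ℕ).2 (monomial (e' : ℕ × ℕ).1 (c e')) : ℂ[X][X]), ?_⟩, ?_⟩
      · intro e he
        rw [hcf] at he
        split_ifs at he with h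
        · exact mem_Tn.1 h
        · exact absurd rfl he
      · funext e
        exact (hcf e).trans (dif_pos e.2))

instance (n : ℕ) : Module.Finite ℂ (Vn n) := Module.Finite.equiv (VnEquiv n).symm

instance (n : ℕ) : Module.Free ℂ (Vn n) := Module.Free.of_equiv (VnEquiv n).symm

theorem finrank_Vn (n : ℕ) : 2 * Module.finrank ℂ (Vn n) = (n + 1) * (n + 2) := by
  rw [(VnEquiv n).finrank_eq, Module.finrank_fintype_fun_eq_card, Fintype.card_coe, card_Tn]

/-! ### Homogeneous parts -/

/-- The homogeneous part of degree `k`. -/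
def hp (k : ℕ) (f : ℂ[X][X]) : ℂ[X][X] := (phi 1 1 f).coeff k

theorem cf_hp (k : ℕ) (f : ℂ[X][X]) (e : ℕ × ℕ) :
    cf (hp k f) e = if e.1 + e.2 = k then cf f e else 0 := by
  unfold hp
  rw [coeff_phi, one_mul, one_mul]

theorem natDegree_phi_le {n : ℕ} {f : ℂ[X][X]} (h : f ∈ Vn n) : (phi 1 1 f).natDegree ≤ n :=
  phi_natDegree_le fun e he => by rw [one_mul, one_mul]; exact h e he

theorem hp_mul {a b : ℕ} {f g : ℂ[X][X]} (hf : f ∈ Vn a) (hg : g ∈ Vn b) :
    hp (a + b) (f * g) = hp a f * hp b g := by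
  unfold hp
  rw [map_mul]
  exact coeff_mul_add_eq_of_natDegree_le (natDegree_phi_le hf) (natDegree_phi_le hg)

theorem hp_add (k : ℕ) (f g : ℂ[X][X]) : hp k (f + g) = hp k f + hp k g := by
  unfold hp; rw [map_add, coeff_add]

theorem hp_neg (k : ℕ) (f : ℂ[X][X]) : hp k (-f) = - hp k f := by
  unfold hp; rw [map_neg, coeff_neg]

theorem hp_mem (k : ℕ) (f : ℂ[X][X]) : hp k f ∈ Vn k := by
  intro e he
  rw [cf_hp] at he
  split_ifs at he with h
  · omega
  · exact absurd rfl he

theorem hp_hp (k : ℕ) (f : ℂ[X][X]) : hp k (hp k f) = hp k f := by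
  refine cf_ext fun e => ?_
  rw [cf_hp, cf_hp]
  split_ifs <;> rfl

theorem hp_eq_zero {k m : ℕ} {f : ℂ[X][X]} (h : f ∈ Vn m) (hk : m < k) : hp k f = 0 := by
  refine cf_eq_zero fun e => ?_
  rw [cf_hp]
  split_ifs with h1
  · by_contra h2
    have := h e h2
    omega
  · rfl

theorem mem_of_hp {k : ℕ} {f : ℂ[X][X]} (h : f ∈ Vn (k + 1)) (h0 : hp (k + 1) f = 0) :
    f ∈ Vn k := by
  intro e he
  have h1 := h e he
  by_contra h2
  apply he
  have h3 := cf_hp (k + 1) f e
  rw [if_pos (by omega), h0, cf_zero'] at h3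
  exact h3.symm

theorem Vn_mul {a b : ℕ} {f g : ℂ[X][X]} (hf : f ∈ Vn a) (hg : g ∈ Vn b) :
    f * g ∈ Vn (a + b) := by
  intro e he
  have h1 := le_phi_natDegree (α := 1) (β := 1) he
  rw [map_mul] at h1
  have h2 := natDegree_mul_le (p := phi 1 1 f) (q := phi 1 1 g)
  have h3 := natDegree_phi_le hf
  have h4 := natDegree_phi_le hg
  omega

/-- Degrees of a factor. -/
theorem Vn_of_mul {a b : ℕ} {f g : ℂ[X][X]} (hf : ∃ e, cf f e ≠ 0 ∧ e.1 + e.2 = a)
    (h : f * g ∈ Vn (a + b)) : g ∈ Vn b := by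
  obtain ⟨e0, he0, hd⟩ := hf
  intro e he
  have h1 := weight_mul (α := 1) (β := 1) (f := f) (g := g) (n := a + b)
    (fun e' he' => by have := h e' he'; omega) he0 he
  omega

/-! ### The relations -/

/-- The situation: two coprime polynomials of degrees `d`, `d'` with coprime leading forms. -/
structure BPair (F G : ℂ[X][X]) (d d' : ℕ) : Prop where
  degF : F ∈ Vn d
  degG : G ∈ Vn d'
  neF : hp d F ≠ 0
  neG : hp d' G ≠ 0
  cop : ∀ A B : ℂ[X][X], A * F + B * G = 0 → ∃ E, A = E * G ∧ B = - (E * F)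
  copt : ∀ A B : ℂ[X][X], A * hp d F + B * hp d' G = 0 →
    ∃ E, A = E * hp d' G ∧ B = - (E * hp d F)

variable {F G : ℂ[X][X]} {d d' : ℕ}

theorem BPair.exF (h : BPair F G d d') : ∃ e, cf F e ≠ 0 ∧ e.1 + e.2 = d := by
  obtain ⟨e, he⟩ := exists_cf_ne h.neF
  rw [cf_hp] at he
  split_ifs at he with h1
  · exact ⟨e, he, h1⟩
  · exact absurd rfl he

theorem BPair.exG (h : BPair F G d d') : ∃ e, cf G e ≠ 0 ∧ e.1 + e.2 = d' := by
  obtain ⟨e, he⟩ := exists_cf_ne h.neG
  rw [cf_hp] at he
  split_ifs at he with h1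
  · exact ⟨e, he, h1⟩
  · exact absurd rfl he

theorem BPair.neF' (h : BPair F G d d') : F ≠ 0 := by
  rintro rfl
  obtain ⟨e, he, -⟩ := h.exF
  exact he (cf_zero' e)

theorem BPair.neG' (h : BPair F G d d') : G ≠ 0 := by
  rintro rfl
  obtain ⟨e, he, -⟩ := h.exG
  exact he (cf_zero' e)

/-- Lowering the degrees of the coefficients. -/
theorem BPair.lower (h : BPair F G d d') (m : ℕ) : ∀ (j : ℕ) (A B : ℂ[X][X]),
    A ∈ Vn (d' + j) → B ∈ Vn (d + j) → A * F + B * G ∈ Vn (d + d' + m) → m ≤ j →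
    ∃ A' B', A' ∈ Vn (d' + m) ∧ B' ∈ Vn (d + m) ∧ A' * F + B' * G = A * F + B * G := by
  intro j
  induction j with
  | zero =>
    intro A B hA hB _ hm
    obtain rfl : m = 0 := by omega
    exact ⟨A, B, hA, hB, rfl⟩
  | succ j ih =>
    intro A B hA hB hAB hm
    rcases Nat.lt_or_ge j m with hjm | hjm
    · obtain rfl : m = j + 1 := by omega
      exact ⟨A, B, hA, hB, rfl⟩
    -- the top part vanishes
    have h1 : hp (d' + (j + 1)) A * hp d F + hp (d + (j + 1)) B * hp d' G = 0 := by
      rw [← hp_mul hA h.degF, ← hp_mul hB h.degG, show d' + (j + 1) + d = d + d' + (j + 1) by ring,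
        show d + (j + 1) + d' = d + d' + (j + 1) by ring, ← hp_add]
      exact hp_eq_zero hAB (by omega)
    obtain ⟨E, hE1, hE2⟩ := h.copt _ _ h1
    have hexG : ∃ e, cf (hp d' G) e ≠ 0 ∧ e.1 + e.2 = d' := by
      obtain ⟨e, he, hd⟩ := h.exG
      exact ⟨e, by rw [cf_hp, if_pos hd]; exact he, hd⟩
    have hEV : E ∈ Vn (j + 1) := by
      refine Vn_of_mul hexG (a := d') ?_
      rw [mul_comm, ← hE1]
      exact hp_mem _ _
    have hEE : hp (j + 1) E = E := by
      have h2 : hp (d' + (j + 1)) (hp (d' + (j + 1)) A) = hp (d' + (j + 1)) A := hp_hp _ _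
      rw [hE1, mul_comm E, hp_mul (hp_mem _ _) hEV, hp_hp] at h2
      exact mul_left_cancel₀ h.neG h2
    have hA' : A - E * G ∈ Vn (d' + j) := by
      refine mem_of_hp (k := d' + j) ?_ ?_
      · refine Submodule.sub_mem _ hA ?_
        have := Vn_mul hEV h.degG
        rwa [add_comm (j + 1) d'] at this
      · rw [sub_eq_add_neg, hp_add, hp_neg]
        have h3 := hp_mul hEV h.degG
        rw [add_comm (j + 1) d', hEE] at h3
        show hp (d' + (j + 1)) A + -hp (d' + (j + 1)) (E * G) = 0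
        rw [h3, hE1]; ring
    have hB' : B + E * F ∈ Vn (d + j) := by
      refine mem_of_hp (k := d + j) ?_ ?_
      · refine Submodule.add_mem _ hB ?_
        have := Vn_mul hEV h.degF
        rwa [add_comm (j + 1) d] at this
      · rw [hp_add]
        have h3 := hp_mul hEV h.degF
        rw [add_comm (j + 1) d, hEE] at h3
        show hp (d + (j + 1)) B + hp (d + (j + 1)) (E * F) = 0
        rw [h3, hE2]; ring
    have he : (A - E * G) * F + (B + E * F) * G = A * F + B * G := by ring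
    obtain ⟨A', B', hA'', hB'', h4⟩ := ih (A - E * G) (B + E * F) hA' hB' (by rw [he]; exact hAB) hjm
    exact ⟨A', B', hA'', hB'', by rw [h4, he]⟩

/-- The linear map `(A, B) ↦ A F + B G`. -/
def relMap (F G : ℂ[X][X]) (a b : ℕ) : (Vn a × Vn b) →ₗ[ℂ] ℂ[X][X] where
  toFun p := (p.1 : ℂ[X][X]) * F + (p.2 : ℂ[X][X]) * G
  map_add' p q := by
    show ((p.1 : ℂ[X][X]) + q.1) * F + ((p.2 : ℂ[X][X]) + q.2) * G = _
    ring
  map_smul' c p := by
    show (c • (p.1 : ℂ[X][X])) * F + (c • (p.2 : ℂ[X][X])) * G =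
      c • ((p.1 : ℂ[X][X]) * F + (p.2 : ℂ[X][X]) * G)
    rw [smul_mul_assoc, smul_mul_assoc, smul_add]

/-- The linear map `E ↦ (E G, - E F)`. -/
def kerMap (F G : ℂ[X][X]) (a b m : ℕ) (hG : ∀ E ∈ Vn m, E * G ∈ Vn a)
    (hF : ∀ E ∈ Vn m, E * F ∈ Vn b) : Vn m →ₗ[ℂ] (Vn a × Vn b) where
  toFun E := (⟨E * G, hG _ E.2⟩, ⟨-(E * F), Submodule.neg_mem _ (hF _ E.2)⟩)
  map_add' p q := by
    refine Prod.ext (Subtype.ext ?_) (Subtype.ext ?_)
    · show ((p : ℂ[X][X]) + q) * G = p * G + q * G
      ring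
    · show -(((p : ℂ[X][X]) + q) * F) = -(p * F) + -(q * F)
      ring
  map_smul' c p := by
    refine Prod.ext (Subtype.ext ?_) (Subtype.ext ?_)
    · show (c • (p : ℂ[X][X])) * G = c • ((p : ℂ[X][X]) * G)
      rw [smul_mul_assoc]
    · show -((c • (p : ℂ[X][X])) * F) = c • (-((p : ℂ[X][X]) * F))
      rw [smul_mul_assoc, smul_neg]

theorem BPair.finrank_range (h : BPair F G d d') (m : ℕ) :
    Module.finrank ℂ (LinearMap.range (relMap F G (d' + m) (d + m))) + d * d' =
      Module.finrank ℂ (Vn (d + d' + m)) := by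
  have hG : ∀ E ∈ Vn m, E * G ∈ Vn (d' + m) := fun E hE => by
    have := Vn_mul hE h.degG
    rwa [add_comm m d'] at this
  have hF : ∀ E ∈ Vn m, E * F ∈ Vn (d + m) := fun E hE => by
    have := Vn_mul hE h.degF
    rwa [add_comm m d] at this
  have hker : LinearMap.range (kerMap F G (d' + m) (d + m) m hG hF) =
      LinearMap.ker (relMap F G (d' + m) (d + m)) := by
    ext p
    constructor
    · rintro ⟨E, rfl⟩
      rw [LinearMap.mem_ker]
      show ((E : ℂ[X][X]) * G) * F + (-((E : ℂ[X][X]) * F)) * G = 0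
      ring
    · intro hp
      rw [LinearMap.mem_ker] at hp
      obtain ⟨E, h1, h2⟩ := h.cop _ _ hp
      have hE : E ∈ Vn m := by
        refine Vn_of_mul h.exG (a := d') ?_
        rw [mul_comm, ← h1]
        exact p.1.2
      exact ⟨⟨E, hE⟩, Prod.ext (Subtype.ext h1.symm) (Subtype.ext h2.symm)⟩
  have hinj : Function.Injective (kerMap F G (d' + m) (d + m) m hG hF) := by
    intro E E' hEE
    have h1 : ((E : ℂ[X][X]) * G) = (E' : ℂ[X][X]) * G :=
      congrArg (fun p : Vn (d' + m) × Vn (d + m) => (p.1 : ℂ[X][X])) hEE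
    exact Subtype.ext (mul_right_cancel₀ h.neG' h1)
  have h1 : Module.finrank ℂ (LinearMap.ker (relMap F G (d' + m) (d + m))) =
      Module.finrank ℂ (Vn m) := by
    rw [← hker]
    exact LinearMap.finrank_range_of_inj hinj
  have h2 := LinearMap.finrank_range_add_finrank_ker (K := ℂ) (V := Vn (d' + m) × Vn (d + m))
    (V₂ := ℂ[X][X]) (relMap F G (d' + m) (d + m))
  rw [h1, Module.finrank_prod] at h2
  have e1 := finrank_Vn (d' + m)
  have e2 := finrank_Vn (d + m)
  have e3 := finrank_Vn m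
  have e4 := finrank_Vn (d + d' + m)
  have e5 : (d + d' + m + 1) * (d + d' + m + 2) + (m + 1) * (m + 2) =
      (d' + m + 1) * (d' + m + 2) + (d + m + 1) * (d + m + 2) + 2 * (d * d') := by ring
  omega

/-- The image of the polynomials of degree `≤ d + d' + m` in the quotient has dimension
`d * d'`. -/
theorem BPair.finrank_map (h : BPair F G d d') (m : ℕ) :
    Module.finrank ℂ ((Vn (d + d' + m)).map
      (((Ideal.span {F, G}).restrictScalars ℂ).mkQ)) = d * d' := by
  set I : Submodule ℂ ℂ[X][X] := (Ideal.span {F, G}).restrictScalars ℂ with hI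
  have h1 := LinearMap.finrank_range_add_finrank_ker (K := ℂ) (V := Vn (d + d' + m))
    (V₂ := ℂ[X][X] ⧸ I) (I.mkQ.comp (Vn (d + d' + m)).subtype)
  rw [LinearMap.range_comp, Submodule.range_subtype] at h1
  have h2 : Module.finrank ℂ (LinearMap.ker (I.mkQ.comp (Vn (d + d' + m)).subtype)) =
      Module.finrank ℂ (LinearMap.range (relMap F G (d' + m) (d + m))) := by
    have h3 : (LinearMap.ker (I.mkQ.comp (Vn (d + d' + m)).subtype)).map
        (Vn (d + d' + m)).subtype = LinearMap.range (relMap F G (d' + m) (d + m)) := by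
      ext f
      constructor
      · rintro ⟨g, hg, rfl⟩
        rw [SetLike.mem_coe, LinearMap.mem_ker, LinearMap.comp_apply, Submodule.mkQ_apply,
          Submodule.Quotient.mk_eq_zero] at hg
        have hg2 : (g : ℂ[X][X]) ∈ Ideal.span {F, G} := hg
        rw [Ideal.mem_span_pair] at hg2
        obtain ⟨A, B, hAB⟩ := hg2
        obtain ⟨n1, hn1⟩ := exists_Vn A
        obtain ⟨n2, hn2⟩ := exists_Vn B
        have hA : A ∈ Vn (d' + (n1 + n2 + m)) := Vn_mono (by omega) hn1
        have hB : B ∈ Vn (d + (n1 + n2 + m)) := Vn_mono (by omega) hn2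
        obtain ⟨A', B', hA', hB', h4⟩ := h.lower m (n1 + n2 + m) A B hA hB
          (by rw [hAB]; exact g.2) (by omega)
        exact ⟨(⟨A', hA'⟩, ⟨B', hB'⟩), by
          show A' * F + B' * G = _
          rw [h4, hAB]; rfl⟩
      · rintro ⟨⟨A, B⟩, rfl⟩
        have h5 : (A : ℂ[X][X]) * F + (B : ℂ[X][X]) * G ∈ Vn (d + d' + m) := by
          refine Submodule.add_mem _ ?_ ?_
          · have := Vn_mul A.2 h.degF
            rwa [show d' + m + d = d + d' + m by ring] at this
          · have := Vn_mul B.2 h.degG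
            rwa [show d + m + d' = d + d' + m by ring] at this
        refine ⟨⟨_, h5⟩, ?_, rfl⟩
        rw [SetLike.mem_coe, LinearMap.mem_ker, LinearMap.comp_apply, Submodule.mkQ_apply,
          Submodule.Quotient.mk_eq_zero]
        show (A : ℂ[X][X]) * F + (B : ℂ[X][X]) * G ∈ Ideal.span {F, G}
        exact Ideal.mem_span_pair.2 ⟨_, _, rfl⟩
    rw [← h3]
    exact (Submodule.finrank_map_subtype_eq _ _).symm
  have h6 := h.finrank_range m
  omega

end H51

end

end LCY
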