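import Pool.Agent.Helper51.LCY.P5

/-!
Step 1 of MP_f7e214_ag, part 5b: the inequalities THETA for ruled structures, trichotomy.
-/

open Polynomial

namespace LCY

noncomputable section

variable {L : Type} [Field L] [Algebra ℂ L] {N : ℕ}

/-- All multiplicities at the points `y = ∞` of a ruled structure are at most `m / c`. -/
def MultInf (F : Fin (N + 1) → ℂ[X][X]) (d c m : ℕ) : Prop :=
  ∀ s : ℂ, ∃ i e, cf (trl s 0 (F i)) e ≠ 0 ∧ c * (e.1 + (d - e.2)) ≤ m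

theorem MinR.congr {x : Fin (N + 1) → L} {P Q : Coord L} {q : L} {d b n : ℕ}
    (h : MinR x P q d b n) (hx : Q.x = P.x) (hy : Q.y = P.y) : MinR x Q q d b n := by
  obtain ⟨⟨F, hF, hS⟩, hLB⟩ := h
  exact ⟨⟨F, ⟨hF.1, fun i => by rw [hx, hy, hF.2 i]⟩, hS⟩, hLB⟩

theorem MinR.multLE {ω : Bracket L} {x : Fin (N + 1) → L} (hx : Big ω x) {P : Coord L} {q : L}
    {d b n : ℕ} (h : MinR x P q d b n) {F : Fin (N + 1) → ℂ[X][X]} (hF : Pol x P q F) :
    MultLE F 2 d := by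
  intro s t
  obtain ⟨Q, hQx, hQy, hQ⟩ := h.trans s t
  exact hQ.mult hx (h.1.pos hx) (hF.trl s t Q hQx hQy)

theorem MinR.multInf {ω : Bracket L} {x : Fin (N + 1) → L} (hx : Big ω x) {P : Coord L} {q : L}
    {d b n : ℕ} (h : MinR x P q d b n) {F : Fin (N + 1) → ℂ[X][X]} (hF : Pol x P q F) :
    MultInf F d 2 d := by
  intro s
  obtain ⟨Q, hQx, hQy, hQ⟩ := h.trans s 0
  exact hQ.mult_inf hx (h.1.pos hx) (hF.trl s 0 Q hQx hQy)

/-- In the case `c = 0` the multiplicities are less than `d / 2`. -/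
theorem MinR.multLE_strict {ω : Bracket L} {x : Fin (N + 1) → L} (hx : Big ω x) {P : Coord L}
    {q : L} {d b n : ℕ} (h : MinR x P q d b n) (hc : 2 * b = (n + 2) * d)
    {F : Fin (N + 1) → ℂ[X][X]} (hF : Pol x P q F) : MultLE F 2 (d - 1) := by
  intro s t
  obtain ⟨Q, hQx, hQy, hQ⟩ := h.trans s t
  obtain ⟨i, e, he, hlt⟩ := hQ.mult_strict hx hc (hF.trl s t Q hQx hQy)
  exact ⟨i, e, he, by omega⟩

theorem MinR.multInf_strict {ω : Bracket L} {x : Fin (N + 1) → L} (hx : Big ω x) {P : Coord L}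
    {q : L} {d b n : ℕ} (h : MinR x P q d b n) (hc : 2 * b = (n + 2) * d)
    {F : Fin (N + 1) → ℂ[X][X]} (hF : Pol x P q F) : MultInf F d 2 (d - 1) := by
  intro s
  obtain ⟨Q, hQx, hQy, hQ⟩ := h.trans s 0
  obtain ⟨i, e, he, hlt⟩ := hQ.mult_inf_strict hx hc (hF.trl s 0 Q hQx hQy)
  exact ⟨i, e, he, by omega⟩

/-- THETA for a minimal ruled structure, affine part, parametric form. -/
theorem MinR.theta_aff {ω : Bracket L} {x : Fin (N + 1) → L} (hx : Big ω x) {P : Coord L}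
    {q : L} {d b n : ℕ} (h : MinR x P q d b n) {F : Fin (N + 1) → ℂ[X][X]} (hF : Pol x P q F)
    {c m : ℕ} (hm : MultLE F c m) {v : DVal L} {k : ℤ} (hk : WtProp ω v k)
    (hX : v.Int P.x) (hY : v.Int P.y) {i : Fin (N + 1)} (hi : x i ≠ 0)
    (hmin : ∀ j, x j ≠ 0 → v.v (x i) ≤ v.v (x j)) :
    (c : ℤ) * (v.v q + v.v (x i)) ≤ m * (v.v (ω.br P.x P.y) + k) :=
  theta_loc hF hm hk hX hY (fun hc => h.gcd hx v hX hY hc) hi hmin

theorem MinR.curve_aff {ω : Bracket L} {x : Fin (N + 1) → L} (hx : Big ω x) {P : Coord L}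
    {q : L} {d b n : ℕ} (h : MinR x P q d b n) {v : DVal L} {k : ℤ} (hk : WtProp ω v k)
    (hX : v.Int P.x) (hY : v.Int P.y)
    (hnc : ¬ ((∃ c : ℂ, v.Pos (P.x - algebraMap ℂ L c)) ∧
      ∃ c : ℂ, v.Pos (P.y - algebraMap ℂ L c))) {i : Fin (N + 1)} (hi : x i ≠ 0)
    (hmin : ∀ j, x j ≠ 0 → v.v (x i) ≤ v.v (x j)) :
    v.v q + v.v (x i) = 0 ∧ v.v (ω.br P.x P.y) + k = 0 := by
  refine ⟨?_, hk.b2 P hX hY hnc⟩
  obtain ⟨j, hj, hj0⟩ := h.gcd hx v hX hY hnc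
  have h2 := hmin j hj
  obtain ⟨F, hF, -⟩ := h.1
  rw [v.map_mul _ _ hF.1 hj] at hj0
  have h3 : v.Int (q * x i) := by
    rw [← hF.2 i]
    exact v.int_ev hX hY _
  have h4 := h3.resolve_left (mul_ne_zero hF.1 hi)
  rw [v.map_mul _ _ hF.1 hi] at h4
  omega

/-! ### The section `y = ∞` -/

theorem Pol.flip {x : Fin (N + 1) → L} {P : Coord L} {q : L} {F : Fin (N + 1) → ℂ[X][X]}
    (hF : Pol x P q F) {d : ℕ} (hS : ∀ i e, cf (F i) e ≠ 0 → e.2 ≤ d) :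
    ∃ (Q : Coord L) (G : Fin (N + 1) → ℂ[X][X]), Q.x = P.x ∧ Q.y = P.y⁻¹ ∧
      Pol x Q (q * (P.y ^ d)⁻¹) G ∧
      ∀ i e, cf (F i) e ≠ 0 → cf (G i) (e.1, d - e.2) ≠ 0 := by
  obtain ⟨Q, hQx, hQy⟩ := P.tor 1 0 0 (-1) (Or.inr (by norm_num))
  have hQx' : Q.x = P.x := by rw [hQx]; simp
  have hQy' : Q.y = P.y⁻¹ := by rw [hQy]; simp
  obtain ⟨G, hG, h1, -⟩ := hF.tor 1 0 0 (-1) 0 d (Or.inr (by norm_num)) (by
    intro i e he
    have := hS i e he
    constructor <;> omega) Q (by rw [hQx']; simp) (by rw [hQy']; simp)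
  have e1 : q * (Q.x ^ (0 : ℤ) * Q.y ^ (d : ℤ)) = q * (P.y ^ d)⁻¹ := by
    rw [hQy', zpow_zero, one_mul, zpow_natCast, inv_pow]
  rw [e1] at hG
  refine ⟨Q, G, hQx', hQy', hG, ?_⟩
  intro i e he
  have h7 := hS i e he
  obtain ⟨e', h4, h5, h6⟩ := h1 i e he
  have h8 : e' = (e.1, d - e.2) := Prod.ext (by dsimp only; omega) (by dsimp only; omega)
  rw [← h8, h6]
  exact he

theorem v_br_flip (ω : Bracket L) (v : DVal L) {x y : L} (hy : y ≠ 0)
    (h : ω.br x y ≠ 0) : v.v (ω.br x y⁻¹) = v.v (ω.br x y) - 2 * v.v y := by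
  have h3 : y⁻¹ ≠ 0 := inv_ne_zero hy
  rw [ω.inv_right hy, v.map_neg (mul_ne_zero (mul_ne_zero h3 h3) h),
    v.map_mul _ _ (mul_ne_zero h3 h3) h, v.map_mul _ _ h3 h3, v.map_inv hy]
  ring

/-- If the residue of `P.x` is not constant and `v P.y > 0`, a polynomial with a monomial
`(e, 0)` is a unit. -/
theorem val_of_coeff_zero (v : DVal L) (P : Coord L) (hX : v.Int P.x) (hY : 0 < v.v P.y)
    (hnc : ¬ ∃ c : ℂ, v.Pos (P.x - algebraMap ℂ L c)) {f : ℂ[X][X]} {e : ℕ}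
    (he : cf f (e, 0) ≠ 0) : v.v (ev P.x P.y f) = 0 := by
  have h0 : f.coeff 0 ≠ 0 := by
    intro h
    apply he
    unfold cf
    rw [h, coeff_zero]
  have h1 : ev P.x P.y f = aeval P.x (f.coeff 0) + P.y * ev P.x P.y f.divX := by
    conv_lhs => rw [← divX_mul_X_add f]
    rw [map_add, map_mul, ev_X, ev_C]
    ring
  have h2 : aeval P.x (f.coeff 0) ≠ 0 := P.trans_x h0
  have h3 : v.v (aeval P.x (f.coeff 0)) = 0 := by
    have h4 := (v.int_aeval hX (f.coeff 0)).resolve_left h2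
    by_contra h5
    exact hnc (const_of_pos v (fun s hs => P.trans_x hs) h0 (Or.inr (by omega)))
  rw [h1]
  exact (v.val_add_pos h2 h3
    (v.pos_mul_int (Or.inr hY) (v.int_ev hX (Or.inr hY.le) _))).2

/-- The local inequality at the section `y = ∞`. -/
theorem theta_inf {ω : Bracket L} {x : Fin (N + 1) → L} {P : Coord L} {q : L}
    {F : Fin (N + 1) → ℂ[X][X]} (hF : Pol x P q F) {d c m : ℕ}
    (hS : ∀ i e, cf (F i) e ≠ 0 → e.2 ≤ d) (hd : ∃ i e, cf (F i) e ≠ 0 ∧ e.2 = d)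
    (hm : MultInf F d c m)
    {v : DVal L} {k : ℤ} (hk : WtProp ω v k) (hX : v.Int P.x) (hY : v.v P.y < 0)
    {i : Fin (N + 1)} (hi : x i ≠ 0) (hmin : ∀ j, x j ≠ 0 → v.v (x i) ≤ v.v (x j)) :
    (c : ℤ) * (v.v q + v.v (x i) - d * v.v P.y) ≤
      m * (v.v (ω.br P.x P.y) + k - 2 * v.v P.y) := by
  have hyne := P.y_ne
  by_cases hcon : ∃ c : ℂ, v.Pos (P.x - algebraMap ℂ L c)
  · obtain ⟨s, hs⟩ := hcon
    obtain ⟨R, hRx, hRy⟩ := P.trans s 0
    rw [map_zero, sub_zero] at hRy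
    have hFR := hF.trl s 0 R hRx (by rw [hRy, map_zero, sub_zero])
    obtain ⟨Q, G, hQx, hQy, hG, hexp⟩ := hFR.flip (d := d) (fun j e he => by
      obtain ⟨e', h1, h2, h3⟩ := cf_trl he
      have := hS j e' h3
      omega)
    have hs' : 0 < v.v Q.x := by
      rw [← hRx, ← hQx] at hs
      exact hs.resolve_left Q.x_ne
    have ht' : 0 < v.v Q.y := by
      rw [hQy, hRy, v.map_inv hyne]; omega
    have hbr : v.v (ω.br Q.x Q.y) = v.v (ω.br P.x P.y) - 2 * v.v P.y := by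
      rw [hQx, hQy, hRx, hRy, ω.sub_left, ω.const_left, sub_zero,
        v_br_flip ω v hyne (P.br_ne ω)]
    have hne := Q.br_ne ω
    have h0 := hk.br9 Q.x Q.y Q.x_ne Q.y_ne hne
    obtain ⟨j, e, he, hce⟩ := hm s
    have hGj := hexp j e he
    have hGj2 := hG.2 j
    have hGne : G j ≠ 0 := by
      intro h1
      rw [h1] at hGj
      exact hGj (by simp [cf])
    have hxj : x j ≠ 0 := by
      intro h1
      rw [h1, mul_zero] at hGj2
      exact Q.ne hGne hGj2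
    have h1 := skoda ω v k hk.br9 (v.v (ω.br Q.x Q.y) + k).toNat Q hs' ht' hne
      (by rw [Int.toNat_of_nonneg (by omega)]) _ _ hGj
    rw [hGj2, v.map_mul _ _ hG.1 hxj, hRy, v_q_chart v hyne hF.1, hbr] at h1
    rw [hbr] at h0
    dsimp only at h1
    have h2 := hmin j hxj
    have h3 : (c : ℤ) * (v.v q + v.v (x i) - d * v.v P.y) ≤
        c * ((e.1 + (d - e.2 : ℕ) : ℤ) * (v.v (ω.br P.x P.y) - 2 * v.v P.y + k)) :=
      mul_le_mul_of_nonneg_left (by linarith) (Int.natCast_nonneg _)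
    have h4 : ((c * (e.1 + (d - e.2)) : ℕ) : ℤ) ≤ m := by exact_mod_cast hce
    have h5 : ((c * (e.1 + (d - e.2)) : ℕ) : ℤ) * (v.v (ω.br P.x P.y) - 2 * v.v P.y + k) ≤
        m * (v.v (ω.br P.x P.y) - 2 * v.v P.y + k) :=
      mul_le_mul_of_nonneg_right h4 (by omega)
    rw [Nat.cast_mul, Nat.cast_add] at h5
    calc (c : ℤ) * (v.v q + v.v (x i) - d * v.v P.y) ≤ _ := h3
      _ = (c : ℤ) * (e.1 + (d - e.2 : ℕ) : ℤ) *
          (v.v (ω.br P.x P.y) - 2 * v.v P.y + k) := by ring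
      _ ≤ m * (v.v (ω.br P.x P.y) - 2 * v.v P.y + k) := h5
      _ = _ := by ring
  · obtain ⟨Q, G, hQx, hQy, hG, hexp⟩ := hF.flip hS
    have ht' : 0 < v.v Q.y := by
      rw [hQy, v.map_inv hyne]; omega
    have hXQ : v.Int Q.x := by rw [hQx]; exact hX
    have hconQ : ¬ ∃ c : ℂ, v.Pos (Q.x - algebraMap ℂ L c) := by rw [hQx]; exact hcon
    have h1 := hk.b2 Q hXQ (Or.inr ht'.le) (fun h => hconQ h.1)
    rw [hQx, hQy, v_br_flip ω v hyne (P.br_ne ω)] at h1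
    obtain ⟨j, e, he, hed⟩ := hd
    have hGj := hexp j e he
    rw [hed, Nat.sub_self] at hGj
    have h2 := val_of_coeff_zero v Q hXQ ht' hconQ hGj
    have hGne : G j ≠ 0 := by
      intro h1
      rw [h1] at hGj
      exact hGj (by simp [cf])
    have hxj : x j ≠ 0 := by
      intro h1
      have hGj2 := hG.2 j
      rw [h1, mul_zero] at hGj2
      exact Q.ne hGne hGj2
    rw [hG.2 j, v.map_mul _ _ hG.1 hxj, v_q_chart v hyne hF.1] at h2
    have h3 := hmin j hxj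
    have h4 : v.v (ω.br P.x P.y) + k - 2 * v.v P.y = 0 := by linarith
    rw [h4, mul_zero]
    exact mul_nonpos_of_nonneg_of_nonpos (Int.natCast_nonneg _) (by linarith)

/-- Equality at the valuations with nonconstant residue of `P.x` and a pole of `P.y`. -/
theorem curve_inf {ω : Bracket L} {x : Fin (N + 1) → L} {P : Coord L} {q : L}
    {F : Fin (N + 1) → ℂ[X][X]} (hF : Pol x P q F) {d : ℕ}
    (hS : ∀ i e, cf (F i) e ≠ 0 → e.2 ≤ d) (hd : ∃ i e, cf (F i) e ≠ 0 ∧ e.2 = d)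
    {v : DVal L} {k : ℤ} (hk : WtProp ω v k) (hX : v.Int P.x) (hY : v.v P.y < 0)
    (hcon : ¬ ∃ c : ℂ, v.Pos (P.x - algebraMap ℂ L c))
    {i : Fin (N + 1)} (hi : x i ≠ 0) (hmin : ∀ j, x j ≠ 0 → v.v (x i) ≤ v.v (x j)) :
    v.v q + v.v (x i) = d * v.v P.y ∧ v.v (ω.br P.x P.y) + k = 2 * v.v P.y := by
  have hyne := P.y_ne
  obtain ⟨Q, G, hQx, hQy, hG, hexp⟩ := hF.flip hS
  have ht' : 0 < v.v Q.y := by
    rw [hQy, v.map_inv hyne]; omega
  have hXQ : v.Int Q.x := by rw [hQx]; exact hX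
  have hconQ : ¬ ∃ c : ℂ, v.Pos (Q.x - algebraMap ℂ L c) := by rw [hQx]; exact hcon
  have h1 := hk.b2 Q hXQ (Or.inr ht'.le) (fun h => hconQ h.1)
  rw [hQx, hQy, v_br_flip ω v hyne (P.br_ne ω)] at h1
  obtain ⟨j, e, he, hed⟩ := hd
  have hGj := hexp j e he
  rw [hed, Nat.sub_self] at hGj
  have h2 := val_of_coeff_zero v Q hXQ ht' hconQ hGj
  have hGne : G j ≠ 0 := by
    intro h1
    rw [h1] at hGj
    exact hGj (by simp [cf])
  have hxj : x j ≠ 0 := by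
    intro h1
    have hGj2 := hG.2 j
    rw [h1, mul_zero] at hGj2
    exact Q.ne hGne hGj2
  rw [hG.2 j, v.map_mul _ _ hG.1 hxj, v_q_chart v hyne hF.1] at h2
  have h3 := hmin j hxj
  have h5 : v.Int ((q * (P.y ^ d)⁻¹) * x i) := by
    rw [← hG.2 i]
    exact v.int_ev hXQ (Or.inr ht'.le) _
  have h6 := h5.resolve_left (mul_ne_zero hG.1 hi)
  rw [v.map_mul _ _ hG.1 hi, v_q_chart v hyne hF.1] at h6
  constructor <;> linarith

theorem MinR.supp {x : Fin (N + 1) → L} {P : Coord L} {q : L} {d b n : ℕ}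
    (h : MinR x P q d b n) {F : Fin (N + 1) → ℂ[X][X]} (hF : Pol x P q F) : SuppR F d b n := by
  obtain ⟨⟨F', hF', hS⟩, -⟩ := h
  obtain rfl := hF.unique hF'
  exact hS

theorem MinR.ex_deg {ω : Bracket L} {x : Fin (N + 1) → L} (hx : Big ω x) {P : Coord L} {q : L}
    {d b n : ℕ} (h : MinR x P q d b n) {F : Fin (N + 1) → ℂ[X][X]} (hF : Pol x P q F) :
    ∃ i e, cf (F i) e ≠ 0 ∧ e.2 = d := by
  obtain ⟨F', hF', -, h1, -⟩ := ruled_nonneg (ex_ne hx) h.1 h.2.1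
  obtain rfl := hF.unique hF'
  exact h1

/-- THETA for a minimal ruled structure at the section `y = ∞`, parametric form. -/
theorem MinR.theta_inf {ω : Bracket L} {x : Fin (N + 1) → L} (hx : Big ω x) {P : Coord L}
    {q : L} {d b n : ℕ} (h : MinR x P q d b n) {F : Fin (N + 1) → ℂ[X][X]} (hF : Pol x P q F)
    {c m : ℕ} (hm : MultInf F d c m) {v : DVal L} {k : ℤ} (hk : WtProp ω v k)
    (hX : v.Int P.x) (hY : v.v P.y < 0) {i : Fin (N + 1)} (hi : x i ≠ 0)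
    (hmin : ∀ j, x j ≠ 0 → v.v (x i) ≤ v.v (x j)) :
    (c : ℤ) * (v.v q + v.v (x i) - d * v.v P.y) ≤
      m * (v.v (ω.br P.x P.y) + k - 2 * v.v P.y) :=
  LCY.theta_inf hF (fun j e he => (h.supp hF j e he).1) (h.ex_deg hx hF) hm hk hX hY hi hmin

/-- The values of the bracket in the chart `(1 / x, y / x ^ n)`. -/
theorem v_br_inv (ω : Bracket L) (v : DVal L) {x y : L} (hx : x ≠ 0)
    (h : ω.br x y ≠ 0) (n : ℕ) :
    v.v (ω.br x⁻¹ (y / x ^ n)) = v.v (ω.br x y) - (n + 2) * v.v x := by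
  have h1 : ω.br x⁻¹ (y / x ^ n) = - ((x ^ (n + 2))⁻¹ * ω.br x y) := by
    have h2 : ω.br x (x ^ n) = 0 := by
      rw [ω.skew, ω.pow_left, ω.alt]; ring
    rw [ω.inv_left hx, div_eq_mul_inv, ω.mul_right, ω.inv_right (pow_ne_zero _ hx), h2]
    field_simp
    ring
  have h3 : (x ^ (n + 2))⁻¹ ≠ 0 := inv_ne_zero (pow_ne_zero _ hx)
  rw [h1, v.map_neg (mul_ne_zero h3 h), v.map_mul _ _ h3 h, v.map_inv (pow_ne_zero _ hx),
    v.map_pow hx]
  push_cast; ring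

/-- THETA for a minimal ruled structure. -/
theorem MinR.theta {ω : Bracket L} {x : Fin (N + 1) → L} (hx : Big ω x) {P : Coord L}
    {q : L} {d b n : ℕ} (h : MinR x P q d b n) {v : DVal L} {k : ℤ} (hk : WtProp ω v k)
    {i : Fin (N + 1)} (hi : x i ≠ 0) (hmin : ∀ j, x j ≠ 0 → v.v (x i) ≤ v.v (x j)) :
    (2 * b - n * d - 2 * d : ℤ) * max 0 (-(v.v P.x)) ≤
      d * (v.v (ω.br P.x P.y) + k) - 2 * (v.v q + v.v (x i)) := by
  have key : ∀ (P : Coord L) (q : L), MinR x P q d b n → v.Int P.x →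
      0 ≤ d * (v.v (ω.br P.x P.y) + k) - 2 * (v.v q + v.v (x i)) := by
    intro P q h hX
    obtain ⟨F, hF, hS⟩ := h.1
    by_cases hY : v.v P.y < 0
    · have h1 := h.theta_inf hx hF (h.multInf hx hF) hk hX hY hi hmin
      push_cast at h1
      linarith
    · have h1 := h.theta_aff hx hF (h.multLE hx hF) hk hX (Or.inr (by omega)) hi hmin
      push_cast at h1
      linarith
  by_cases hX : 0 ≤ v.v P.x
  · rw [max_eq_left (by omega), mul_zero]
    exact key P q h (Or.inr hX)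
  · obtain ⟨Q, hQx, hQy, hQ⟩ := h.inv
    obtain ⟨F, hF, hS⟩ := h.1
    have h1 := key Q _ hQ (by rw [hQx]; right; rw [v.map_inv P.x_ne]; omega)
    rw [hQx, hQy, v_br_inv ω v P.x_ne (P.br_ne ω), v_q_chart v P.x_ne hF.1] at h1
    rw [max_eq_right (by omega)]
    linarith

/-- Equality at the valuations that are trivial on `ℂ(x)`. -/
theorem MinR.theta_eq {ω : Bracket L} {x : Fin (N + 1) → L} (hx : Big ω x) {P : Coord L}
    {q : L} {d b n : ℕ} (h : MinR x P q d b n) {v : DVal L} {k : ℤ} (hk : WtProp ω v k)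
    (hv : ∀ p : ℂ[X], p ≠ 0 → v.v (aeval P.x p) = 0)
    {i : Fin (N + 1)} (hi : x i ≠ 0) (hmin : ∀ j, x j ≠ 0 → v.v (x i) ≤ v.v (x j)) :
    d * (v.v (ω.br P.x P.y) + k) - 2 * (v.v q + v.v (x i)) = 0 := by
  have hX : v.Int P.x := by
    right
    have := hv X X_ne_zero
    rw [aeval_X] at this
    omega
  have hcon : ¬ ∃ c : ℂ, v.Pos (P.x - algebraMap ℂ L c) := by
    rintro ⟨c, hc⟩
    have h1 : aeval P.x (X - C c : ℂ[X]) = P.x - algebraMap ℂ L c := by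
      rw [map_sub, aeval_X, aeval_C]
    have h2 := hv (X - C c) (X_sub_C_ne_zero c)
    have h3 := P.trans_x (X_sub_C_ne_zero c)
    rw [h1] at h2 h3
    rcases hc with h4 | h4
    · exact h3 h4
    · omega
  obtain ⟨F, hF, hS⟩ := h.1
  by_cases hY : v.v P.y < 0
  · obtain ⟨h1, h2⟩ := curve_inf hF (fun j e he => (hS j e he).1) (h.ex_deg hx hF) hk hX hY
      hcon hi hmin
    rw [h1, h2]; ring
  · obtain ⟨h1, h2⟩ := h.curve_aff hx hk hX (Or.inr (by omega)) (fun hh => hcon hh.1) hi hmin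
    rw [h1, h2]; ring

/-- Trichotomy: the possible minimal structures. -/
theorem trichotomy {ω : Bracket L} (x : Fin (N + 1) → L) (hx : Big ω x) (P0 : Coord L) :
    (∃ P q d b n, MinR x P q d b n ∧ (2 * d + n * d < 2 * b)) ∨
    (∃ P q d, MinR x P q d d 0) ∨
    (∃ P q d, MinR x P q d (2 * d) 2) ∨
    ∃ P q a, MinP2 x P q a := by
  rcases exists_min x hx P0 with h | ⟨P, q, d, b, n, h⟩
  · exact Or.inr (Or.inr (Or.inr h))
  · have h1 := (h.c_nonneg hx).1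
    have h2 : (n + 2) * d = n * d + 2 * d := by ring
    by_cases hc : 2 * b = (n + 2) * d
    · rcases h.c_zero hx hc with ⟨rfl, rfl⟩ | ⟨rfl, rfl⟩
      · exact Or.inr (Or.inl ⟨P, q, _, h⟩)
      · exact Or.inr (Or.inr (Or.inl ⟨P, q, d, h⟩))
    · left
      exact ⟨P, q, d, b, n, h, by omega⟩

end

end LCY
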