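import Pool.Agent.Helper51.LCY.P4b

/-!
Step 1 of MP_f7e214_ag, part 3: the system of a minimal structure has no fixed curve.
-/

open Polynomial

namespace LCY

noncomputable section

variable {L : Type} [Field L] [Algebra ℂ L] {N : ℕ}

/-! ### Elimination -/

theorem isCoprime_aux {K : Type} [Field K] {p g : K[X]} (hp : Irreducible p) (hg : ¬ p ∣ g) :
    IsCoprime p g := (hp.coprime_iff_not_dvd).2 hg

/-- A prime `p` and a polynomial `g` that is not a multiple of `p` have a nonzero combination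
depending only on the first variable. -/
theorem elim_y {p g : ℂ[X][X]} (hp : Prime p) (hg : ¬ p ∣ g) :
    ∃ (r : ℂ[X]) (A B : ℂ[X][X]), r ≠ 0 ∧ C r = A * p + B * g := by
  by_cases h0 : p.natDegree = 0
  · refine ⟨p.coeff 0, 1, 0, ?_, ?_⟩
    · intro h
      apply hp.ne_zero
      rw [eq_C_of_natDegree_eq_zero h0, h, C_0]
    · rw [← eq_C_of_natDegree_eq_zero h0]; ring
  · have hpr : p.IsPrimitive := hp.irreducible.isPrimitive h0
    have hirr : Irreducible (p.map (algebraMap ℂ[X] (FractionRing ℂ[X]))) :=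
      hpr.irreducible_iff_irreducible_map_fraction_map.1 hp.irreducible
    have hnd : ¬ p.map (algebraMap ℂ[X] (FractionRing ℂ[X])) ∣
        g.map (algebraMap ℂ[X] (FractionRing ℂ[X])) :=
      fun h => hg (hpr.dvd_of_fraction_map_dvd_fraction_map h)
    obtain ⟨a, b, hab⟩ := isCoprime_aux hirr hnd
    obtain ⟨c, hc, hc2⟩ := IsLocalization.integerNormalization_spec (nonZeroDivisors ℂ[X]) a
    obtain ⟨d, hd, hd2⟩ := IsLocalization.integerNormalization_spec (nonZeroDivisors ℂ[X]) b
    refine ⟨c * d, C d * IsLocalization.integerNormalization (nonZeroDivisors ℂ[X]) a,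
      C c * IsLocalization.integerNormalization (nonZeroDivisors ℂ[X]) b, ?_, ?_⟩
    · exact mul_ne_zero (nonZeroDivisors.ne_zero hc) (nonZeroDivisors.ne_zero hd)
    · apply map_injective (algebraMap ℂ[X] (FractionRing ℂ[X])) (IsFractionRing.injective _ _)
      rw [Polynomial.map_add, Polynomial.map_mul, Polynomial.map_mul, Polynomial.map_mul,
        Polynomial.map_mul, hc2, hd2, map_C, map_C, map_C, Algebra.smul_def, Algebra.smul_def,
        Polynomial.algebraMap_apply, Polynomial.algebraMap_apply, map_mul, map_mul]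
      linear_combination (-(C (algebraMap ℂ[X] (FractionRing ℂ[X]) c) *
        C (algebraMap ℂ[X] (FractionRing ℂ[X]) d))) * hab

theorem ev_swap (x y : L) (f : ℂ[X][X]) : ev y x (Bivariate.swap f) = ev x y f := by
  have h : (ev y x).comp ((Bivariate.swap : ℂ[X][X] ≃ₐ[ℂ] ℂ[X][X]) : ℂ[X][X] →+* ℂ[X][X]) =
      ev x y := by
    refine Polynomial.ringHom_ext ?_ ?_
    · intro p
      show ev y x (Bivariate.swap (C p)) = ev x y (C p)
      rw [Bivariate.swap_C, ev_mapC, ev_C]
    · show ev y x (Bivariate.swap X) = ev x y X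
      rw [Bivariate.swap_Y, ev_CX, ev_X]
  exact RingHom.congr_fun h f

/-- The same with a combination depending only on the second variable. -/
theorem elim_x {p g : ℂ[X][X]} (hp : Prime p) (hg : ¬ p ∣ g) :
    ∃ (r : ℂ[X]) (A B : ℂ[X][X]), r ≠ 0 ∧ r.map C = A * p + B * g := by
  have hp' : Prime (Bivariate.swap p : ℂ[X][X]) :=
    (MulEquiv.prime_iff (Bivariate.swap (R := ℂ)).toMulEquiv).2 hp
  have hg' : ¬ (Bivariate.swap p : ℂ[X][X]) ∣ Bivariate.swap g := by
    rw [map_dvd_iff]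
    exact hg
  obtain ⟨r, A, B, hr, h⟩ := elim_y hp' hg'
  refine ⟨r, Bivariate.swap A, Bivariate.swap B, hr, ?_⟩
  have h2 := congrArg (Bivariate.swap (R := ℂ)) h
  rw [Bivariate.swap_C, map_add, map_mul, map_mul, Bivariate.swap_swap_apply,
    Bivariate.swap_swap_apply] at h2
  exact h2

/-! ### Centres of valuations on the affine plane -/

theorem pos_of_mul (v : DVal L) {a b : L} (ha : v.Int a) (hb : v.Int b) (h : v.Pos (a * b)) :
    v.Pos a ∨ v.Pos b := by
  by_cases h1 : a = 0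
  · exact Or.inl (Or.inl h1)
  by_cases h2 : b = 0
  · exact Or.inr (Or.inl h2)
  have h3 := h.resolve_left (mul_ne_zero h1 h2)
  rw [v.map_mul a b h1 h2] at h3
  have h4 := ha.resolve_left h1
  have h5 := hb.resolve_left h2
  by_cases h6 : 0 < v.v a
  · exact Or.inl (Or.inr h6)
  · exact Or.inr (Or.inr (by omega))

theorem const_of_pos (v : DVal L) {t : L} (ht : ∀ P : ℂ[X], P ≠ 0 → aeval t P ≠ 0) {r : ℂ[X]}
    (hr : r ≠ 0) (h : v.Pos (aeval t r)) : ∃ c : ℂ, v.Pos (t - algebraMap ℂ L c) := by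
  obtain ⟨c, hc⟩ := v.exists_const ht r.natDegree r le_rfl hr (h.resolve_left (ht r hr))
  exact ⟨c, Or.inr hc⟩

/-- If the residues of the coordinates are not both constant and some nonzero polynomial has
positive value, then there is a prime polynomial dividing all polynomials of positive value. -/
theorem exists_prime_centre (v : DVal L) (P : Coord L) (hx : v.Int P.x) (hy : v.Int P.y)
    (hnc : ¬ ((∃ c : ℂ, v.Pos (P.x - algebraMap ℂ L c)) ∧
      ∃ c : ℂ, v.Pos (P.y - algebraMap ℂ L c)))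
    {f0 : ℂ[X][X]} (hf0 : f0 ≠ 0) (hpos : v.Pos (ev P.x P.y f0)) :
    ∃ p : ℂ[X][X], Prime p ∧ v.Pos (ev P.x P.y p) ∧
      ∀ g, v.Pos (ev P.x P.y g) → p ∣ g := by
  have h1 : ∀ f : ℂ[X][X], f ≠ 0 → v.Pos (ev P.x P.y f) →
      ∃ p : ℂ[X][X], Prime p ∧ v.Pos (ev P.x P.y p) := by
    intro f
    induction f using UniqueFactorizationMonoid.induction_on_prime with
    | h₁ => intro h; exact absurd rfl h
    | h₂ u hu =>
      intro _ h
      exfalso
      obtain ⟨w, hw⟩ := hu.exists_right_inv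
      have h2 : v.Pos (ev P.x P.y (u * w)) := by
        rw [map_mul]
        exact v.pos_mul_int h (v.int_ev hx hy w)
      rw [hw, map_one] at h2
      exact v.not_pos_one h2
    | h₃ a p ha hp ih =>
      intro _ h
      rw [map_mul] at h
      rcases pos_of_mul v (v.int_ev hx hy p) (v.int_ev hx hy a) h with h2 | h2
      · exact ⟨p, hp, h2⟩
      · exact ih ha h2
  obtain ⟨p, hp, hpp⟩ := h1 f0 hf0 hpos
  refine ⟨p, hp, hpp, ?_⟩
  intro g hg
  by_contra hnd
  apply hnc
  constructor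
  · obtain ⟨r, A, B, hr, h⟩ := elim_y hp hnd
    refine const_of_pos v (fun s hs => P.trans_x hs) hr ?_
    rw [← ev_C P.x P.y, h, map_add, map_mul, map_mul]
    exact v.pos_add (by rw [mul_comm]; exact v.pos_mul_int hpp (v.int_ev hx hy A))
      (by rw [mul_comm]; exact v.pos_mul_int hg (v.int_ev hx hy B))
  · obtain ⟨r, A, B, hr, h⟩ := elim_x hp hnd
    refine const_of_pos v (fun s hs => P.trans_y hs) hr ?_
    rw [← ev_mapC P.x P.y, h, map_add, map_mul, map_mul]
    exact v.pos_add (by rw [mul_comm]; exact v.pos_mul_int hpp (v.int_ev hx hy A))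
      (by rw [mul_comm]; exact v.pos_mul_int hg (v.int_ev hx hy B))

/-! ### Additivity of weighted degrees -/

/-- The homomorphism that records the weights `α`, `β` of the two variables. -/
def phi (α β : ℕ) : ℂ[X][X] →+* ℂ[X][X][X] :=
  eval₂RingHom (eval₂RingHom ((C : ℂ[X][X] →+* ℂ[X][X][X]).comp
    ((C : ℂ[X] →+* ℂ[X][X]).comp (C : ℂ →+* ℂ[X]))) (C (C X) * X ^ α : ℂ[X][X][X]) :
      ℂ[X] →+* ℂ[X][X][X]) (C X * X ^ β : ℂ[X][X][X])

theorem phi_monomial (α β i j : ℕ) (c : ℂ) :
    phi α β (monomial j (monomial i c)) =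
      monomial (α * i + β * j) (monomial j (monomial i c)) := by
  unfold phi
  rw [coe_eval₂RingHom, eval₂_monomial, coe_eval₂RingHom, eval₂_monomial]
  rw [← C_mul_X_pow_eq_monomial (n := α * i + β * j), ← C_mul_X_pow_eq_monomial (n := j),
    ← C_mul_X_pow_eq_monomial (n := i)]
  simp only [RingHom.comp_apply, mul_pow, C_mul, C_pow, ← pow_mul, pow_add]
  ring

theorem coeff_phi (α β : ℕ) (f : ℂ[X][X]) (k : ℕ) (e : ℕ × ℕ) :
    cf ((phi α β f).coeff k) e = if α * e.1 + β * e.2 = k then cf f e else 0 := by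
  have h1 : phi α β f = ∑ e' ∈ bs f,
      monomial (α * e'.1 + β * e'.2) (monomial e'.2 (monomial e'.1 (cf f e'))) := by
    conv_lhs => rw [eq_sum_bs f]
    rw [map_sum]
    exact Finset.sum_congr rfl fun e' _ => phi_monomial _ _ _ _ _
  have h2 : ∀ e' : ℕ × ℕ, cf ((monomial (α * e'.1 + β * e'.2)
      (monomial e'.2 (monomial e'.1 (cf f e'))) : ℂ[X][X][X]).coeff k) e =
      if e' = e then (if α * e.1 + β * e.2 = k then cf f e else 0) else 0 := by
    intro e'
    rw [coeff_monomial]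
    by_cases h3 : e' = e
    · subst h3
      rw [if_pos rfl]
      split_ifs with h4
      · unfold cf; rw [coeff_monomial, if_pos rfl, coeff_monomial, if_pos rfl]
      · simp [cf]
    · rw [if_neg h3]
      split_ifs with h4
      · unfold cf
        rw [coeff_monomial]
        split_ifs with h5
        · rw [coeff_monomial, if_neg]
          intro h6
          exact h3 (Prod.ext h6 h5)
        · simp
      · simp [cf]
  have h5 : cf ((phi α β f).coeff k) e = ∑ e' ∈ bs f, cf ((monomial (α * e'.1 + β * e'.2)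
      (monomial e'.2 (monomial e'.1 (cf f e'))) : ℂ[X][X][X]).coeff k) e := by
    rw [h1]
    unfold cf
    rw [finsetSum_coeff, finsetSum_coeff, finsetSum_coeff]
  rw [h5, Finset.sum_congr rfl fun e' _ => h2 e']
  rw [Finset.sum_ite_eq']
  split_ifs with h6 h7 h7
  · rfl
  · rfl
  · rw [mem_bs, not_not] at h6
    exact h6.symm
  · rfl

theorem phi_natDegree_le {α β : ℕ} {f : ℂ[X][X]} {n : ℕ}
    (h : ∀ e, cf f e ≠ 0 → α * e.1 + β * e.2 ≤ n) : (phi α β f).natDegree ≤ n := by
  rw [natDegree_le_iff_coeff_eq_zero]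
  intro k hk
  refine cf_eq_zero fun e => ?_
  rw [coeff_phi]
  split_ifs with h1
  · by_contra h2
    have := h e h2
    omega
  · rfl

theorem le_phi_natDegree {α β : ℕ} {f : ℂ[X][X]} {e : ℕ × ℕ} (h : cf f e ≠ 0) :
    α * e.1 + β * e.2 ≤ (phi α β f).natDegree := by
  refine le_natDegree_of_ne_zero fun h0 => h ?_
  have h1 := coeff_phi α β f (α * e.1 + β * e.2) e
  rw [if_pos rfl, h0] at h1
  rw [← h1]
  simp [cf]

theorem phi_ne {α β : ℕ} {f : ℂ[X][X]} (h : f ≠ 0) : phi α β f ≠ 0 := by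
  obtain ⟨e, he⟩ := exists_cf_ne h
  intro h0
  apply he
  have h1 := coeff_phi α β f (α * e.1 + β * e.2) e
  rw [if_pos rfl, h0] at h1
  rw [← h1]
  simp [cf]

/-- Weights of the factors. -/
theorem weight_mul {α β : ℕ} {f g : ℂ[X][X]} {n : ℕ} {e e' : ℕ × ℕ}
    (h : ∀ e, cf (f * g) e ≠ 0 → α * e.1 + β * e.2 ≤ n) (he : cf f e ≠ 0) (he' : cf g e' ≠ 0) :
    (α * e.1 + β * e.2) + (α * e'.1 + β * e'.2) ≤ n := by
  have hf : f ≠ 0 := by
    rintro rfl
    exact he (by simp [cf])
  have hg : g ≠ 0 := by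
    rintro rfl
    exact he' (by simp [cf])
  have h1 := phi_natDegree_le h
  rw [map_mul, natDegree_mul (phi_ne hf) (phi_ne hg)] at h1
  have h2 := le_phi_natDegree (α := α) (β := β) he
  have h3 := le_phi_natDegree (α := α) (β := β) he'
  omega

/-- A prime polynomial has a nonconstant monomial. -/
theorem Prime.ex_exp {p : ℂ[X][X]} (hp : Prime p) : ∃ e, cf p e ≠ 0 ∧ 1 ≤ e.1 + e.2 := by
  by_contra hcon
  push Not at hcon
  apply hp.not_isUnit
  have h1 : p = C (C (cf p (0, 0))) := by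
    refine cf_ext fun e => ?_
    by_cases he : e = (0, 0)
    · rw [he]; unfold cf; rw [coeff_C_zero, coeff_C_zero]
    · have h2 : cf p e = 0 := by
        by_contra h3
        have h4 := hcon e h3
        exact he (Prod.ext (by simp; omega) (by simp; omega))
      rw [h2]
      unfold cf
      rw [coeff_C]
      split_ifs with h5
      · rw [coeff_C, if_neg]
        intro h6
        exact he (Prod.ext h6 h5)
      · simp
  rw [h1]
  refine (isUnit_C.2 (isUnit_C.2 (isUnit_iff_ne_zero.2 fun h0 => ?_)))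
  rw [h0, C_0, C_0] at h1
  exact hp.ne_zero h1

/-! ### No fixed curves -/

/-- The setting: a structure with a common prime factor can be reduced. -/
theorem Pol.divide {x : Fin (N + 1) → L} {P : Coord L} {q : L} {F : Fin (N + 1) → ℂ[X][X]}
    (hF : Pol x P q F) {p : ℂ[X][X]} (hp : Prime p) (h : ∀ i, p ∣ F i) :
    ∃ q' G, Pol x P q' G ∧ ∀ i, F i = p * G i := by
  choose G hG using h
  have hne := P.ne hp.ne_zero
  refine ⟨q / ev P.x P.y p, G, ⟨div_ne_zero hF.1 hne, ?_⟩, hG⟩
  intro i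
  have h1 := hF.2 i
  rw [hG i, map_mul] at h1
  field_simp
  linear_combination h1

theorem MinP2.gcd {ω : Bracket L} {x : Fin (N + 1) → L} (hx : Big ω x) {P : Coord L} {q : L}
    {a : ℕ} (h : MinP2 x P q a) (v : DVal L) (hX : v.Int P.x) (hY : v.Int P.y)
    (hnc : ¬ ((∃ c : ℂ, v.Pos (P.x - algebraMap ℂ L c)) ∧
      ∃ c : ℂ, v.Pos (P.y - algebraMap ℂ L c))) :
    ∃ i, x i ≠ 0 ∧ v.v (q * x i) = 0 := by
  by_contra hcon
  push Not at hcon
  have ha : 0 < a := h.1.pos hx
  obtain ⟨⟨F, hF, hS⟩, hLB⟩ := h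
  have hpos : ∀ i, v.Pos (ev P.x P.y (F i)) := by
    intro i
    rcases v.int_ev hX hY (F i) with h1 | h1
    · exact Or.inl h1
    · rw [hF.2 i] at h1 ⊢
      by_cases h2 : x i = 0
      · left; rw [h2, mul_zero]
      · right
        have := hcon i h2
        omega
  obtain ⟨i0, hi0⟩ := ex_ne hx
  obtain ⟨e0, he0⟩ := hF.ex_exp hi0
  have hF0 : F i0 ≠ 0 := by
    intro h0
    rw [h0] at he0
    exact he0 (by simp [cf])
  obtain ⟨p, hp, -, hdvd⟩ := exists_prime_centre v P hX hY hnc hF0 (hpos i0)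
  obtain ⟨q', G, hG, hFG⟩ := hF.divide hp fun i => hdvd _ (hpos i)
  obtain ⟨ep, hep, hep1⟩ := Prime.ex_exp hp
  have hR : P2S x P q' (a - 1) := by
    refine ⟨G, hG, fun i e he => ?_⟩
    have h1 := weight_mul (α := 1) (β := 1) (f := p) (g := G i) (n := a) (fun e' he' => by
      rw [← hFG i] at he'
      have := hS i e' he'
      omega) hep he
    omega
  have := hLB.1 _ _ _ hR
  omega

theorem MinR.gcd {ω : Bracket L} {x : Fin (N + 1) → L} (hx : Big ω x) {P : Coord L} {q : L}
    {d b n : ℕ} (h : MinR x P q d b n) (v : DVal L) (hX : v.Int P.x) (hY : v.Int P.y)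
    (hnc : ¬ ((∃ c : ℂ, v.Pos (P.x - algebraMap ℂ L c)) ∧
      ∃ c : ℂ, v.Pos (P.y - algebraMap ℂ L c))) :
    ∃ i, x i ≠ 0 ∧ v.v (q * x i) = 0 := by
  by_contra hcon
  push Not at hcon
  have hd : 0 < d := h.1.pos hx
  obtain ⟨⟨F, hF, hS⟩, hLB, hP, hA⟩ := h
  have hpos : ∀ i, v.Pos (ev P.x P.y (F i)) := by
    intro i
    rcases v.int_ev hX hY (F i) with h1 | h1
    · exact Or.inl h1
    · rw [hF.2 i] at h1 ⊢
      by_cases h2 : x i = 0
      · left; rw [h2, mul_zero]
      · right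
        have := hcon i h2
        omega
  obtain ⟨i0, hi0⟩ := ex_ne hx
  obtain ⟨e0, he0⟩ := hF.ex_exp hi0
  have hF0 : F i0 ≠ 0 := by
    intro h0
    rw [h0] at he0
    exact he0 (by simp [cf])
  obtain ⟨p, hp, -, hdvd⟩ := exists_prime_centre v P hX hY hnc hF0 (hpos i0)
  obtain ⟨q', G, hG, hFG⟩ := hF.divide hp fun i => hdvd _ (hpos i)
  have w1 : ∀ ep, cf p ep ≠ 0 → ∀ i e, cf (G i) e ≠ 0 → ep.2 + e.2 ≤ d := by
    intro ep hep i e he
    have h1 := weight_mul (α := 0) (β := 1) (f := p) (g := G i) (n := d) (fun e' he' => by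
      rw [← hFG i] at he'
      have := hS i e' he'
      omega) hep he
    omega
  have w2 : ∀ ep, cf p ep ≠ 0 → ∀ i e, cf (G i) e ≠ 0 →
      (ep.1 + n * ep.2) + (e.1 + n * e.2) ≤ b := by
    intro ep hep i e he
    have h1 := weight_mul (α := 1) (β := n) (f := p) (g := G i) (n := b) (fun e' he' => by
      rw [← hFG i] at he'
      have := hS i e' he'
      omega) hep he
    omega
  by_cases hcase : ∃ ep, cf p ep ≠ 0 ∧ 1 ≤ ep.2
  · obtain ⟨ep, hep, hep1⟩ := hcase
    have hR : RS x P q' (d - 1) b n := by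
      refine ⟨G, hG, fun i e he => ?_⟩
      have h1 := w1 ep hep i e he
      have h2 := w2 ep hep i e he
      constructor <;> omega
    have := hLB.2 _ _ _ _ _ hR
    omega
  · push Not at hcase
    obtain ⟨ep, hep, hep1⟩ := Prime.ex_exp hp
    have h0 := hcase ep hep
    have hb : ep.1 ≤ b := by
      have h1 : cf (F i0) e0 ≠ 0 := he0
      have hG0 : G i0 ≠ 0 := by
        intro h2
        apply hF0
        rw [hFG i0, h2, mul_zero]
      obtain ⟨e1, he1⟩ := exists_cf_ne hG0
      have := w2 ep hep i0 e1 he1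
      omega
    have hR : RS x P q' d (b - 1) n := by
      refine ⟨G, hG, fun i e he => ?_⟩
      have h1 := w1 ep hep i e he
      have h2 := w2 ep hep i e he
      constructor <;> omega
    have h3 := hA _ _ _ _ hR
    have h4 : ((b - 1 : ℕ) : ℤ) = b - 1 := by omega
    rw [h4] at h3
    linarith

end

end LCY
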