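import Mathlib
import Pool.Agent.Helper27.LCY.Abs

/-!
Step 1 of MP_f7e214_ag, part 1: polynomials in two variables evaluated in a field.
-/

open Polynomial

namespace LCY

noncomputable section

variable {L : Type} [Field L] [Algebra ℂ L]

/-- The coefficient of `X ^ e.1 * Y ^ e.2`. -/
def cf (f : ℂ[X][X]) (e : ℕ × ℕ) : ℂ := (f.coeff e.2).coeff e.1

/-- The set of exponents of a polynomial in two variables. -/
def bs (f : ℂ[X][X]) : Finset (ℕ × ℕ) :=
  f.support.biUnion (fun j => (f.coeff j).support.image (fun i => (i, j)))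

theorem mem_bs {f : ℂ[X][X]} {e : ℕ × ℕ} : e ∈ bs f ↔ cf f e ≠ 0 := by
  unfold bs cf
  constructor
  · intro h
    rw [Finset.mem_biUnion] at h
    obtain ⟨j, hj, h⟩ := h
    rw [Finset.mem_image] at h
    obtain ⟨i, hi, rfl⟩ := h
    exact mem_support_iff.1 hi
  · intro h
    rw [Finset.mem_biUnion]
    refine ⟨e.2, ?_, ?_⟩
    · rw [mem_support_iff]
      intro h0
      rw [h0] at h
      simp at h
    · rw [Finset.mem_image]
      exact ⟨e.1, mem_support_iff.2 h, rfl⟩

/-- Evaluation of a polynomial in two variables. -/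
def ev (x y : L) : ℂ[X][X] →+* L := eval₂RingHom (aeval x : ℂ[X] →ₐ[ℂ] L).toRingHom y

theorem ev_apply (x y : L) (f : ℂ[X][X]) :
    ev x y f = eval₂ (aeval x : ℂ[X] →ₐ[ℂ] L).toRingHom y f := rfl

@[simp] theorem ev_X (x y : L) : ev x y X = y := by
  rw [ev_apply, eval₂_X]

@[simp] theorem ev_C (x y : L) (p : ℂ[X]) : ev x y (C p) = aeval x p := by
  rw [ev_apply, eval₂_C]; rfl

theorem ev_CX (x y : L) : ev x y (C X) = x := by
  rw [ev_C, aeval_X]

theorem ev_CC (x y : L) (c : ℂ) : ev x y (C (C c)) = algebraMap ℂ L c := by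
  rw [ev_C, aeval_C]

theorem ev_monomial (x y : L) (i j : ℕ) (c : ℂ) :
    ev x y (monomial j (monomial i c)) = algebraMap ℂ L c * x ^ i * y ^ j := by
  rw [ev_apply, eval₂_monomial]
  congr 1
  exact aeval_monomial _

theorem eq_sum_bs (f : ℂ[X][X]) :
    f = ∑ e ∈ bs f, monomial e.2 (monomial e.1 (cf f e)) := by
  refine Polynomial.ext fun j => Polynomial.ext fun i => ?_
  rw [finsetSum_coeff, finsetSum_coeff]
  by_cases h : (i, j) ∈ bs f
  · rw [Finset.sum_eq_single (i, j)]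
    · rw [coeff_monomial, if_pos rfl, coeff_monomial, if_pos rfl]; rfl
    · intro e _ he
      rw [coeff_monomial]
      split_ifs with h2
      · rw [coeff_monomial, if_neg]
        intro h1
        exact he (Prod.ext h1 h2)
      · simp
    · intro h'; exact absurd h h'
  · rw [Finset.sum_eq_zero]
    · by_contra h'
      exact h (mem_bs.2 h')
    · intro e he
      rw [coeff_monomial]
      split_ifs with h2
      · rw [coeff_monomial, if_neg]
        intro h1
        exact h (by rwa [← Prod.ext (x := e) (y := (i, j)) h1 h2])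
      · simp

theorem ev_eq_sum (x y : L) (f : ℂ[X][X]) :
    ev x y f = ∑ e ∈ bs f, algebraMap ℂ L (cf f e) * x ^ e.1 * y ^ e.2 := by
  conv_lhs => rw [eq_sum_bs f]
  rw [map_sum]
  exact Finset.sum_congr rfl fun e _ => ev_monomial _ _ _ _ _

theorem cf_ext {f g : ℂ[X][X]} (h : ∀ e, cf f e = cf g e) : f = g :=
  Polynomial.ext fun j => Polynomial.ext fun i => h (i, j)

theorem cf_eq_zero {f : ℂ[X][X]} (h : ∀ e, cf f e = 0) : f = 0 :=
  cf_ext fun e => by rw [h e]; simp [cf]

theorem exists_cf_ne {f : ℂ[X][X]} (h : f ≠ 0) : ∃ e, cf f e ≠ 0 := by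
  by_contra h'
  push Not at h'
  exact h (cf_eq_zero h')

/-- Monomial change of coordinates. -/
theorem toric (f : ℂ[X][X]) (τ : ℕ × ℕ → ℕ × ℕ)
    (hinj : ∀ e e', cf f e ≠ 0 → cf f e' ≠ 0 → τ e = τ e' → e = e') :
    ∃ f' : ℂ[X][X], (∀ e, cf f e ≠ 0 → cf f' (τ e) = cf f e) ∧
      (∀ e', cf f' e' ≠ 0 → ∃ e, cf f e ≠ 0 ∧ τ e = e') ∧
      ∀ (K : Type) [Field K] [Algebra ℂ K] (x y x' y' g : K),
        (∀ e, cf f e ≠ 0 → g * (x ^ e.1 * y ^ e.2) = x' ^ (τ e).1 * y' ^ (τ e).2) →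
        ev x' y' f' = g * ev x y f := by
  refine ⟨∑ e ∈ bs f, monomial (τ e).2 (monomial (τ e).1 (cf f e)), ?_, ?_, ?_⟩
  · intro e he
    unfold cf
    rw [finsetSum_coeff, finsetSum_coeff, Finset.sum_eq_single e]
    · rw [coeff_monomial, if_pos rfl, coeff_monomial, if_pos rfl]
    · intro e1 h1 hne
      rw [coeff_monomial]
      split_ifs with h2
      · rw [coeff_monomial, if_neg]
        intro h3
        exact hne (hinj _ _ (mem_bs.1 h1) he (Prod.ext h3 h2))
      · simp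
    · intro h'; exact absurd (mem_bs.2 he) h'
  · intro e' he'
    by_contra hcon
    push Not at hcon
    apply he'
    unfold cf
    rw [finsetSum_coeff, finsetSum_coeff, Finset.sum_eq_zero]
    intro e he
    rw [coeff_monomial]
    split_ifs with h2
    · rw [coeff_monomial, if_neg]
      intro h3
      exact hcon e (mem_bs.1 he) (Prod.ext h3 h2)
    · simp
  · intro K _ _ x y x' y' g h
    rw [map_sum, ev_eq_sum x y f, Finset.mul_sum]
    refine Finset.sum_congr rfl fun e he => ?_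
    rw [ev_monomial, mul_assoc, ← h e (mem_bs.1 he)]
    ring

/-- A pair of coordinates: `L = ℂ(x, y)` with `x, y` algebraically independent. -/
structure Coord (L : Type) [Field L] [Algebra ℂ L] where
  /-- first coordinate -/
  x : L
  /-- second coordinate -/
  y : L
  inj : ∀ f : ℂ[X][X], ev x y f = 0 → f = 0
  surj : ∀ z : L, ∃ f g : ℂ[X][X], g ≠ 0 ∧ z = ev x y f / ev x y g

theorem Coord.ne (P : Coord L) {f : ℂ[X][X]} (hf : f ≠ 0) : ev P.x P.y f ≠ 0 :=
  fun h => hf (P.inj f h)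

theorem Coord.x_ne (P : Coord L) : P.x ≠ 0 := by
  intro h
  have h1 := P.inj (C X) (by rw [ev_CX, h])
  rw [C_eq_zero] at h1
  exact X_ne_zero h1

theorem Coord.y_ne (P : Coord L) : P.y ≠ 0 := by
  intro h
  exact X_ne_zero (P.inj X (by rw [ev_X, h]))

/-- Construction of a new pair of coordinates: each pair is contained in the subfield generated
by the other, in the strong form needed here. -/
theorem Coord.mk' (P : Coord L) (x' y' : L)
    (h : ∀ f : ℂ[X][X], f ≠ 0 → ∃ (f' : ℂ[X][X]) (g : L), f' ≠ 0 ∧ g ≠ 0 ∧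
      ev x' y' f = g * ev P.x P.y f')
    (h' : ∀ f : ℂ[X][X], ∃ (f' g' : ℂ[X][X]), g' ≠ 0 ∧
      ev P.x P.y f = ev x' y' f' / ev x' y' g') :
    ∃ Q : Coord L, Q.x = x' ∧ Q.y = y' := by
  have hinj : ∀ f : ℂ[X][X], ev x' y' f = 0 → f = 0 := by
    intro f hf
    by_contra hne
    obtain ⟨f', g, hf', hg, he⟩ := h f hne
    rw [hf] at he
    rcases mul_eq_zero.1 he.symm with h1 | h1
    · exact hg h1
    · exact P.ne hf' h1
  refine ⟨⟨x', y', hinj, ?_⟩, rfl, rfl⟩
  intro z
  obtain ⟨f, g, hg, hz⟩ := P.surj z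
  obtain ⟨f1, g1, hg1, e1⟩ := h' f
  obtain ⟨f2, g2, hg2, e2⟩ := h' g
  have hne : ∀ k : ℂ[X][X], k ≠ 0 → ev x' y' k ≠ 0 := fun k hk h0 => hk (hinj k h0)
  have hf2 : f2 ≠ 0 := by
    intro h0
    rw [h0, map_zero, zero_div] at e2
    exact P.ne hg e2
  refine ⟨f1 * g2, g1 * f2, mul_ne_zero hg1 hf2, ?_⟩
  rw [hz, e1, e2, map_mul, map_mul]
  have a1 := hne _ hg1
  have a2 := hne _ hg2
  have a3 := hne _ hf2
  field_simp

end

end LCY
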