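import Pool.Agent.Helper51.LCY.P1

/-!
Step 1 of MP_f7e214_ag, part 1b: monomial changes of coordinates and translations.
-/

open Polynomial

namespace LCY

noncomputable section

variable {L : Type} [Field L] [Algebra ℂ L]

/-- Monomial change of coordinates `x' = x ^ a * y ^ b`, `y' = x ^ c * y ^ d`, followed by the
multiplication by `x ^ p * y ^ q`. -/
theorem toricZ (f : ℂ[X][X]) (a b c d p q : ℤ) (hdet : a * d - b * c = 1 ∨ a * d - b * c = -1)
    (hpos : ∀ e, cf f e ≠ 0 → 0 ≤ a * e.1 + c * e.2 + p ∧ 0 ≤ b * e.1 + d * e.2 + q) :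
    ∃ f' : ℂ[X][X],
      (∀ e, cf f e ≠ 0 → ∃ e' : ℕ × ℕ, (e'.1 : ℤ) = a * e.1 + c * e.2 + p ∧
        (e'.2 : ℤ) = b * e.1 + d * e.2 + q ∧ cf f' e' = cf f e) ∧
      (∀ e', cf f' e' ≠ 0 → ∃ e, cf f e ≠ 0 ∧ (e'.1 : ℤ) = a * e.1 + c * e.2 + p ∧
        (e'.2 : ℤ) = b * e.1 + d * e.2 + q) ∧
      ∀ (K : Type) [Field K] [Algebra ℂ K] (x y : K), x ≠ 0 → y ≠ 0 →
        ev x y f' = x ^ p * y ^ q * ev (x ^ a * y ^ b) (x ^ c * y ^ d) f := by
  obtain ⟨f', h1, h2, h3⟩ := toric f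
    (fun e => ((a * e.1 + c * e.2 + p).toNat, (b * e.1 + d * e.2 + q).toNat)) (by
      intro e e' he he' h
      have g1 := hpos e he
      have g2 := hpos e' he'
      have k1 : (a * e.1 + c * e.2 + p).toNat = (a * e'.1 + c * e'.2 + p).toNat :=
        congrArg Prod.fst h
      have k2 : (b * e.1 + d * e.2 + q).toNat = (b * e'.1 + d * e'.2 + q).toNat :=
        congrArg Prod.snd h
      have l1 : a * e.1 + c * e.2 + p = a * e'.1 + c * e'.2 + p := by
        rw [← Int.toNat_of_nonneg g1.1, ← Int.toNat_of_nonneg g2.1, k1]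
      have l2 : b * e.1 + d * e.2 + q = b * e'.1 + d * e'.2 + q := by
        rw [← Int.toNat_of_nonneg g1.2, ← Int.toNat_of_nonneg g2.2, k2]
      have m1 : (a * d - b * c) * ((e.1 : ℤ) - e'.1) = 0 := by linear_combination d * l1 - c * l2
      have m2 : (a * d - b * c) * ((e.2 : ℤ) - e'.2) = 0 := by linear_combination a * l2 - b * l1
      have hne : a * d - b * c ≠ 0 := by rcases hdet with h | h <;> rw [h] <;> norm_num
      have n1 : (e.1 : ℤ) - e'.1 = 0 := (mul_eq_zero.1 m1).resolve_left hne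
      have n2 : (e.2 : ℤ) - e'.2 = 0 := (mul_eq_zero.1 m2).resolve_left hne
      exact Prod.ext (by omega) (by omega))
  refine ⟨f', ?_, ?_, ?_⟩
  · intro e he
    exact ⟨_, Int.toNat_of_nonneg (hpos e he).1, Int.toNat_of_nonneg (hpos e he).2, h1 e he⟩
  · intro e' he'
    obtain ⟨e, he, rfl⟩ := h2 e' he'
    exact ⟨e, he, Int.toNat_of_nonneg (hpos e he).1, Int.toNat_of_nonneg (hpos e he).2⟩
  · intro K _ _ x y hx hy
    refine h3 K (x ^ a * y ^ b) (x ^ c * y ^ d) x y (x ^ p * y ^ q) ?_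
    intro e he
    have g1 := hpos e he
    dsimp only
    rw [← zpow_natCast x (a * e.1 + c * e.2 + p).toNat, ← zpow_natCast y,
      Int.toNat_of_nonneg g1.1, Int.toNat_of_nonneg g1.2, ← zpow_natCast, ← zpow_natCast,
      mul_zpow, mul_zpow, ← zpow_mul, ← zpow_mul, ← zpow_mul, ← zpow_mul,
      zpow_add₀ hx, zpow_add₀ hx, zpow_add₀ hy, zpow_add₀ hy]
    ring

/-- A bound making all exponents nonnegative. -/
theorem exists_bound (f : ℂ[X][X]) (a c : ℤ) :
    ∃ N : ℕ, ∀ e, cf f e ≠ 0 → 0 ≤ a * e.1 + c * e.2 + N := by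
  refine ⟨∑ e ∈ bs f, (a * e.1 + c * e.2).natAbs, ?_⟩
  intro e he
  have h1 : (a * e.1 + c * e.2).natAbs ≤ ∑ e ∈ bs f, (a * e.1 + c * e.2).natAbs :=
    Finset.single_le_sum (f := fun e : ℕ × ℕ => (a * e.1 + c * e.2).natAbs)
      (fun _ _ => Nat.zero_le _) (mem_bs.2 he)
  have h2 : -(a * (e.1 : ℤ) + c * e.2) ≤ ((a * e.1 + c * e.2).natAbs : ℤ) := by omega
  have h3 : ((a * e.1 + c * e.2).natAbs : ℤ) ≤
      ((∑ e ∈ bs f, (a * e.1 + c * e.2).natAbs : ℕ) : ℤ) := by exact_mod_cast h1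
  linarith

theorem toricZ' (f : ℂ[X][X]) (a b c d : ℤ) (hdet : a * d - b * c = 1 ∨ a * d - b * c = -1) :
    ∃ (f' : ℂ[X][X]) (p q : ℕ), (f ≠ 0 → f' ≠ 0) ∧
      ∀ (K : Type) [Field K] [Algebra ℂ K] (x y : K), x ≠ 0 → y ≠ 0 →
        ev x y f' = x ^ p * y ^ q * ev (x ^ a * y ^ b) (x ^ c * y ^ d) f := by
  obtain ⟨p, hp⟩ := exists_bound f a c
  obtain ⟨q, hq⟩ := exists_bound f b d
  obtain ⟨f', h1, h2, h3⟩ := toricZ f a b c d p q hdet fun e he => ⟨hp e he, hq e he⟩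
  refine ⟨f', p, q, ?_, ?_⟩
  · intro hf h0
    obtain ⟨e, he⟩ := exists_cf_ne hf
    obtain ⟨e', -, -, h⟩ := h1 e he
    rw [h0] at h
    apply he
    rw [← h]
    simp [cf]
  · intro K _ _ x y hx hy
    rw [h3 K x y hx hy, zpow_natCast, zpow_natCast]

/-- Monomial change of a pair of coordinates. -/
theorem Coord.tor (P : Coord L) (a b c d : ℤ)
    (hdet : a * d - b * c = 1 ∨ a * d - b * c = -1) :
    ∃ Q : Coord L, Q.x = P.x ^ a * P.y ^ b ∧ Q.y = P.x ^ c * P.y ^ d := by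
  have hx := P.x_ne
  have hy := P.y_ne
  have hsq : (a * d - b * c) * (a * d - b * c) = 1 := by
    rcases hdet with h | h <;> rw [h] <;> norm_num
  refine P.mk' _ _ ?_ ?_
  · intro f hf
    obtain ⟨f', p, q, h1, h2⟩ := toricZ' f a b c d hdet
    refine ⟨f', (P.x ^ p * P.y ^ q)⁻¹, h1 hf, ?_, ?_⟩
    · exact inv_ne_zero (mul_ne_zero (pow_ne_zero _ hx) (pow_ne_zero _ hy))
    · rw [h2 L P.x P.y hx hy, inv_mul_cancel_left₀]
      exact mul_ne_zero (pow_ne_zero _ hx) (pow_ne_zero _ hy)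
  · intro f
    set D := a * d - b * c with hD
    obtain ⟨f', p, q, h1, h2⟩ := toricZ' f (D * d) (-(D * b)) (-(D * c)) (D * a) (by
      rcases hdet with h | h
      · left; rw [h]; linear_combination hD.symm + h
      · right
        have : D * d * (D * a) - -(D * b) * -(D * c) = D * D * (a * d - b * c) := by ring
        rw [this, hsq, ← hD, h]; ring)
    have hx' : P.x ^ a * P.y ^ b ≠ 0 := mul_ne_zero (zpow_ne_zero _ hx) (zpow_ne_zero _ hy)
    have hy' : P.x ^ c * P.y ^ d ≠ 0 := mul_ne_zero (zpow_ne_zero _ hx) (zpow_ne_zero _ hy)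
    refine ⟨f', C (X ^ p) * X ^ q, ?_, ?_⟩
    · exact mul_ne_zero (by rw [Ne, C_eq_zero]; exact pow_ne_zero _ X_ne_zero)
        (pow_ne_zero _ X_ne_zero)
    · have hev : ev (P.x ^ a * P.y ^ b) (P.x ^ c * P.y ^ d) (C (X ^ p) * X ^ q) =
          (P.x ^ a * P.y ^ b) ^ p * (P.x ^ c * P.y ^ d) ^ q := by
        rw [map_mul, ev_C, map_pow, map_pow, ev_X, aeval_X]
      rw [h2 L _ _ hx' hy', hev]
      have e1 : (P.x ^ a * P.y ^ b) ^ (D * d) * (P.x ^ c * P.y ^ d) ^ (-(D * b)) = P.x := by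
        rw [mul_zpow, mul_zpow, ← zpow_mul, ← zpow_mul, ← zpow_mul, ← zpow_mul]
        rw [show P.x ^ (a * (D * d)) * P.y ^ (b * (D * d)) *
            (P.x ^ (c * -(D * b)) * P.y ^ (d * -(D * b))) =
            (P.x ^ (a * (D * d)) * P.x ^ (c * -(D * b))) *
            (P.y ^ (b * (D * d)) * P.y ^ (d * -(D * b))) by ring,
          ← zpow_add₀ hx, ← zpow_add₀ hy,
          show a * (D * d) + c * -(D * b) = D * (a * d - b * c) by ring, ← hD, hsq,
          show b * (D * d) + d * -(D * b) = 0 by ring, zpow_zero, zpow_one, mul_one]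
      have e2 : (P.x ^ a * P.y ^ b) ^ (-(D * c)) * (P.x ^ c * P.y ^ d) ^ (D * a) = P.y := by
        rw [mul_zpow, mul_zpow, ← zpow_mul, ← zpow_mul, ← zpow_mul, ← zpow_mul]
        rw [show P.x ^ (a * -(D * c)) * P.y ^ (b * -(D * c)) *
            (P.x ^ (c * (D * a)) * P.y ^ (d * (D * a))) =
            (P.x ^ (a * -(D * c)) * P.x ^ (c * (D * a))) *
            (P.y ^ (b * -(D * c)) * P.y ^ (d * (D * a))) by ring,
          ← zpow_add₀ hx, ← zpow_add₀ hy,
          show b * -(D * c) + d * (D * a) = D * (a * d - b * c) by ring, ← hD, hsq,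
          show a * -(D * c) + c * (D * a) = 0 by ring, zpow_zero, zpow_one, one_mul]
      rw [e1, e2]
      field_simp

/-- Translation of the variables. -/
def trl (a b : ℂ) (f : ℂ[X][X]) : ℂ[X][X] :=
  (f.map (compRingHom (X + C a))).comp (X + C (C b))

theorem ev_trl (x y : L) (a b : ℂ) (f : ℂ[X][X]) :
    ev (x - algebraMap ℂ L a) (y - algebraMap ℂ L b) (trl a b f) = ev x y f := by
  unfold trl
  rw [ev_apply, ev_apply, eval₂_comp, eval₂_map]
  have h1 : eval₂ (aeval (x - algebraMap ℂ L a) : ℂ[X] →ₐ[ℂ] L).toRingHom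
      (y - algebraMap ℂ L b) (X + C (C b)) = y := by
    rw [eval₂_add, eval₂_X, eval₂_C]
    show y - algebraMap ℂ L b + aeval (x - algebraMap ℂ L a) (C b) = y
    rw [aeval_C]; ring
  have h2 : (aeval (x - algebraMap ℂ L a) : ℂ[X] →ₐ[ℂ] L).toRingHom.comp
      (compRingHom (X + C a)) = (aeval x : ℂ[X] →ₐ[ℂ] L).toRingHom := by
    refine Polynomial.ringHom_ext ?_ ?_
    · intro c
      show aeval (x - algebraMap ℂ L a) ((C c : ℂ[X]).comp (X + C a)) = aeval x (C c)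
      rw [C_comp, aeval_C, aeval_C]
    · show aeval (x - algebraMap ℂ L a) ((X : ℂ[X]).comp (X + C a)) = aeval x X
      rw [X_comp, map_add, aeval_X, aeval_X, aeval_C]; ring
  rw [h1, h2]

theorem trl_coeff_ne {R : Type} [CommRing R] (r : R) (f : R[X]) {i : ℕ}
    (h : (f.comp (X + C r)).coeff i ≠ 0) : ∃ i', i ≤ i' ∧ f.coeff i' ≠ 0 := by
  by_cases hf : f = 0
  · rw [hf] at h; simp at h
  · refine ⟨f.natDegree, ?_, ?_⟩
    · have h1 := le_natDegree_of_ne_zero h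
      have h2 : (f.comp (X + C r)).natDegree = f.natDegree := by
        rw [← taylor_apply, natDegree_taylor]
      omega
    · exact fun h0 => hf (leadingCoeff_eq_zero.1 h0)

theorem cf_map_comp {a : ℂ} {f : ℂ[X][X]} {e : ℕ × ℕ}
    (h : cf (f.map (compRingHom (X + C a))) e ≠ 0) : ∃ i', e.1 ≤ i' ∧ cf f (i', e.2) ≠ 0 := by
  unfold cf at h
  rw [coeff_map] at h
  exact trl_coeff_ne a (f.coeff e.2) h

theorem cf_comp {b : ℂ} {f : ℂ[X][X]} {e : ℕ × ℕ}
    (h : cf (f.comp (X + C (C b))) e ≠ 0) : ∃ j', e.2 ≤ j' ∧ cf f (e.1, j') ≠ 0 := by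
  by_contra hcon
  push Not at hcon
  apply h
  unfold cf
  rw [← taylor_apply, taylor_coeff, eval_eq_sum_range, finsetSum_coeff]
  refine Finset.sum_eq_zero fun l _ => ?_
  rw [hasseDeriv_coeff, ← C_pow, coeff_mul_C, ← C_eq_natCast, coeff_C_mul]
  have h1 : (f.coeff (l + e.2)).coeff e.1 = 0 := hcon (l + e.2) (by omega)
  rw [h1]; ring

/-- The exponents of a translated polynomial are below those of the polynomial. -/
theorem cf_trl {a b : ℂ} {f : ℂ[X][X]} {e : ℕ × ℕ} (h : cf (trl a b f) e ≠ 0) :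
    ∃ e', e.1 ≤ e'.1 ∧ e.2 ≤ e'.2 ∧ cf f e' ≠ 0 := by
  obtain ⟨j', h1, h2⟩ := cf_comp h
  obtain ⟨i', h3, h4⟩ := cf_map_comp h2
  exact ⟨(i', j'), h3, h1, h4⟩

theorem trl_ne {a b : ℂ} {f : ℂ[X][X]} (hf : f ≠ 0) : trl a b f ≠ 0 := by
  intro h
  unfold trl at h
  rw [← taylor_apply] at h
  have h1 : f.map (compRingHom (X + C a)) = 0 := by
    exact taylor_injective _ (by rw [h, map_zero])
  apply hf
  refine Polynomial.ext fun j => ?_
  have h2 : (f.map (compRingHom (X + C a))).coeff j = 0 := by rw [h1, coeff_zero]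
  rw [coeff_map] at h2
  have h3 : taylor a (f.coeff j) = 0 := by rw [taylor_apply]; exact h2
  rw [coeff_zero]
  exact taylor_injective _ (by rw [h3, map_zero])

theorem Coord.trans (P : Coord L) (a b : ℂ) :
    ∃ Q : Coord L, Q.x = P.x - algebraMap ℂ L a ∧ Q.y = P.y - algebraMap ℂ L b := by
  refine P.mk' _ _ ?_ ?_
  · intro f hf
    refine ⟨trl (-a) (-b) f, 1, trl_ne hf, one_ne_zero, ?_⟩
    have h := ev_trl (P.x - algebraMap ℂ L a) (P.y - algebraMap ℂ L b) (-a) (-b) f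
    rw [one_mul, ← h]
    congr 1
    · congr 1
      · rw [map_neg]; ring
      · rw [map_neg]; ring
  · intro f
    refine ⟨trl a b f, 1, one_ne_zero, ?_⟩
    rw [map_one, div_one, ev_trl]

end

end LCY
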