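import Pool.Agent.Helper51.LCY.P4

/-!
Step 1 of MP_f7e214_ag, part 4b: positivity, stability of minimal structures under the changes of
charts, strict inequalities in the case `c = 0`.
-/

open Polynomial

namespace LCY

noncomputable section

variable {L : Type} [Field L] [Algebra ℂ L] {N : ℕ}

/-! ### Positivity -/

theorem H51br_aeval (ω : Bracket L) (s c : L) (p : ℂ[X]) :
    ω.br (aeval s p) c = aeval s (derivative p) * ω.br s c := by
  induction p using Polynomial.induction_on' with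
  | add p q hp hq => rw [map_add, ω.add_left, hp, hq, derivative_add, map_add]; ring
  | monomial n a =>
    rw [aeval_monomial, ω.mul_left, ω.const_left, ω.pow_left, derivative_monomial,
      aeval_monomial, map_mul, map_natCast]
    ring

theorem br_aeval_aeval (ω : Bracket L) (s : L) (p r : ℂ[X]) :
    ω.br (aeval s p) (aeval s r) = 0 := by
  rw [H51br_aeval, ω.skew, H51br_aeval, ω.alt]; ring

theorem br_quot (ω : Bracket L) {z w u : L} (hu : u ≠ 0) (h1 : ω.br z w = 0)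
    (h2 : ω.br z u = 0) (h3 : ω.br u w = 0) : ω.br (z / u) (w / u) = 0 := by
  have h4 : ω.br u u = 0 := ω.alt u
  have h5 : ω.br w u = 0 := by rw [ω.skew, h3, neg_zero]
  rw [div_eq_mul_inv, div_eq_mul_inv, ω.mul_left, ω.mul_right, ω.mul_right, ω.inv_right hu,
    ω.inv_left hu, ω.inv_right hu, ω.inv_left hu, h1, h2, h3, h4]
  ring

theorem Pol.not_big {ω : Bracket L} {x : Fin (N + 1) → L} {P : Coord L} {q : L}
    {F : Fin (N + 1) → ℂ[X][X]} (hF : Pol x P q F)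
    (h : ∀ i e, cf (F i) e ≠ 0 → e.2 = 0) : ¬ Big ω x := by
  rintro ⟨i, j, k, hk, hne⟩
  have hC : ∀ i, F i = C ((F i).coeff 0) := by
    intro i
    refine cf_ext fun e => ?_
    by_cases he : e.2 = 0
    · unfold cf; rw [he, coeff_C_zero]
    · have h1 : cf (F i) e = 0 := by
        by_contra h'
        exact he (h i e h')
      rw [h1]; unfold cf; rw [coeff_C, if_neg he, coeff_zero]
  have hx : ∀ i, x i = q⁻¹ * aeval P.x ((F i).coeff 0) := by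
    intro i
    rw [← ev_C P.x P.y, ← hC i, hF.2 i, inv_mul_cancel_left₀ hF.1]
  have hk' : aeval P.x ((F k).coeff 0) ≠ 0 := by
    intro h0
    apply hk
    rw [hx k, h0, mul_zero]
  apply hne
  have e1 : ∀ i, x i / x k = aeval P.x ((F i).coeff 0) / aeval P.x ((F k).coeff 0) := by
    intro i
    rw [hx i, hx k, mul_div_mul_left _ _ (inv_ne_zero hF.1)]
  rw [e1 i, e1 j]
  exact br_quot ω hk' (br_aeval_aeval ω _ _ _) (br_aeval_aeval ω _ _ _) (br_aeval_aeval ω _ _ _)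

theorem P2S.pos {ω : Bracket L} {x : Fin (N + 1) → L} (hx : Big ω x) {P : Coord L} {q : L}
    {a : ℕ} (h : P2S x P q a) : 0 < a := by
  obtain ⟨F, hF, hS⟩ := h
  by_contra h0
  refine hF.not_big (ω := ω) (fun i e he => ?_) hx
  have := hS i e he
  omega

theorem RS.pos {ω : Bracket L} {x : Fin (N + 1) → L} (hx : Big ω x) {P : Coord L} {q : L}
    {d b n : ℕ} (h : RS x P q d b n) : 0 < d := by
  obtain ⟨F, hF, hS⟩ := h
  by_contra h0
  refine hF.not_big (ω := ω) (fun i e he => ?_) hx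
  have := (hS i e he).1
  omega

/-! ### Change of charts -/

theorem MinP2.trans {x : Fin (N + 1) → L} {P : Coord L} {q : L} {a : ℕ} (h : MinP2 x P q a)
    (s t : ℂ) : ∃ Q : Coord L, Q.x = P.x - algebraMap ℂ L s ∧ Q.y = P.y - algebraMap ℂ L t ∧
      MinP2 x Q q a := by
  obtain ⟨Q, hx, hy⟩ := P.trans s t
  obtain ⟨⟨F, hF, hS⟩, hLB⟩ := h
  exact ⟨Q, hx, hy, ⟨_, hF.trl s t Q hx hy, hS.trl s t⟩, hLB⟩

theorem MinP2.swap {x : Fin (N + 1) → L} {P : Coord L} {q : L} {a : ℕ} (h : MinP2 x P q a) :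
    ∃ Q : Coord L, Q.x = P.y ∧ Q.y = P.x ∧ MinP2 x Q q a := by
  obtain ⟨Q, hQx, hQy⟩ := P.swap
  obtain ⟨⟨F, hF, hS⟩, hLB⟩ := h
  refine ⟨Q, hQx, hQy, ?_, hLB⟩
  obtain ⟨G, hG, -, h2⟩ := hF.tor 0 1 1 0 0 0 (Or.inr (by norm_num)) (by
    intro i e he
    constructor <;> omega) Q (by rw [hQy]; simp) (by rw [hQx]; simp)
  rw [zpow_zero, zpow_zero, mul_one, mul_one] at hG
  refine ⟨G, hG, fun i e' he' => ?_⟩
  obtain ⟨e, he, h4, h5⟩ := h2 i e' he'
  have h7 := hS i e he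
  omega

theorem MinP2.chart {x : Fin (N + 1) → L} {P : Coord L} {q : L} {a : ℕ} (h : MinP2 x P q a) :
    ∃ Q : Coord L, Q.x = P.x⁻¹ ∧ Q.y = P.y / P.x ∧ MinP2 x Q (q * (P.x ^ a)⁻¹) a := by
  obtain ⟨Q, hQx, hQy⟩ := P.tor (-1) 0 (-1) 1 (Or.inr (by norm_num))
  have hQx' : Q.x = P.x⁻¹ := by rw [hQx]; simp
  have hQy' : Q.y = P.y / P.x := by rw [hQy]; simp [div_eq_inv_mul]
  have hxne := P.x_ne
  have hyne := P.y_ne
  obtain ⟨⟨F, hF, hS⟩, hLB⟩ := h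
  refine ⟨Q, hQx', hQy', ?_, hLB⟩
  obtain ⟨G, hG, -, h2⟩ := hF.tor (-1) 0 (-1) 1 a 0 (Or.inr (by norm_num)) (by
    intro i e he
    have := hS i e he
    constructor <;> omega) Q (by rw [hQx']; simp) (by rw [hQx', hQy']; simp; field_simp)
  have e1 : q * (Q.x ^ (a : ℤ) * Q.y ^ (0 : ℤ)) = q * (P.x ^ a)⁻¹ := by
    rw [hQx', zpow_zero, mul_one, zpow_natCast, inv_pow]
  rw [e1] at hG
  refine ⟨G, hG, fun i e' he' => ?_⟩
  obtain ⟨e, he, h4, h5⟩ := h2 i e' he'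
  have h7 := hS i e he
  omega

theorem MinR.trans {x : Fin (N + 1) → L} {P : Coord L} {q : L} {d b n : ℕ}
    (h : MinR x P q d b n) (s t : ℂ) : ∃ Q : Coord L, Q.x = P.x - algebraMap ℂ L s ∧
      Q.y = P.y - algebraMap ℂ L t ∧ MinR x Q q d b n := by
  obtain ⟨Q, hx, hy⟩ := P.trans s t
  obtain ⟨⟨F, hF, hS⟩, hLB⟩ := h
  exact ⟨Q, hx, hy, ⟨_, hF.trl s t Q hx hy, hS.trl s t⟩, hLB⟩

theorem MinR.inv {x : Fin (N + 1) → L} {P : Coord L} {q : L} {d b n : ℕ}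
    (h : MinR x P q d b n) : ∃ Q : Coord L, Q.x = P.x⁻¹ ∧
      Q.y = P.y / P.x ^ n ∧ MinR x Q (q * (P.x ^ b)⁻¹) d b n := by
  obtain ⟨Q, hQx, hQy⟩ := P.tor (-1) 0 (-n) 1 (Or.inr (by norm_num))
  have hQx' : Q.x = P.x⁻¹ := by rw [hQx]; simp
  have hQy' : Q.y = P.y / P.x ^ n := by rw [hQy]; simp [div_eq_inv_mul]
  have hxne := P.x_ne
  have hyne := P.y_ne
  obtain ⟨⟨F, hF, hS⟩, hLB⟩ := h
  refine ⟨Q, hQx', hQy', ?_, hLB⟩
  obtain ⟨G, hG, -, h2⟩ := hF.tor (-1) 0 (-n) 1 b 0 (Or.inr (by norm_num)) (by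
    intro i e he
    have := (hS i e he).2
    have h3 : ((e.1 + n * e.2 : ℕ) : ℤ) ≤ b := by exact_mod_cast this
    push_cast at h3
    constructor
    · linarith
    · omega) Q (by rw [hQx']; simp) (by rw [hQx', hQy']; simp; field_simp)
  have e1 : q * (Q.x ^ (b : ℤ) * Q.y ^ (0 : ℤ)) = q * (P.x ^ b)⁻¹ := by
    rw [hQx', zpow_zero, mul_one, zpow_natCast, inv_pow]
  rw [e1] at hG
  refine ⟨G, hG, fun i e' he' => ?_⟩
  obtain ⟨e, he, h4, h5⟩ := h2 i e' he'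
  have h7 := hS i e he
  have h8 : e'.2 = e.2 := by omega
  refine ⟨by omega, ?_⟩
  have h9 : ((e'.1 + n * e'.2 : ℕ) : ℤ) ≤ b := by
    push_cast
    rw [h4, h8]
    have : (0 : ℤ) ≤ e.1 := Int.natCast_nonneg _
    linarith
  exact_mod_cast h9

/-- For `n = 0` the two sections at `0` and at `∞` may be exchanged. -/
theorem MinR.flip {x : Fin (N + 1) → L} {P : Coord L} {q : L} {d b : ℕ}
    (h : MinR x P q d b 0) {F : Fin (N + 1) → ℂ[X][X]} (hF : Pol x P q F) :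
    ∃ (Q : Coord L) (G : Fin (N + 1) → ℂ[X][X]), Q.x = P.x ∧
      Q.y = P.y⁻¹ ∧ MinR x Q (q * (P.y ^ d)⁻¹) d b 0 ∧ Pol x Q (q * (P.y ^ d)⁻¹) G ∧
      ∀ i e', cf (G i) e' ≠ 0 → ∃ e, cf (F i) e ≠ 0 ∧ e'.1 = e.1 ∧ e'.2 = d - e.2 := by
  obtain ⟨Q, hQx, hQy⟩ := P.tor 1 0 0 (-1) (Or.inr (by norm_num))
  have hQx' : Q.x = P.x := by rw [hQx]; simp
  have hQy' : Q.y = P.y⁻¹ := by rw [hQy]; simp
  have hxne := P.x_ne
  have hyne := P.y_ne
  obtain ⟨⟨F', hF', hS⟩, hLB⟩ := h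
  obtain rfl := hF.unique hF'
  obtain ⟨G, hG, -, h2⟩ := hF.tor 1 0 0 (-1) 0 d (Or.inr (by norm_num)) (by
    intro i e he
    have := hS i e he
    constructor <;> omega) Q (by rw [hQx']; simp) (by rw [hQy']; simp)
  have e1 : q * (Q.x ^ (0 : ℤ) * Q.y ^ (d : ℤ)) = q * (P.y ^ d)⁻¹ := by
    rw [hQy', zpow_zero, one_mul, zpow_natCast, inv_pow]
  rw [e1] at hG
  refine ⟨Q, G, hQx', hQy', ⟨⟨G, hG, fun i e' he' => ?_⟩, hLB⟩, hG, ?_⟩
  · obtain ⟨e, he, h4, h5⟩ := h2 i e' he'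
    have h7 := hS i e he
    constructor <;> omega
  · intro i e' he'
    obtain ⟨e, he, h4, h5⟩ := h2 i e' he'
    have h7 := hS i e he
    exact ⟨e, he, by omega, by omega⟩

/-! ### Elementary transformations -/

theorem Pol.contract {x : Fin (N + 1) → L} {P : Coord L} {q : L} {d b : ℕ}
    {F : Fin (N + 1) → ℂ[X][X]} (hF : Pol x P q F) (hS : SuppR F d b 1) :
    ∃ Q q', P2S x Q q' b := by
  obtain ⟨Q, hQx, hQy⟩ := P.tor 0 (-1) 1 (-1) (Or.inl (by norm_num))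
  have hPx : P.x = Q.x ^ (-1 : ℤ) * Q.y ^ (1 : ℤ) := by
    have := P.x_ne
    have := P.y_ne
    rw [hQx, hQy]; simp
    field_simp
  have hPy : P.y = Q.x ^ (-1 : ℤ) * Q.y ^ (0 : ℤ) := by
    rw [hQx]; simp
  obtain ⟨G, hG, -, h2⟩ := hF.tor (-1) 1 (-1) 0 b 0 (Or.inl (by norm_num)) (by
    intro i e he
    have := hS i e he
    constructor <;> omega) Q hPx hPy
  refine ⟨Q, _, G, hG, fun i e' he' => ?_⟩
  obtain ⟨e, he, h4, h5⟩ := h2 i e' he'
  have h7 := hS i e he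
  omega

theorem Pol.elem0 {x : Fin (N + 1) → L} {P : Coord L} {q : L} {d b m : ℕ}
    {F : Fin (N + 1) → ℂ[X][X]} (hF : Pol x P q F) (hS : SuppR F d b 0)
    (hm : ∀ i e, cf (F i) e ≠ 0 → m ≤ e.1 + e.2) :
    ∃ Q q' G, Pol x Q q' G ∧ SuppR G d (b + d - m) 1 := by
  obtain ⟨Q, hQx, hQy⟩ := P.tor 1 0 1 (-1) (Or.inr (by norm_num))
  have hPx : P.x = Q.x ^ (1 : ℤ) * Q.y ^ (0 : ℤ) := by rw [hQx]; simp
  have hPy : P.y = Q.x ^ (1 : ℤ) * Q.y ^ (-1 : ℤ) := by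
    have := P.x_ne
    have := P.y_ne
    rw [hQx, hQy]; simp
    field_simp
  obtain ⟨G, hG, -, h2⟩ := hF.tor 1 0 1 (-1) (-m) d (Or.inr (by norm_num)) (by
    intro i e he
    have := hS i e he
    have := hm i e he
    constructor <;> omega) Q hPx hPy
  refine ⟨Q, _, G, hG, fun i e' he' => ?_⟩
  obtain ⟨e, he, h4, h5⟩ := h2 i e' he'
  have h6 := hm i e he
  have h7 := hS i e he
  constructor <;> omega

theorem Pol.elem {x : Fin (N + 1) → L} {P : Coord L} {q : L} {d b m k : ℕ}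
    {F : Fin (N + 1) → ℂ[X][X]} (hF : Pol x P q F) (hS : SuppR F d b (k + 1))
    (hm : ∀ i e, cf (F i) e ≠ 0 → m ≤ e.1 + e.2) :
    ∃ Q q' G, Pol x Q q' G ∧ SuppR G d (b - m) k := by
  obtain ⟨Q, hQx, hQy⟩ := P.tor 1 0 (-1) 1 (Or.inl (by norm_num))
  have hPx : P.x = Q.x ^ (1 : ℤ) * Q.y ^ (0 : ℤ) := by rw [hQx]; simp
  have hPy : P.y = Q.x ^ (1 : ℤ) * Q.y ^ (1 : ℤ) := by
    have := P.x_ne
    have := P.y_ne
    rw [hQx, hQy]; simp
    field_simp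
  obtain ⟨G, hG, -, h2⟩ := hF.tor 1 0 1 1 (-m) 0 (Or.inl (by norm_num)) (by
    intro i e he
    have := hm i e he
    constructor <;> omega) Q hPx hPy
  refine ⟨Q, _, G, hG, fun i e' he' => ?_⟩
  obtain ⟨e, he, h4, h5⟩ := h2 i e' he'
  have h6 := hm i e he
  have h7 := hS i e he
  have h8 : e'.2 = e.2 := by omega
  have h9 : (k + 1) * e.2 = k * e.2 + e.2 := by ring
  rw [h8]
  constructor <;> omega

/-! ### The case `c = 0` -/

/-- In the case `c = 0` one has `n = 0, b = d` or `n = 2, b = 2 d`. -/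
theorem MinR.c_zero {ω : Bracket L} {x : Fin (N + 1) → L} (hx : Big ω x) {P : Coord L}
    {q : L} {d b n : ℕ} (h : MinR x P q d b n) (hc : 2 * b = (n + 2) * d) :
    (n = 0 ∧ b = d) ∨ (n = 2 ∧ b = 2 * d) := by
  have hd : 0 < d := h.1.pos hx
  have h1 := (h.c_nonneg hx).2
  obtain ⟨F, hF, hS, hex, hnd⟩ := ruled_nonneg (ex_ne hx) h.1 h.2.1
  have h2 : n ≤ 2 := by
    by_contra hn
    push Not at hn
    have h3 : (n + 2) * d = n * d + 2 * d := by ring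
    have h4 : 3 * d ≤ n * d := Nat.mul_le_mul_right d hn
    omega
  have h3 : n = 0 ∨ n = 1 ∨ n = 2 := by omega
  rcases h3 with rfl | rfl | rfl
  · left; omega
  · have := h1 rfl
    omega
  · right; omega

/-- In the case `c = 0` all multiplicities at points with `y ≠ ∞` are less than `d / 2`. -/
theorem MinR.mult_strict {ω : Bracket L} {x : Fin (N + 1) → L} (hx : Big ω x) {P : Coord L}
    {q : L} {d b n : ℕ} (h : MinR x P q d b n) (hc : 2 * b = (n + 2) * d)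
    {F : Fin (N + 1) → ℂ[X][X]} (hF : Pol x P q F) :
    ∃ i e, cf (F i) e ≠ 0 ∧ 2 * (e.1 + e.2) < d := by
  by_contra hcon
  push Not at hcon
  have hd : 0 < d := h.1.pos hx
  obtain ⟨i0, e0, he0, hle⟩ := h.mult hx hd hF
  have h0 := hcon i0 e0 he0
  set m := e0.1 + e0.2 with hm
  have hdm : d = 2 * m := by omega
  have hmm : ∀ i e, cf (F i) e ≠ 0 → m ≤ e.1 + e.2 := by
    intro i e he
    have := hcon i e he
    omega
  obtain ⟨⟨F', hF', hS⟩, hLB, hP, hA⟩ := id h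
  obtain rfl := hF.unique hF'
  rcases h.c_zero hx hc with ⟨rfl, hb⟩ | ⟨rfl, hb⟩
  · obtain ⟨Q, q', G, hG, hSG⟩ := hF.elem0 hS hmm
    obtain ⟨Q', q'', hP2⟩ := hG.contract hSG
    have := hP _ _ _ hP2
    omega
  · obtain ⟨Q, q', G, hG, hSG⟩ := hF.elem (k := 1) hS hmm
    obtain ⟨Q', q'', hP2⟩ := hG.contract hSG
    have := hP _ _ _ hP2
    omega

/-- In the case `c = 0` all multiplicities at points with `y = ∞` are less than `d / 2`. -/
theorem MinR.mult_inf_strict {ω : Bracket L} {x : Fin (N + 1) → L} (hx : Big ω x)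
    {P : Coord L} {q : L} {d b n : ℕ} (h : MinR x P q d b n) (hc : 2 * b = (n + 2) * d)
    {F : Fin (N + 1) → ℂ[X][X]} (hF : Pol x P q F) :
    ∃ i e, cf (F i) e ≠ 0 ∧ 2 * (e.1 + (d - e.2)) < d := by
  have hd : 0 < d := h.1.pos hx
  rcases h.c_zero hx hc with ⟨rfl, hb⟩ | ⟨rfl, hb⟩
  · obtain ⟨Q, G, hQx, hQy, hmin, hG, hexp⟩ := h.flip hF
    obtain ⟨i, e', he', hlt⟩ := hmin.mult_strict hx hc hG
    obtain ⟨e, he, h1, h2⟩ := hexp i e' he'
    exact ⟨i, e, he, by omega⟩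
  · obtain ⟨F', hF', hS, ⟨i, e, he, hed⟩, hnd⟩ := ruled_nonneg (ex_ne hx) h.1 h.2.1
    obtain rfl := hF.unique hF'
    have := (hS i e he).2
    exact ⟨i, e, he, by omega⟩

end

end LCY
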