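import Pool.Agent.Helper51.LCY.Z1

/-!
Bezout for MP_f7e214_ag, part 2: `ℂ[X, Y] / (F, G)` has dimension `d * d'`.
-/

open Polynomial

namespace LCY

noncomputable section

namespace H51

variable {F G : ℂ[X][X]} {d d' : ℕ}

theorem BPair.map_eq_top (h : BPair F G d d') :
    (Vn (d + d' + 0)).map (((Ideal.span {F, G}).restrictScalars ℂ).mkQ) = ⊤ := by
  set I : Submodule ℂ ℂ[X][X] := (Ideal.span {F, G}).restrictScalars ℂ with hI
  have hle : ∀ m, (Vn (d + d' + 0)).map I.mkQ = (Vn (d + d' + m)).map I.mkQ := by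
    intro m
    have hfin : Module.Finite ℂ ((Vn (d + d' + m)).map I.mkQ) := inferInstance
    refine Submodule.eq_of_le_of_finrank_eq (Submodule.map_mono (Vn_mono (by omega))) ?_
    rw [h.finrank_map 0, h.finrank_map m]
  rw [eq_top_iff]
  rintro z -
  obtain ⟨f, rfl⟩ := I.mkQ_surjective z
  obtain ⟨n, hn⟩ := exists_Vn f
  rw [hle n]
  exact ⟨f, Vn_mono (by omega) hn, rfl⟩

theorem BPair.finite_quot (h : BPair F G d d') :
    Module.Finite ℂ (ℂ[X][X] ⧸ Ideal.span {F, G}) := by
  have h1 : Module.Finite ℂ (ℂ[X][X] ⧸ (Ideal.span {F, G}).restrictScalars ℂ) := by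
    have h2 : Module.Finite ℂ
        ((Vn (d + d' + 0)).map (((Ideal.span {F, G}).restrictScalars ℂ).mkQ)) := inferInstance
    rw [h.map_eq_top] at h2
    exact Module.Finite.equiv (Submodule.topEquiv (R := ℂ)
      (M := ℂ[X][X] ⧸ (Ideal.span {F, G}).restrictScalars ℂ))
  exact Module.Finite.equiv (Submodule.Quotient.restrictScalarsEquiv ℂ (Ideal.span {F, G}))

theorem BPair.finrank_quot (h : BPair F G d d') :
    Module.finrank ℂ (ℂ[X][X] ⧸ Ideal.span {F, G}) = d * d' := by
  rw [← (Submodule.Quotient.restrictScalarsEquiv ℂ (Ideal.span {F, G})).finrank_eq]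
  have h1 := h.finrank_map 0
  rw [h.map_eq_top, finrank_top] at h1
  exact h1

end H51

end

end LCY
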