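import Pool.Agent.Helper51.LCY.Z2

/-!
Bezout for MP_f7e214_ag, part 3: homogenisation, shears, leading forms after a projective change
of coordinates.
-/

open Polynomial

namespace LCY

noncomputable section

variable {L : Type} [Field L] [Algebra ℂ L]

namespace H51

/-! ### Homogenisation of polynomials in one variable -/

/-- `X ^ n * α (Y / X)`. -/
def hom (n : ℕ) (α : ℂ[X]) : ℂ[X][X] :=
  ∑ j ∈ Finset.range (n + 1), monomial j (monomial (n - j) (α.coeff j))

theorem cf_hom (n : ℕ) (α : ℂ[X]) (e : ℕ × ℕ) :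
    cf (hom n α) e = if e.1 + e.2 = n then α.coeff e.2 else 0 := by
  unfold hom cf
  rw [finsetSum_coeff, finsetSum_coeff]
  split_ifs with h
  · rw [Finset.sum_eq_single e.2]
    · rw [coeff_monomial, if_pos rfl, coeff_monomial, if_pos (by omega)]
    · intro j _ hj
      rw [coeff_monomial, if_neg hj, coeff_zero]
    · intro h'
      exact absurd (Finset.mem_range.2 (by omega)) h'
  · rw [Finset.sum_eq_zero]
    intro j hj
    rw [Finset.mem_range] at hj
    rw [coeff_monomial]
    split_ifs with h1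
    · rw [coeff_monomial, if_neg]
      intro h2
      omega
    · rw [coeff_zero]

theorem ev_hom {x : L} (hx : x ≠ 0) (y : L) {n : ℕ} {α : ℂ[X]} (hα : α.natDegree ≤ n) :
    ev x y (hom n α) = x ^ n * aeval (y / x) α := by
  unfold hom
  rw [map_sum, aeval_eq_sum_range' (Nat.lt_succ_of_le hα), Finset.mul_sum]
  refine Finset.sum_congr rfl fun j hj => ?_
  rw [Finset.mem_range] at hj
  rw [ev_monomial, Algebra.smul_def, div_pow]
  have h1 : x ^ n = x ^ (n - j) * x ^ j := by rw [← pow_add]; congr 1; omega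
  rw [h1]
  have h2 : x ^ j ≠ 0 := pow_ne_zero _ hx
  field_simp

theorem hom_mem (n : ℕ) (α : ℂ[X]) : hom n α ∈ Vn n := by
  intro e he
  rw [cf_hom] at he
  split_ifs at he with h
  · omega
  · exact absurd rfl he

theorem hom_ne {n : ℕ} {α : ℂ[X]} (hα : α ≠ 0) (hd : α.natDegree ≤ n) : hom n α ≠ 0 := by
  intro h
  apply hα
  refine leadingCoeff_eq_zero.1 ?_
  have h1 := cf_hom n α (n - α.natDegree, α.natDegree)
  rw [h, cf_zero', if_pos (by dsimp only; omega)] at h1
  exact h1.symm

/-- The leading forms are coprime if the dehomogenised forms are. -/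
theorem copt_of (P : Coord L) {φ γ : ℂ[X]} {d d' : ℕ} (hcop : IsCoprime φ γ)
    (hφ : φ.natDegree = d) (hφ0 : φ ≠ 0) (hγ : γ.natDegree ≤ d') (A B : ℂ[X][X])
    (hAB : A * hom d φ + B * hom d' γ = 0) :
    ∃ E, A = E * hom d' γ ∧ B = - (E * hom d φ) := by
  obtain ⟨α, β, hαβ⟩ := hcop
  set N := α.natDegree + β.natDegree + d + d' with hN
  have hxne := P.x_ne
  -- X ^ N is a combination of the two forms
  have key : hom (N - d) α * hom d φ + hom (N - d') β * hom d' γ = C (X ^ N) := by
    have h1 : ev P.x P.y (hom (N - d) α * hom d φ + hom (N - d') β * hom d' γ - C (X ^ N)) = 0 := by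
      rw [map_sub, map_add, map_mul, map_mul, ev_hom hxne _ (by omega), ev_hom hxne _ hφ.le,
        ev_hom hxne _ (by omega), ev_hom hxne _ hγ, ev_C, map_pow, aeval_X]
      have h2 : P.x ^ N = P.x ^ (N - d) * P.x ^ d := by rw [← pow_add]; congr 1; omega
      have h3 : P.x ^ N = P.x ^ (N - d') * P.x ^ d' := by rw [← pow_add]; congr 1; omega
      have h4 : aeval (P.y / P.x) α * aeval (P.y / P.x) φ +
          aeval (P.y / P.x) β * aeval (P.y / P.x) γ = 1 := by
        rw [← map_mul, ← map_mul, ← map_add, hαβ, map_one]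
      linear_combination P.x ^ N * h4 - (aeval (P.y / P.x) α * aeval (P.y / P.x) φ) * h2 -
        (aeval (P.y / P.x) β * aeval (P.y / P.x) γ) * h3
    exact sub_eq_zero.1 (P.inj _ h1)
  have hne : hom d φ ≠ 0 := hom_ne hφ0 hφ.le
  -- the forms are relatively prime
  have hrel : IsRelPrime (hom d φ) (hom d' γ) := by
    intro p hp1 hp2
    have h1 : p ∣ (C (X : ℂ[X]) : ℂ[X][X]) ^ N := by
      rw [← C_pow, ← key]
      exact dvd_add (dvd_mul_of_dvd_right hp1 _) (dvd_mul_of_dvd_right hp2 _)
    have hpX : Prime (C (X : ℂ[X]) : ℂ[X][X]) := prime_C_iff.2 prime_X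
    obtain ⟨i, hi, hassoc⟩ := (dvd_prime_pow hpX N).1 h1
    rcases Nat.eq_zero_or_pos i with h0 | h0
    · rw [h0, pow_zero] at hassoc
      exact hassoc.symm.isUnit isUnit_one
    · exfalso
      have h2 : (C (X : ℂ[X]) : ℂ[X][X]) ∣ hom d φ := by
        refine dvd_trans ?_ hp1
        refine dvd_trans (dvd_pow_self _ (by omega : i ≠ 0)) hassoc.symm.dvd
      rw [C_dvd_iff_dvd_coeff] at h2
      have h3 := X_dvd_iff.1 (h2 d)
      have h4 := cf_hom d φ (0, d)
      rw [if_pos (by dsimp only; omega)] at h4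
      unfold cf at h4
      rw [h3] at h4
      dsimp only at h4
      rw [← hφ] at h4
      exact hφ0 (leadingCoeff_eq_zero.1 h4.symm)
  have h5 : hom d φ ∣ B * hom d' γ := ⟨-A, by linear_combination hAB⟩
  obtain ⟨E, hE⟩ := hrel.dvd_of_dvd_mul_right h5
  refine ⟨-E, ?_, by rw [hE]; ring⟩
  have h6 : hom d φ * (A + E * hom d' γ) = 0 := by
    rw [hE] at hAB
    linear_combination hAB
  have h7 := (mul_eq_zero.1 h6).resolve_left hne
  linear_combination h7

/-! ### Shears -/

/-- `f (X + t Y, Y)`. -/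
def shear (t : ℂ) : ℂ[X][X] →+* ℂ[X][X] :=
  eval₂RingHom (eval₂RingHom ((C : ℂ[X] →+* ℂ[X][X]).comp (C : ℂ →+* ℂ[X]))
    (C X + C (C t) * X : ℂ[X][X]) : ℂ[X] →+* ℂ[X][X]) (X : ℂ[X][X])

theorem shear_CC (t c : ℂ) : shear t (C (C c)) = C (C c) := by
  unfold shear
  rw [coe_eval₂RingHom, eval₂_C, coe_eval₂RingHom, eval₂_C]
  rfl

theorem shear_CX (t : ℂ) : shear t (C X) = C X + C (C t) * X := by
  unfold shear
  rw [coe_eval₂RingHom, eval₂_C, coe_eval₂RingHom, eval₂_X]

theorem shear_X (t : ℂ) : shear t X = X := by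
  unfold shear
  rw [coe_eval₂RingHom, eval₂_X]

/-- Two ring homomorphisms on polynomials in two variables agree if they agree on constants and
on the variables. -/
theorem hom_ext2 {R : Type} [CommSemiring R] {f g : ℂ[X][X] →+* R}
    (h1 : ∀ c : ℂ, f (C (C c)) = g (C (C c))) (h2 : f (C X) = g (C X)) (h3 : f X = g X) :
    f = g := by
  refine Polynomial.ringHom_ext (fun p => ?_) h3
  have h4 : f.comp C = g.comp C := Polynomial.ringHom_ext h1 h2
  exact RingHom.congr_fun h4 p

theorem ev_shear (x y : L) (t : ℂ) (f : ℂ[X][X]) :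
    ev x y (shear t f) = ev (x + algebraMap ℂ L t * y) y f := by
  have h : (ev x y).comp (shear t) = ev (x + algebraMap ℂ L t * y) y := by
    refine hom_ext2 ?_ ?_ ?_
    · intro c
      rw [RingHom.comp_apply, shear_CC, ev_CC, ev_CC]
    · rw [RingHom.comp_apply, shear_CX, map_add, map_mul, ev_CX, ev_CC, ev_X, ev_CX]
    · rw [RingHom.comp_apply, shear_X, ev_X, ev_X]
  exact RingHom.congr_fun h f

theorem shear_shear (s t : ℂ) (f : ℂ[X][X]) : shear s (shear t f) = shear (s + t) f := by
  have h : (shear s).comp (shear t) = shear (s + t) := by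
    refine hom_ext2 ?_ ?_ ?_
    · intro c
      rw [RingHom.comp_apply, shear_CC, shear_CC, shear_CC]
    · rw [RingHom.comp_apply, shear_CX, map_add, map_mul, shear_CX, shear_CC, shear_X, shear_CX,
        C_add, C_add]
      ring
    · rw [RingHom.comp_apply, shear_X, shear_X, shear_X]
  exact RingHom.congr_fun h f

theorem shear_zero (f : ℂ[X][X]) : shear 0 f = f := by
  have h : shear 0 = RingHom.id _ := by
    refine hom_ext2 ?_ ?_ ?_
    · intro c; rw [shear_CC]; rfl
    · rw [shear_CX, C_0, C_0, zero_mul, add_zero]; rfl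
    · rw [shear_X]; rfl
  exact RingHom.congr_fun h f

/-- The shear as an automorphism. -/
def shearE (t : ℂ) : ℂ[X][X] ≃+* ℂ[X][X] :=
  RingEquiv.ofRingHom (shear t) (shear (-t))
    (RingHom.ext fun f => by
      rw [RingHom.comp_apply, shear_shear, add_neg_cancel, shear_zero]; rfl)
    (RingHom.ext fun f => by
      rw [RingHom.comp_apply, shear_shear, neg_add_cancel, shear_zero]; rfl)

theorem shear_prime {t : ℂ} {p : ℂ[X][X]} (hp : Prime p) : Prime (shear t p) :=
  (MulEquiv.prime_iff (shearE t).toMulEquiv).2 hp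

theorem shear_dvd {t : ℂ} {p g : ℂ[X][X]} (h : shear t p ∣ shear t g) : p ∣ g := by
  have h1 := map_dvd (shear (-t)) h
  rwa [shear_shear, shear_shear, neg_add_cancel, shear_zero, shear_zero] at h1

theorem shear_mem {t : ℂ} {n : ℕ} {f : ℂ[X][X]} (hf : f ∈ Vn n) : shear t f ∈ Vn n := by
  rw [eq_sum_bs f, map_sum]
  refine Submodule.sum_mem _ fun e he => ?_
  have h1 := hf e (mem_bs.1 he)
  refine Vn_mono h1 ?_
  have h2 : (monomial e.2 (monomial e.1 (cf f e)) : ℂ[X][X]) =
      C (C (cf f e)) * (C X) ^ e.1 * X ^ e.2 := by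
    rw [← C_mul_X_pow_eq_monomial, ← C_mul_X_pow_eq_monomial, C_mul, C_pow]
  rw [h2, map_mul, map_mul, map_pow, map_pow, shear_CC, shear_CX, shear_X]
  have hlin : (C X + C (C t) * X : ℂ[X][X]) ∈ Vn 1 := by
    intro e he
    by_contra hcon
    apply he
    have a1 : cf (C X : ℂ[X][X]) e = 0 := by
      unfold cf
      rw [coeff_C]
      split_ifs with h3
      · rw [coeff_X, if_neg (by omega)]
      · rw [coeff_zero]
    have a2 : cf (C (C t) * X : ℂ[X][X]) e = 0 := by
      unfold cf
      rw [coeff_C_mul, coeff_X]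
      split_ifs with h3
      · rw [mul_one, coeff_C, if_neg (by omega)]
      · rw [mul_zero, coeff_zero]
    rw [cf_add', a1, a2, add_zero]
  have hXmem : (X : ℂ[X][X]) ∈ Vn 1 := by
    intro e he
    unfold cf at he
    rw [coeff_X] at he
    split_ifs at he with h3
    · rw [coeff_one] at he
      split_ifs at he with h4
      · omega
      · exact absurd rfl he
    · rw [coeff_zero] at he
      exact absurd rfl he
  have hpow : ∀ (g : ℂ[X][X]), g ∈ Vn 1 → ∀ n : ℕ, g ^ n ∈ Vn n := by
    intro g hg n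
    induction n with
    | zero =>
      intro e he
      unfold cf at he
      rw [pow_zero, coeff_one] at he
      split_ifs at he with h4
      · rw [coeff_one] at he
        split_ifs at he with h5
        · omega
        · exact absurd rfl he
      · rw [coeff_zero] at he
        exact absurd rfl he
    | succ n ih => rw [pow_succ]; exact Vn_mul ih hg
  have hc : (C (C (cf f e)) : ℂ[X][X]) ∈ Vn 0 := by
    intro e' he'
    unfold cf at he'
    rw [coeff_C] at he'
    split_ifs at he' with h4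
    · rw [coeff_C] at he'
      split_ifs at he' with h5
      · omega
      · exact absurd rfl he'
    · rw [coeff_zero] at he'
      exact absurd rfl he'
  have h3 := Vn_mul (Vn_mul hc (hpow _ hlin e.1)) (hpow _ hXmem e.2)
  rwa [zero_add] at h3

/-- The coefficient of `Y ^ d` of `f (X + t Y, Y)`, as a polynomial in `t`. -/
def topP (d : ℕ) (f : ℂ[X][X]) : ℂ[X] :=
  ∑ e ∈ (bs f).filter (fun e => e.1 + e.2 = d), monomial e.1 (cf f e)

theorem cf_shear (t : ℂ) (d : ℕ) (f : ℂ[X][X]) :
    cf (shear t f) (0, d) = (topP d f).eval t := by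
  have h1 : ∀ g : ℂ[X][X], (shear t g).map (evalRingHom 0) =
      eval₂RingHom (compRingHom (C t * X : ℂ[X])) (X : ℂ[X]) g := by
    intro g
    have h : (mapRingHom (evalRingHom (0 : ℂ))).comp (shear t) =
        eval₂RingHom (compRingHom (C t * X : ℂ[X])) (X : ℂ[X]) := by
      refine hom_ext2 ?_ ?_ ?_
      · intro c
        rw [RingHom.comp_apply, shear_CC, coe_mapRingHom, map_C, coe_evalRingHom, eval_C,
          coe_eval₂RingHom, eval₂_C, coe_compRingHom_apply, C_comp]
      · rw [RingHom.comp_apply, shear_CX, coe_mapRingHom, Polynomial.map_add, Polynomial.map_mul,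
          map_C, map_C, map_X, coe_evalRingHom, eval_X, eval_C, C_0, zero_add,
          coe_eval₂RingHom, eval₂_C, coe_compRingHom_apply, X_comp]
      · rw [RingHom.comp_apply, shear_X, coe_mapRingHom, map_X, coe_eval₂RingHom, eval₂_X]
    exact RingHom.congr_fun h g
  rw [← coeff_map_ev0, h1]
  conv_lhs => rw [eq_sum_bs f]
  rw [map_sum, finsetSum_coeff]
  unfold topP
  rw [eval_finsetSum, Finset.sum_filter]
  refine Finset.sum_congr rfl fun e _ => ?_
  rw [coe_eval₂RingHom, eval₂_monomial, coe_compRingHom_apply, monomial_comp, mul_pow, ← C_pow,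
    ← mul_assoc, mul_assoc, ← pow_add, ← C_mul, coeff_C_mul, coeff_X_pow]
  split_ifs with h2 h3 h3
  · rw [eval_monomial, mul_one]
  · exact absurd h2.symm h3
  · exact absurd h3.symm h2
  · rw [mul_zero]

theorem topP_ne {d : ℕ} {f : ℂ[X][X]} (h : ∃ e, cf f e ≠ 0 ∧ e.1 + e.2 = d) :
    topP d f ≠ 0 := by
  obtain ⟨e0, he0, hd⟩ := h
  intro h0
  apply he0
  have h1 : (topP d f).coeff e0.1 = cf f e0 := by
    unfold topP
    rw [finsetSum_coeff, Finset.sum_eq_single e0]
    · rw [coeff_monomial, if_pos rfl]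
    · intro e he hne
      rw [Finset.mem_filter] at he
      rw [coeff_monomial, if_neg]
      intro h2
      exact hne (Prod.ext h2 (by omega))
    · intro h'
      exact absurd (Finset.mem_filter.2 ⟨mem_bs.2 he0, hd⟩) h'
  rw [← h1, h0, coeff_zero]

end H51

end

end LCY
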