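import Pool.Agent.Helper51.LCY.Z3
import Pool.Agent.Helper73.LCY.Inter
import Pool.Agent.Helper73.LCY.LocSum
import Pool.Agent.Helper81.LCY.RowsA
import Pool.Agent.Helper82.LCY.Plane
import Pool.Agent.Helper27.LCY.PG

/-!
Bezout for MP_f7e214_ag, part 4: two plane curves in good position.
-/

open Polynomial

namespace LCY

noncomputable section

variable {L : Type} [Field L] [Algebra ℂ L]

namespace H51

/-- Transport of the equation of a curve. -/
theorem adic_transport {S1 S2 : Coord L} (A B : ℂ[X][X] → ℂ[X][X])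
    (hA : ∀ f, ev S2.x S2.y (A f) = ev S1.x S1.y f)
    (hB : ∀ f, ev S1.x S1.y (B f) = ev S2.x S2.y f) {F : ℂ[X][X]} {v : DVal L}
    (h : IsAdic S1 F v) : IsAdic S2 (A F) v := by
  have inj1 : ∀ f g, ev S1.x S1.y f = ev S1.x S1.y g → f = g := by
    intro f g hfg
    exact sub_eq_zero.1 (S1.inj _ (by rw [map_sub, hfg, sub_self]))
  have inj2 : ∀ f g, ev S2.x S2.y f = ev S2.x S2.y g → f = g := by
    intro f g hfg
    exact sub_eq_zero.1 (S2.inj _ (by rw [map_sub, hfg, sub_self]))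
  obtain ⟨E, hE⟩ : ∃ E : ℂ[X][X] ≃* ℂ[X][X], ∀ f, E f = A f :=
    ⟨{ toFun := A
       invFun := B
       left_inv := fun f => inj1 _ _ (by rw [hB, hA])
       right_inv := fun f => inj2 _ _ (by rw [hA, hB])
       map_mul' := fun f g => inj2 _ _ (by rw [hA, map_mul, map_mul, hA, hA]) }, fun f => rfl⟩
  have hEF : Irreducible (A F) := by
    rw [← hE F]
    exact (MulEquiv.irreducible_iff E).2 h.1
  refine ⟨hEF, fun n f hf => ?_⟩
  obtain ⟨f', hf'⟩ := E.surjective f
  have h1 : ¬ F ∣ f' := by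
    intro hd
    apply hf
    obtain ⟨u, hu⟩ := hd
    refine ⟨A u, ?_⟩
    rw [← hf', hE f', hu]
    apply inj2
    rw [map_mul, hA, hA, hA, map_mul]
  have h2 : A F ^ n * f = A (F ^ n * f') := by
    apply inj2
    rw [map_mul, map_pow, hA, hA, ← hf', hE f', hA, map_mul, map_pow]
  rw [h2, hA]
  exact h.2 n f' h1

/-- Curves of the plane. -/
theorem planeCur_of (h17 : ST_A17) {S : Coord L} {v : DVal L} (h : ∃ R ∈ plane S, Through R v) :
    PlaneCur S v := by
  rcases (h17 L 0 ⟨S, fun i => i.elim0, fun i => i.elim0⟩ v).1 h with h | ⟨i, -⟩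
  · exact h
  · exact i.elim0

theorem adic_of_nonneg {S : Coord L} {v : DVal L} (h : PlaneCur S v) (hx : 0 ≤ v.v S.x) :
    ∃ g, IsAdic S g v := by
  rcases h with h | h
  · have h1 := h (C X) H81.CX_ne
    rw [ev_CX, H81.tdeg_CX] at h1
    omega
  · exact h

/-- Translations of the first coordinate have positive value for at most one constant. -/
theorem bad_finite (v : DVal L) (P : Coord L) :
    {c : ℂ | 0 < v.v (P.x - algebraMap ℂ L c)}.Finite := by
  apply Set.Subsingleton.finite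
  intro c hc c' hc'
  by_contra hne
  have h0 : ∀ c : ℂ, P.x - algebraMap ℂ L c ≠ 0 := by
    intro c h
    have h1 := P.trans_x (p := X - C c) (X_sub_C_ne_zero c)
    rw [map_sub, aeval_X, aeval_C] at h1
    exact h1 h
  have h1 : v.Pos (P.x - algebraMap ℂ L c) := Or.inr hc
  have h2 : v.Pos (P.x - algebraMap ℂ L c') := Or.inr hc'
  have h3 := v.pos_add h1 (v.pos_neg h2)
  have h4 : P.x - algebraMap ℂ L c + -(P.x - algebraMap ℂ L c') = algebraMap ℂ L (c' - c) := by
    rw [map_sub]; ring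
  rw [h4] at h3
  have h5 : c' - c ≠ 0 := sub_ne_zero.2 (Ne.symm hne)
  rcases h3 with h3 | h3
  · exact h5 ((map_eq_zero (algebraMap ℂ L)).1 h3)
  · rw [v.map_const _ h5] at h3
    exact lt_irrefl _ h3

/-- The projective change of coordinates `(1 / (x - c), y / (x - c))`. -/
theorem exists_proj (S : Coord L) (c : ℂ) : ∃ S' : Coord L,
    S'.x = (S.x - algebraMap ℂ L c)⁻¹ ∧ S'.y = S.y / (S.x - algebraMap ℂ L c) ∧
    plane S' = plane S ∧ ∀ v, deg S' v = deg S v := by
  obtain ⟨S', h1, h2, h3, h4⟩ := H27.st_PG L S !![-c, 1, 0; 1, 0, 0; 0, 0, 1] (by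
    rw [Matrix.det_fin_three]; simp)
  refine ⟨S', ?_, ?_, h3, h4⟩
  · rw [h1]
    simp [lin]
    ring
  · rw [h2]
    simp [lin]
    congr 1
    ring

/-- Shears are projective changes of coordinates. -/
theorem exists_sh (S : Coord L) (t : ℂ) : ∃ S' : Coord L,
    S'.x = S.x - algebraMap ℂ L t * S.y ∧ S'.y = S.y ∧
    plane S' = plane S ∧ ∀ v, deg S' v = deg S v := by
  obtain ⟨S', h1, h2, h3, h4⟩ := H27.st_PG L S !![1, 0, 0; 0, 1, -t; 0, 0, 1] (by
    rw [Matrix.det_fin_three]; simp)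
  refine ⟨S', ?_, ?_, h3, h4⟩
  · rw [h1]
    simp [lin]
    ring
  · rw [h2]
    simp [lin]

/-- Two curves in good position. -/
structure Norm (S : Coord L) (v w : DVal L) (F G : ℂ[X][X]) (d d' : ℕ) (φ γ : ℂ[X]) : Prop where
  adF : IsAdic S F v
  adG : IsAdic S G w
  degF : F ∈ Vn d
  degG : G ∈ Vn d'
  topF : hp d F = hom d φ
  topG : hp d' G = hom d' γ
  natF : φ.natDegree = d
  neF : φ ≠ 0
  natG : γ.natDegree ≤ d'
  cop : IsCoprime φ γ
  tF : tdeg F = d
  tG : tdeg G = d'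

theorem Norm.bpair {S : Coord L} {v w : DVal L} {F G : ℂ[X][X]} {d d' : ℕ} {φ γ : ℂ[X]}
    (h : Norm S v w F G d d' φ γ) (hvw : ¬ v.Same w) : BPair F G d d' := by
  have hF : Prime F := h.adF.1.prime
  have hFG : ¬ F ∣ G := by
    intro hd
    exact hvw (H81.IsAdic.same h.adF
      (H81.IsAdic.of_associated h.adG (h.adF.1.associated_of_dvd h.adG.1 hd).symm))
  have hγ : γ ≠ 0 := by
    intro h0
    have h1 := h.cop
    rw [h0] at h1
    have h2 := isCoprime_zero_right.1 h1
    have h3 := natDegree_eq_zero_of_isUnit h2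
    have h4 := H81.tdeg_pos h.adF.1
    rw [h.tF, ← h.natF, h3] at h4
    omega
  refine ⟨h.degF, h.degG, ?_, ?_, ?_, ?_⟩
  · rw [h.topF]; exact hom_ne h.neF h.natF.le
  · rw [h.topG]; exact hom_ne hγ h.natG
  · intro A B hAB
    have h1 : F ∣ B * G := ⟨-A, by linear_combination hAB⟩
    obtain ⟨E, hE⟩ := (hF.dvd_or_dvd h1).resolve_right hFG
    refine ⟨-E, ?_, by rw [hE]; ring⟩
    have h2 : F * (A + E * G) = 0 := by
      rw [hE] at hAB
      linear_combination hAB
    have h3 := (mul_eq_zero.1 h2).resolve_left hF.ne_zero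
    linear_combination h3
  · rw [h.topF, h.topG]
    exact copt_of S h.cop h.natF h.neF h.natG

/-- Step 1: both curves are affine. -/
theorem exists_affine (h17 : ST_A17) {S : Coord L} {v w : DVal L}
    (hv : ∃ R ∈ plane S, Through R v) (hw : ∃ R ∈ plane S, Through R w) :
    ∃ (S' : Coord L) (F G : ℂ[X][X]), IsAdic S' F v ∧ IsAdic S' G w ∧
      plane S' = plane S ∧ ∀ v, deg S' v = deg S v := by
  obtain ⟨c, hc⟩ := ((bad_finite v S).union (bad_finite w S)).infinite_compl.nonempty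
  rw [Set.mem_compl_iff, Set.mem_union, not_or] at hc
  obtain ⟨hc1, hc2⟩ := hc
  rw [Set.mem_ofPred_eq, not_lt] at hc1 hc2
  obtain ⟨S', h1, h2, h3, h4⟩ := exists_proj S c
  have hne : S.x - algebraMap ℂ L c ≠ 0 := by
    intro h0
    rw [h0, inv_zero] at h1
    exact S'.x_ne h1
  have key : ∀ u : DVal L, (∃ R ∈ plane S, Through R u) → u.v (S.x - algebraMap ℂ L c) ≤ 0 →
      ∃ g, IsAdic S' g u := by
    intro u hu hcu
    rw [← h3] at hu
    refine adic_of_nonneg (planeCur_of h17 hu) ?_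
    rw [h1, u.map_inv hne]
    omega
  obtain ⟨F, hF⟩ := key v hv hc1
  obtain ⟨G, hG⟩ := key w hw hc2
  exact ⟨S', F, G, hF, hG, h3, h4⟩

/-- Step 2: the coefficient of `Y ^ d` of the first equation does not vanish. -/
theorem exists_topY {S : Coord L} {v w : DVal L} {F G : ℂ[X][X]} (hF : IsAdic S F v)
    (hG : IsAdic S G w) :
    ∃ (S' : Coord L) (F' G' : ℂ[X][X]), IsAdic S' F' v ∧ IsAdic S' G' w ∧
      cf F' (0, tdeg F') ≠ 0 ∧ plane S' = plane S ∧ ∀ v, deg S' v = deg S v := by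
  have h1 : topP (tdeg F) F ≠ 0 := topP_ne (H81.tdeg_spec hF.1.ne_zero)
  obtain ⟨t, ht⟩ : ∃ t : ℂ, (topP (tdeg F) F).eval t ≠ 0 := by
    by_contra hcon
    push Not at hcon
    exact h1 (Polynomial.funext fun t => by rw [hcon t, eval_zero])
  obtain ⟨S', h2, h3, h4, h5⟩ := exists_sh S t
  have hA : ∀ f, ev S'.x S'.y (shear t f) = ev S.x S.y f := by
    intro f
    rw [ev_shear, h2, h3]
    congr 2
    ring
  have hB : ∀ f, ev S.x S.y (shear (-t) f) = ev S'.x S'.y f := by
    intro f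
    rw [ev_shear, h2, h3, map_neg]
    congr 2
    ring
  have h6 := adic_transport (shear t) (shear (-t)) hA hB hF
  refine ⟨S', shear t F, shear t G, h6, adic_transport (shear t) (shear (-t)) hA hB hG,
    ?_, h4, h5⟩
  have h7 : tdeg (shear t F) = tdeg F := by
    have e1 := (H81.st_A8 L S' v _ h6).1
    have e2 := (H81.st_A8 L S v _ hF).1
    rw [h5, e2] at e1
    exact_mod_cast e1.symm
  rw [h7, cf_shear]
  exact ht

end H51

end

end LCY
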