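import Pool.Agent.Helper51.LCY.Z4

/-!
Bezout for MP_f7e214_ag, part 5: the line at infinity avoids the common points.
-/

open Polynomial

namespace LCY

noncomputable section

variable {L : Type} [Field L] [Algebra ℂ L]

namespace H51

theorem cf_hmg (d : ℕ) (f : ℂ[X][X]) (h : f ∈ Vn d) (e : ℕ × ℕ) :
    cf (H62.hmg d f) e = if e.1 + e.2 ≤ d then cf f (d - (e.1 + e.2), e.2) else 0 := by
  unfold H62.hmg
  have h1 : ∀ e' : ℕ × ℕ, (C (C (cf f e')) * (C X ^ (d - (e'.1 + e'.2)) * X ^ e'.2) : ℂ[X][X]) =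
      monomial e'.2 (monomial (d - (e'.1 + e'.2)) (cf f e')) := by
    intro e'
    rw [← C_mul_X_pow_eq_monomial, ← C_mul_X_pow_eq_monomial, C_mul, C_pow]
    ring
  unfold cf
  rw [finsetSum_coeff, finsetSum_coeff]
  have h2 : ∀ e' : ℕ × ℕ, ((C (C (cf f e')) * (C X ^ (d - (e'.1 + e'.2)) * X ^ e'.2) :
      ℂ[X][X]).coeff e.2).coeff e.1 =
      if e'.2 = e.2 ∧ d - (e'.1 + e'.2) = e.1 then cf f e' else 0 := by
    intro e'
    rw [h1, coeff_monomial]
    split_ifs with h3 h4 h4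
    · rw [coeff_monomial, if_pos h4.2]
    · rw [coeff_monomial, if_neg fun h5 => h4 ⟨h3, h5⟩]
    · exact absurd h4.1 h3
    · rw [coeff_zero]
  have h5 : ∀ e' ∈ bs f, ((C (C (((f.coeff e'.2).coeff e'.1)))
      * (C X ^ (d - (e'.1 + e'.2)) * X ^ e'.2) :
      ℂ[X][X]).coeff e.2).coeff e.1 =
      if e'.2 = e.2 ∧ d - (e'.1 + e'.2) = e.1 then cf f e' else 0 := fun e' _ => h2 e'
  rw [Finset.sum_congr rfl h5]
  split_ifs with h3
  · rw [Finset.sum_eq_single (d - (e.1 + e.2), e.2)]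
    · by_cases h4 : cf f (d - (e.1 + e.2), e.2) = 0
      · rw [h4]
        split_ifs <;> exact h4.symm
      · rw [if_pos ⟨rfl, by dsimp only; omega⟩]
        rfl
    · intro e' he' hne
      rw [if_neg]
      rintro ⟨h4, h6⟩
      apply hne
      have h7 := h e' (mem_bs.1 he')
      exact Prod.ext (by dsimp only; omega) h4
    · intro h4
      rw [mem_bs, not_not] at h4
      rw [h4]
      split_ifs <;> rfl
  · refine Finset.sum_eq_zero fun e' he' => ?_
    rw [if_neg]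
    rintro ⟨h4, h6⟩
    have h7 := h e' (mem_bs.1 he')
    omega

theorem hmg_mem {d : ℕ} {f : ℂ[X][X]} (h : f ∈ Vn d) : H62.hmg d f ∈ Vn d := by
  intro e he
  rw [cf_hmg d f h] at he
  split_ifs at he with h1
  · exact h1
  · exact absurd rfl he

theorem hp_hmg {d : ℕ} {f : ℂ[X][X]} (h : f ∈ Vn d) :
    hp d (H62.hmg d f) = hom d (f.map (evalRingHom 0)) := by
  refine cf_ext fun e => ?_
  rw [cf_hp, cf_hom]
  split_ifs with h1
  · rw [cf_hmg d f h, if_pos h1.le, coeff_map_ev0, h1, Nat.sub_self]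
  · rfl

theorem trl_mem {a b : ℂ} {d : ℕ} {f : ℂ[X][X]} (h : f ∈ Vn d) : trl a b f ∈ Vn d := by
  intro e he
  obtain ⟨e', h1, h2, h3⟩ := cf_trl he
  have := h e' h3
  omega

theorem trl_map_ev0' (c : ℂ) (f : ℂ[X][X]) :
    (trl c 0 f).map (evalRingHom 0) = f.map (evalRingHom c) := by
  unfold trl
  rw [map_comp, Polynomial.map_map, Polynomial.map_add, map_X, map_C, C_0, Polynomial.coe_evalRingHom,
    eval_zero, C_0, add_zero, comp_X]
  congr 1
  refine RingHom.ext fun p => ?_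
  show ((p.comp (X + C c)).eval 0 : ℂ) = p.eval c
  rw [eval_comp, eval_add, eval_X, eval_C, zero_add]

theorem mem_tdeg (f : ℂ[X][X]) : f ∈ Vn (tdeg f) := fun _ he => H81.le_tdeg he

/-- The degree in `Y` of the restriction to a line. -/
theorem natDegree_res {f : ℂ[X][X]} {d : ℕ} (h : f ∈ Vn d) (c : ℂ) :
    (f.map (evalRingHom c)).natDegree ≤ d := by
  refine natDegree_map_le.trans ?_
  rw [natDegree_le_iff_coeff_eq_zero]
  intro N hN
  refine Polynomial.ext fun i => ?_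
  rw [coeff_zero]
  by_contra h1
  have := h (i, N) h1
  dsimp only at this
  omega

theorem coeff_res {f : ℂ[X][X]} {d : ℕ} (h : f ∈ Vn d) (c : ℂ) :
    (f.map (evalRingHom c)).coeff d = cf f (0, d) := by
  rw [coeff_map, coe_evalRingHom]
  have h1 : f.coeff d = C (cf f (0, d)) := by
    refine Polynomial.ext fun i => ?_
    by_cases hi : i = 0
    · rw [hi, coeff_C_zero]; rfl
    · rw [coeff_C_ne_zero hi]
      by_contra h1
      have := h (i, d) h1
      dsimp only at this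
      omega
  rw [h1, eval_C]

/-- The equation of a curve after the projective change of coordinates
`(1 / (x - c), y / (x - c))`. -/
theorem adic_proj (h17 : ST_A17) {S S' : Coord L} {c : ℂ} {v : DVal L} {F : ℂ[X][X]}
    (hx : S'.x = (S.x - algebraMap ℂ L c)⁻¹) (hy : S'.y = S.y / (S.x - algebraMap ℂ L c))
    (hdeg : ∀ v, deg S' v = deg S v) (hv : ∃ R ∈ plane S', Through R v)
    (hc : v.v (S.x - algebraMap ℂ L c) ≤ 0) (hF : IsAdic S F v) :
    IsAdic S' (H62.hmg (tdeg F) (trl c 0 F)) v ∧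
      tdeg (H62.hmg (tdeg F) (trl c 0 F)) = tdeg F := by
  have hne : S.x - algebraMap ℂ L c ≠ 0 := by
    intro h0
    rw [h0, inv_zero] at hx
    exact S'.x_ne hx
  have hmem : trl c 0 F ∈ Vn (tdeg F) := trl_mem (mem_tdeg F)
  have hvx : v.v S'.x = - v.v (S.x - algebraMap ℂ L c) := by rw [hx, v.map_inv hne]
  obtain ⟨g, hg⟩ := adic_of_nonneg (planeCur_of h17 hv) (by rw [hvx]; omega)
  have hdg : tdeg g = tdeg F := by
    have e1 := (H81.st_A8 L S' v _ hg).1
    have e2 := (H81.st_A8 L S v _ hF).1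
    rw [hdeg, e2] at e1
    exact_mod_cast e1.symm
  set H := H62.hmg (tdeg F) (trl c 0 F) with hH
  have hev : ev S.x S.y F = (S.x - algebraMap ℂ L c) ^ tdeg F * ev S'.x S'.y H := by
    have h1 := ev_trl S.x S.y c 0 F
    rw [map_zero, sub_zero] at h1
    rw [← h1, H62.ev_hmg (fun e he => hmem e he) hne, ← hx, ← hy]
  have hH0 : H ≠ 0 := by
    intro h0
    rw [h0, map_zero, mul_zero] at hev
    exact S.ne hF.1.ne_zero hev
  have hval : 0 < v.v (ev S'.x S'.y H) := by
    have h1 := H81.IsAdic.self hF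
    rw [hev, v.map_mul _ _ (pow_ne_zero _ hne) (S'.ne hH0), v.map_pow hne] at h1
    have h2 : (tdeg F : ℤ) * v.v (S.x - algebraMap ℂ L c) ≤ 0 :=
      mul_nonpos_of_nonneg_of_nonpos (Int.natCast_nonneg _) hc
    omega
  obtain ⟨u, hu⟩ := (H81.IsAdic.pos_iff hg hH0).1 hval
  have hu0 : u ∈ Vn 0 := by
    refine Vn_of_mul (H81.tdeg_spec hg.1.ne_zero) (b := 0) ?_
    rw [← hu, add_zero, hdg]
    exact hmg_mem hmem
  have hunit : IsUnit u := by
    have h1 : u = C (C (cf u (0, 0))) := by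
      refine cf_ext fun e => ?_
      by_cases he : e = (0, 0)
      · rw [he]; simp [cf]
      · have h2 : cf u e = 0 := by
          by_contra h3
          have := hu0 e h3
          exact he (Prod.ext (by dsimp only; omega) (by dsimp only; omega))
        rw [h2]
        by_contra h4
        exact he (H81.cf_CC _ (fun h => h4 h.symm))
    have h2 : cf u (0, 0) ≠ 0 := by
      intro h
      rw [h, C_0, C_0] at h1
      rw [h1, mul_zero] at hu
      exact hH0 hu
    rw [h1]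
    exact ((isUnit_iff_ne_zero.2 h2).map C).map C
  have hass : Associated g H := by
    obtain ⟨u', hu'⟩ := hunit
    exact ⟨u', by rw [hu', ← hu]⟩
  exact ⟨H81.IsAdic.of_associated hg hass, by
    rw [← H81.tdeg_associated hg.1.ne_zero hass, hdg]⟩

/-- **Good position.** -/
theorem exists_norm (h17 : ST_A17) {S : Coord L} {v w : DVal L}
    (hv : ∃ R ∈ plane S, Through R v) (hw : ∃ R ∈ plane S, Through R w) (hvw : ¬ v.Same w) :
    ∃ (S' : Coord L) (F G : ℂ[X][X]) (d d' : ℕ) (φ γ : ℂ[X]), Norm S' v w F G d d' φ γ ∧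
      plane S' = plane S ∧ ∀ v, deg S' v = deg S v := by
  obtain ⟨S1, F1, G1, hF1, hG1, hp1, hd1⟩ := exists_affine h17 hv hw
  obtain ⟨S2, F2, G2, hF2, hG2, htop, hp2, hd2⟩ := exists_topY hF1 hG1
  have hFG : ¬ F2 ∣ G2 := by
    intro hd
    exact hvw (H81.IsAdic.same hF2
      (H81.IsAdic.of_associated hG2 (hF2.1.associated_of_dvd hG2.1 hd).symm))
  obtain ⟨r, A, B, hr, hAB⟩ := elim_y hF2.1.prime hFG
  obtain ⟨c, hc⟩ := (((bad_finite v S2).union (bad_finite w S2)).union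
    (r.roots.toFinset.finite_toSet)).infinite_compl.nonempty
  rw [Set.mem_compl_iff, Set.mem_union, Set.mem_union, not_or, not_or] at hc
  obtain ⟨⟨hc1, hc2⟩, hc3⟩ := hc
  rw [Set.mem_ofPred_eq, not_lt] at hc1 hc2
  have hrc : r.eval c ≠ 0 := by
    intro h0
    apply hc3
    rw [Finset.mem_coe, Multiset.mem_toFinset, mem_roots hr]
    exact h0
  obtain ⟨S3, hx, hy, hp3, hd3⟩ := exists_proj S2 c
  have hplane : plane S3 = plane S := by rw [hp3, hp2, hp1]
  have hv3 : ∃ R ∈ plane S3, Through R v := by rw [hplane]; exact hv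
  have hw3 : ∃ R ∈ plane S3, Through R w := by rw [hplane]; exact hw
  obtain ⟨a1, a2⟩ := adic_proj h17 hx hy hd3 hv3 hc1 hF2
  obtain ⟨b1, b2⟩ := adic_proj h17 hx hy hd3 hw3 hc2 hG2
  have m1 : trl c 0 F2 ∈ Vn (tdeg F2) := trl_mem (mem_tdeg F2)
  have m2 : trl c 0 G2 ∈ Vn (tdeg G2) := trl_mem (mem_tdeg G2)
  refine ⟨S3, _, _, tdeg F2, tdeg G2, F2.map (evalRingHom c), G2.map (evalRingHom c),
    ⟨a1, b1, hmg_mem m1, hmg_mem m2, ?_, ?_, ?_, ?_, ?_, ?_, a2, b2⟩, hplane, ?_⟩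
  · rw [hp_hmg m1, trl_map_ev0']
  · rw [hp_hmg m2, trl_map_ev0']
  · refine le_antisymm (natDegree_res (mem_tdeg F2) c) (le_natDegree_of_ne_zero ?_)
    rw [coeff_res (mem_tdeg F2)]
    exact htop
  · intro h0
    have h1 := coeff_res (mem_tdeg F2) c
    rw [h0, coeff_zero] at h1
    exact htop h1.symm
  · exact natDegree_res (mem_tdeg G2) c
  · refine ⟨C (r.eval c)⁻¹ * A.map (evalRingHom c), C (r.eval c)⁻¹ * B.map (evalRingHom c), ?_⟩
    have h1 := congrArg (Polynomial.map (evalRingHom c)) hAB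
    rw [map_C, coe_evalRingHom, Polynomial.map_add, Polynomial.map_mul, Polynomial.map_mul] at h1
    have h2 : C (r.eval c)⁻¹ * C (r.eval c) = (1 : ℂ[X]) := by
      rw [← C_mul, inv_mul_cancel₀ hrc, C_1]
    linear_combination h2 - C (r.eval c)⁻¹ * h1
  · intro u
    rw [hd3, hd2, hd1]

end H51

end

end LCY
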