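import Pool.Agent.Helper51.LCY.Z5

/-!
Bezout for MP_f7e214_ag, part 6: the points.
-/

open Polynomial

namespace LCY

noncomputable section

variable {L : Type} [Field L] [Algebra ℂ L]

namespace H51

open H82 (Vl PtAt)

/-! ### Affine points -/

/-- The coordinates centred at the point `p`. -/
def aff (S : Coord L) (p : ℂ × ℂ) : Coord L := Classical.choose (S.trans p.1 p.2)

theorem aff_x (S : Coord L) (p : ℂ × ℂ) : (aff S p).x = S.x - algebraMap ℂ L p.1 :=
  (Classical.choose_spec (S.trans p.1 p.2)).1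

theorem aff_y (S : Coord L) (p : ℂ × ℂ) : (aff S p).y = S.y - algebraMap ℂ L p.2 :=
  (Classical.choose_spec (S.trans p.1 p.2)).2

theorem ev_aff (S : Coord L) (p : ℂ × ℂ) (f : ℂ[X][X]) :
    ev (aff S p).x (aff S p).y (trl p.1 p.2 f) = ev S.x S.y f := by
  rw [aff_x, aff_y, ev_trl]

theorem ev_aff' (S : Coord L) (p : ℂ × ℂ) (f : ℂ[X][X]) :
    ev S.x S.y (trl (-p.1) (-p.2) f) = ev (aff S p).x (aff S p).y f := by
  have h := ev_trl (aff S p).x (aff S p).y (-p.1) (-p.2) f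
  rw [aff_x, aff_y, map_neg, map_neg, sub_neg_eq_add, sub_neg_eq_add, sub_add_cancel,
    sub_add_cancel] at h
  rw [h, aff_x, aff_y]

/-- The value at `p`. -/
def evp (p : ℂ × ℂ) : ℂ[X][X] →ₐ[ℂ] ℂ where
  toRingHom := (evalRingHom p.1).comp (evalRingHom (C p.2))
  commutes' := by
    intro c
    show ((C (C c) : ℂ[X][X]).eval (C p.2)).eval p.1 = c
    rw [eval_C, eval_C]

theorem evp_apply (p : ℂ × ℂ) (f : ℂ[X][X]) : evp p f = (f.eval (C p.2)).eval p.1 := rfl

theorem vl_aff_x (S : Coord L) (p : ℂ × ℂ) : Vl (aff S p).loc S.x p.1 := by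
  have h := H82.vl_add (H82.vl_x (P := aff S p)) (H82.vl_const (P := aff S p) p.1)
  rw [aff_x, sub_add_cancel, zero_add] at h
  exact h

theorem vl_aff_y (S : Coord L) (p : ℂ × ℂ) : Vl (aff S p).loc S.y p.2 := by
  have h := H82.vl_add (H82.vl_y (P := aff S p)) (H82.vl_const (P := aff S p) p.2)
  rw [aff_y, sub_add_cancel, zero_add] at h
  exact h

theorem vl_aff (S : Coord L) (p : ℂ × ℂ) (f : ℂ[X][X]) :
    Vl (aff S p).loc (ev S.x S.y f) (evp p f) := H82.vl_ev (vl_aff_x S p) (vl_aff_y S p) f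

theorem cf_trl_zero (S : Coord L) (p : ℂ × ℂ) (f : ℂ[X][X]) :
    cf (trl p.1 p.2 f) (0, 0) = evp p f := by
  have h1 := H82.vl_ev (P := aff S p) H82.vl_x H82.vl_y (trl p.1 p.2 f)
  rw [H82.eval00, ev_aff] at h1
  exact H82.vl_unique h1 (vl_aff S p f)

theorem adic_aff {S : Coord L} {F : ℂ[X][X]} {v : DVal L} (h : IsAdic S F v) (p : ℂ × ℂ) :
    IsAdic (aff S p) (trl p.1 p.2 F) v :=
  adic_transport (trl p.1 p.2) (trl (-p.1) (-p.2)) (ev_aff S p) (ev_aff' S p) h

theorem through_aff {S : Coord L} {F : ℂ[X][X]} {v : DVal L} (h : IsAdic S F v) (p : ℂ × ℂ) :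
    Through (aff S p).loc v ↔ evp p F = 0 := by
  rw [H81.through_iff]
  constructor
  · rintro ⟨g, hg, h0⟩
    rw [← cf_trl_zero S]
    exact H81.cf0_associated (H81.IsAdic.associated hg (adic_aff h p)) h0
  · intro h0
    exact ⟨_, adic_aff h p, by rw [cf_trl_zero S, h0]⟩

/-- Polynomials as elements of the local ring. -/
def rho (S : Coord L) (p : ℂ × ℂ) : ℂ[X][X] →+* (aff S p).loc :=
  (ev S.x S.y).codRestrict (aff S p).loc fun f => by
    rw [← ev_aff S p f]
    exact (aff S p).ev_mem_loc _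

theorem coe_rho (S : Coord L) (p : ℂ × ℂ) (f : ℂ[X][X]) :
    ((rho S p f : (aff S p).loc) : L) = ev S.x S.y f := rfl

/-- Elements of the local ring as fractions. -/
theorem exists_frac (S : Coord L) (p : ℂ × ℂ) (z : (aff S p).loc) :
    ∃ a b : ℂ[X][X], evp p b ≠ 0 ∧ z * rho S p b = rho S p a := by
  obtain ⟨z, f, g, hg, rfl⟩ := z
  refine ⟨trl (-p.1) (-p.2) f, trl (-p.1) (-p.2) g, ?_, ?_⟩
  · have h1 := H82.vl_ev (P := aff S p) H82.vl_x H82.vl_y g
    rw [H82.eval00] at h1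
    have h2 := vl_aff S p (trl (-p.1) (-p.2) g)
    rw [ev_aff'] at h2
    rw [H82.vl_unique h2 h1]
    exact hg
  · apply Subtype.ext
    have hg0 : g ≠ 0 := by rintro rfl; exact hg (H62.cf_zero _)
    show ev (aff S p).x (aff S p).y f / ev (aff S p).x (aff S p).y g *
      ev S.x S.y (trl (-p.1) (-p.2) g) = ev S.x S.y (trl (-p.1) (-p.2) f)
    rw [ev_aff', ev_aff', div_mul_cancel₀ _ ((aff S p).ne hg0)]

theorem rho_unit (S : Coord L) (p : ℂ × ℂ) {b : ℂ[X][X]} (hb : evp p b ≠ 0) :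
    IsUnit (rho S p b) := by
  have h1 := vl_aff S p b
  have h2 := H82.vl_inv h1 hb
  have hb0 : b ≠ 0 := by rintro rfl; exact hb (map_zero _)
  refine isUnit_iff_exists_inv.2 ⟨⟨_, H82.mem_of_vl h2⟩, ?_⟩
  apply Subtype.ext
  show ev S.x S.y b * (ev S.x S.y b)⁻¹ = 1
  exact mul_inv_cancel₀ (S.ne hb0)

/-- The ideal of a curve at an affine point of it. -/
theorem pid_aff {S : Coord L} {F : ℂ[X][X]} {v : DVal L} (h : IsAdic S F v) {p : ℂ × ℂ}
    (hp : evp p F = 0) : pid (aff S p).loc v = Ideal.span {rho S p F} := by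
  apply le_antisymm
  · refine Ideal.span_le.2 fun z hz => ?_
    obtain ⟨a, b, hb, hab⟩ := exists_frac S p z
    have hdvd : F ∣ a := by
      by_cases ha : a = 0
      · rw [ha]; exact dvd_zero _
      have h1 : v.Pos (ev S.x S.y a) := by
        have h2 : (z : L) * ev S.x S.y b = ev S.x S.y a := congrArg Subtype.val hab
        rw [← h2]
        refine v.pos_mul_int hz ?_
        have hb0 : b ≠ 0 := by rintro rfl; exact hb (map_zero _)
        exact Or.inr (H81.IsAdic.nonneg h hb0)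
      exact (H81.IsAdic.pos_iff h ha).1 (h1.resolve_left (S.ne ha))
    obtain ⟨u, rfl⟩ := hdvd
    obtain ⟨w, hw⟩ := rho_unit S p hb
    rw [SetLike.mem_coe, Ideal.mem_span_singleton]
    refine ⟨rho S p u * ((w⁻¹ : (aff S p).locˣ) : (aff S p).loc), ?_⟩
    rw [← mul_assoc, ← map_mul, ← hab, ← hw, mul_assoc, Units.mul_inv, mul_one]
  · rw [Ideal.span_singleton_le_iff_mem]
    refine Ideal.subset_span ?_
    show v.Pos (ev S.x S.y F)
    right
    rw [H81.IsAdic.self h]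
    exact one_pos

/-! ### Points at infinity -/

theorem evp_map (f : ℂ[X][X]) (a b : ℂ) :
    (f.eval (C b)).eval a = (f.map (evalRingHom a)).eval b := by
  have h := eval₂_hom (p := f) (evalRingHom a) (C b)
  rw [coe_evalRingHom, eval_C] at h
  rw [eval_map, ← h]

theorem map_hmg {d : ℕ} {F : ℂ[X][X]} {φ : ℂ[X]} (hd : F ∈ Vn d) (htop : hp d F = hom d φ)
    (hφ : φ.natDegree ≤ d) : (H62.hmg d F).map (evalRingHom 0) = φ := by
  refine Polynomial.ext fun j => ?_
  rw [coeff_map_ev0, cf_hmg d F hd]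
  split_ifs with h1
  · dsimp only at h1 ⊢
    rw [zero_add] at h1 ⊢
    have h2 := cf_hp d F (d - j, j)
    have h3 := cf_hom d φ (d - j, j)
    rw [if_pos (by dsimp only; omega)] at h2 h3
    rw [← h2, htop, h3]
  · dsimp only at h1
    rw [coeff_eq_zero_of_natDegree_lt (by omega)]

/-- Values of an equation with respect to a curve through a point at infinity. -/
theorem inf_aux {v : DVal L} {R : Subalgebra ℂ L} (ht : Through R v) {x z f : L} {d : ℕ} {c : ℂ}
    {Q : Coord L} (hQ : Q.loc = R) (hx0 : x ≠ 0) (hx : 0 ≤ v.v x) (hxi : x⁻¹ ∈ R)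
    (hz : Vl Q.loc z c) (hf : f = x ^ d * z) (hf1 : v.v f = 1) (hz0 : z ≠ 0) : c = 0 := by
  by_contra hc
  have h1 := H82.mem_of_vl hz
  have h2 := H82.mem_of_vl (H82.vl_inv hz hc)
  rw [hQ] at h1 h2
  have h3 := (ht.1 _ h1).resolve_left hz0
  have h4 := (ht.1 _ h2).resolve_left (inv_ne_zero hz0)
  have h5 := (ht.1 _ hxi).resolve_left (inv_ne_zero hx0)
  rw [v.map_inv hz0] at h4
  rw [v.map_inv hx0] at h5
  have h6 : v.v x = 0 := by omega
  have h7 : v.v z = 0 := by omega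
  rw [hf, v.map_mul _ _ (pow_ne_zero _ hx0) hz0, v.map_pow hx0, h6, h7] at hf1
  norm_num at hf1

theorem inf_pt {S : Coord L} {v : DVal L} {F : ℂ[X][X]} {d : ℕ} {φ : ℂ[X]} (hF : IsAdic S F v)
    (hd : F ∈ Vn d) (htop : hp d F = hom d φ) (hφ : φ.natDegree ≤ d) {b : ℂ}
    {R : Subalgebra ℂ L} (h : PtAt S.x⁻¹ (S.y / S.x - algebraMap ℂ L b) R) (ht : Through R v) :
    φ.eval b = 0 := by
  obtain ⟨Q, hQx, hQy, hQ⟩ := h
  have hev : ev S.x S.y F = S.x ^ d * ev S.x⁻¹ (S.y / S.x) (H62.hmg d F) :=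
    H62.ev_hmg (fun e he => hd e he) S.x_ne
  have h1 : Vl Q.loc S.x⁻¹ 0 := by rw [← hQx]; exact H82.vl_x
  have h2 : Vl Q.loc (S.y / S.x) b := by
    have h3 := H82.vl_add (H82.vl_y (P := Q)) (H82.vl_const (P := Q) b)
    rw [hQy, sub_add_cancel, zero_add] at h3
    exact h3
  have h3 := H82.vl_ev h1 h2 (H62.hmg d F)
  rw [evp_map, map_hmg hd htop hφ] at h3
  have h4 := H81.IsAdic.nonneg hF H81.CX_ne
  rw [ev_CX] at h4
  refine inf_aux ht hQ S.x_ne h4 ?_ h3 hev (H81.IsAdic.self hF) ?_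
  · rw [← hQ]; exact H82.mem_of_vl h1
  · intro h0
    rw [h0, mul_zero] at hev
    exact S.ne hF.1.ne_zero hev

theorem ver_pt {S : Coord L} {v : DVal L} {F : ℂ[X][X]} {d : ℕ} (hF : IsAdic S F v)
    (hd : F ∈ Vn d) {R : Subalgebra ℂ L} (h : PtAt S.y⁻¹ (S.x / S.y) R) (ht : Through R v) :
    cf F (0, d) = 0 := by
  obtain ⟨Q, hQx, hQy, hQ⟩ := h
  obtain ⟨F', h5, h6, h7⟩ := swap_pol F
  have hd' : F' ∈ Vn d := by
    intro e he
    have := hd _ (h6 e he)
    dsimp only at this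
    omega
  have hev : ev S.x S.y F = S.y ^ d * ev S.y⁻¹ (S.x / S.y) (H62.hmg d F') := by
    rw [← h7 L S.x S.y]
    exact H62.ev_hmg (fun e he => hd' e he) S.y_ne
  have h1 : Vl Q.loc S.y⁻¹ 0 := by rw [← hQx]; exact H82.vl_x
  have h2 : Vl Q.loc (S.x / S.y) 0 := by rw [← hQy]; exact H82.vl_y
  have h3 := H82.vl_ev h1 h2 (H62.hmg d F')
  rw [H82.eval00] at h3
  have h8 : cf (H62.hmg d F') (0, 0) = cf F (0, d) := by
    rw [cf_hmg d F' hd', if_pos (by dsimp only; omega)]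
    show cf F' (d - (0 + 0), 0) = cf F (0, d)
    rw [add_zero, Nat.sub_zero]
    by_cases h9 : cf F (0, d) = 0
    · rw [h9]
      by_contra h10
      exact (h6 _ h10) h9
    · exact h5 (0, d) h9
  have h4 := H81.IsAdic.nonneg hF (X_ne_zero (R := ℂ[X]))
  rw [ev_X] at h4
  have h9 := inf_aux ht hQ S.y_ne h4 (by rw [← hQ]; exact H82.mem_of_vl h1) h3 hev
    (H81.IsAdic.self hF) (by
      intro h0
      rw [h0, mul_zero] at hev
      exact S.ne hF.1.ne_zero hev)
  rw [← h8]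
  exact h9

/-- There are no common points at infinity. -/
theorem Norm.inf {S : Coord L} {v w : DVal L} {F G : ℂ[X][X]} {d d' : ℕ} {φ γ : ℂ[X]}
    (h : Norm S v w F G d d' φ γ) {R : Subalgebra ℂ L} (hR : R ∈ plane S) (hv : Through R v)
    (hw : Through R w) : ∃ p : ℂ × ℂ, R = (aff S p).loc ∧ evp p F = 0 ∧ evp p G = 0 := by
  rcases H82.mem_plane hR with ⟨a, b, Q, h1, h2, h3⟩ | ⟨b, h1⟩ | h1
  · have h4 : R = (aff S (a, b)).loc := by
      rw [← h3]
      exact H82.loc_congr (by rw [h1, aff_x]) (by rw [h2, aff_y])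
    rw [h4] at hv hw
    exact ⟨(a, b), h4, (through_aff h.adF _).1 hv, (through_aff h.adG _).1 hw⟩
  · exfalso
    have h2 := inf_pt h.adF h.degF h.topF h.natF.le h1 hv
    have h3 := inf_pt h.adG h.degG h.topG h.natG h1 hw
    obtain ⟨α, β, hαβ⟩ := h.cop
    have h4 := congrArg (eval b) hαβ
    rw [eval_add, eval_mul, eval_mul, h2, h3, mul_zero, mul_zero, add_zero, eval_one] at h4
    exact zero_ne_one h4
  · exfalso
    have h2 := ver_pt h.adF h.degF h1 hv
    have h3 := cf_hp d F (0, d)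
    have h4 := cf_hom d φ (0, d)
    rw [if_pos (by dsimp only; omega)] at h3 h4
    rw [h2, h.topF, h4] at h3
    dsimp only at h3
    rw [← h.natF] at h3
    exact h.neF (leadingCoeff_eq_zero.1 h3)

end H51

end

end LCY
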